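import Pool.Agent.P8H69.OL.Dd

set_option autoImplicit false

/-!
# The void function: monotonicity and stability
-/

namespace Pool.Agent.P8H69.OL

open MeasureTheory Set Filter Topology
open scoped ENNReal

variable (μ : Measure ℝ)

/-- the smoothed measure -/
noncomputable def nu (h : ℝ) : Measure ℝ := if h = 0 then μ else volume.withDensity (ww μ h)

variable [SFinite μ]

instance nu_sfinite (h : ℝ) : SFinite (nu μ h) := by
  unfold nu
  split_ifs <;> infer_instance

lemma DD_nu {h : ℝ} (hh : 0 ≤ h) (a t : ℝ) : DD μ h a t = nu μ h (Ioc t (t + a)) := by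
  unfold nu
  rcases hh.eq_or_lt with rfl | h1
  · rw [DD_zero, if_pos rfl]; rfl
  · rw [DD_pos μ h1, if_neg h1.ne', Sm_W0, withDensity_apply _ measurableSet_Ioc]

omit [SFinite μ] in
lemma FM0 (ν : Measure ℝ) [SFinite ν] {a T : ℝ} :
    ∫⁻ t in Ioc 0 T, ν (Ioc t (t + a)) ≤ ENNReal.ofReal a * ν (Ioc 0 (T + a)) := by
  have hS : MeasurableSet {p : ℝ × ℝ | p.1 < p.2 ∧ p.2 ≤ p.1 + a} :=
    (measurableSet_lt measurable_fst measurable_snd).inter
      (measurableSet_le measurable_snd (measurable_fst.add_const a))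
  have h1 : ∫⁻ t in Ioc 0 T, ν (Ioc t (t + a)) =
      ((volume.restrict (Ioc 0 T)).prod ν) {p : ℝ × ℝ | p.1 < p.2 ∧ p.2 ≤ p.1 + a} := by
    rw [Measure.prod_apply hS]
    rfl
  rw [h1, Measure.prod_apply_symm hS]
  calc ∫⁻ x, (volume.restrict (Ioc 0 T)) ((fun t => (t, x)) ⁻¹' {p : ℝ × ℝ | p.1 < p.2 ∧ p.2 ≤ p.1 + a}) ∂ν
      ≤ ∫⁻ x, (Ioc 0 (T + a)).indicator (fun _ => ENNReal.ofReal a) x ∂ν := by
        refine lintegral_mono fun x => ?_
        show (volume.restrict (Ioc 0 T)) ((fun t => (t, x)) ⁻¹' {p : ℝ × ℝ | p.1 < p.2 ∧ p.2 ≤ p.1 + a}) ≤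
          (Ioc 0 (T + a)).indicator (fun _ => ENNReal.ofReal a) x
        rw [Measure.restrict_apply (measurable_prodMk_right hS)]
        by_cases hx : x ∈ Ioc 0 (T + a)
        · rw [indicator_of_mem hx]
          have hsub : ((fun t => (t, x)) ⁻¹' {p : ℝ × ℝ | p.1 < p.2 ∧ p.2 ≤ p.1 + a}) ∩ Ioc 0 T ⊆ Ico (x - a) x := by
            rintro t ⟨⟨ht1, ht2⟩, _⟩
            simp only at ht1 ht2
            exact ⟨by linarith, ht1⟩
          refine (measure_mono hsub).trans (le_of_eq ?_)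
          rw [Real.volume_Ico]
          congr 1
          ring
        · rw [indicator_of_notMem hx]
          have hemp : ((fun t => (t, x)) ⁻¹' {p : ℝ × ℝ | p.1 < p.2 ∧ p.2 ≤ p.1 + a}) ∩ Ioc 0 T = ∅ := by
            ext t
            simp only [mem_inter_iff, mem_preimage, mem_ofPred_eq, mem_empty_iff_false, iff_false, not_and]
            rintro ⟨ht1, ht2⟩ ht3
            exact hx ⟨by linarith [ht3.1], by linarith [ht3.2]⟩
          rw [hemp, measure_empty]
    _ = ENNReal.ofReal a * ν (Ioc 0 (T + a)) := by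
        rw [lintegral_indicator measurableSet_Ioc, setLIntegral_const]

/-- the first moment -/
lemma FM {h : ℝ} (hh : 0 ≤ h) {a T : ℝ} :
    ∫⁻ t in Ioc 0 T, DD μ h a t ≤ ENNReal.ofReal a * nu μ h (Ioc 0 (T + a)) := by
  simp only [DD_nu μ hh]
  exact FM0 (nu μ h)

lemma shift_Ioc {g : ℝ → ℝ≥0∞} {T c : ℝ} : ∫⁻ t in Ioc 0 T, g (t + c) = ∫⁻ t in Ioc c (T + c), g t := by
  rw [← lintegral_indicator measurableSet_Ioc, ← lintegral_indicator measurableSet_Ioc,
    ← lintegral_add_right_eq_self ((Ioc c (T + c)).indicator g) c]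
  refine lintegral_congr fun t => ?_
  by_cases ht : t ∈ Ioc 0 T
  · have : t + c ∈ Ioc c (T + c) := ⟨by linarith [ht.1], by linarith [ht.2]⟩
    rw [indicator_of_mem ht, indicator_of_mem this]
  · have : t + c ∉ Ioc c (T + c) := fun h3 => ht ⟨by linarith [h3.1], by linarith [h3.2]⟩
    rw [indicator_of_notMem ht, indicator_of_notMem this]

/-- monotonicity -/
theorem VV_mono {h δ a T : ℝ} (hh : 0 ≤ h) (hδ : 0 < δ) (hT : 0 < T) :
    VV μ (h + δ) a T ≤ VV μ h a T + ENNReal.ofReal (Real.sqrt T * (1 + 2 * δ)) := by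
  unfold VV
  have hm := DD_meas μ hh a
  have h1 : ∀ t, 1 - DD μ (h + δ) a t ≤ Sm δ (fun t => 1 - DD μ h a t) t := by
    intro t
    rw [DD_add μ hh hδ]
    exact jens hδ hm 1 t
  have h2 := bdry (g := fun t => 1 - DD μ h a t) (measurable_const.sub hm) (B := 1) (fun t => tsub_le_self) hδ hT
  rw [one_mul] at h2
  exact (lintegral_mono h1).trans h2

/-- the pointwise stability estimate -/
lemma stab1 {h δ η a : ℝ} (hh : 0 ≤ h) (hδ : 0 < δ) (hη : 0 < η) (t : ℝ) :
    1 - DD μ h a t ≤ (1 - DD μ (h + δ) (a - 2 * η) (t + η)) + ENNReal.ofReal (2 * δ / η) * DD μ (h + η) a t := by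
  have key : DD μ (h + δ) (a - 2 * η) (t + η) ≤ DD μ h a t + ENNReal.ofReal (2 * δ / η) * DD μ (h + η) a t := by
    have h1 : DD μ (h + η) (a - 2 * η) (t + η) ≤ DD μ (h + η) a t := DD_win μ (by linarith) hη.le (by linarith)
    refine le_trans ?_ (add_le_add_right (mul_le_mul_right h1 _) _)
    rw [DD_add μ hh hδ, DD_add μ hh hη]
    have hm := DD_meas μ hh (a - 2 * η)
    have h2 : ∀ r, pe δ r * DD μ h (a - 2 * η) (t + η - r) ≤ pe δ r * DD μ h a t +
        ENNReal.ofReal (2 * δ / η) * (pe η r * DD μ h (a - 2 * η) (t + η - r)) := by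
      intro r
      rcases le_total |r| η with h3 | h3
      · refine le_trans ?_ le_self_add
        refine mul_le_mul_right ?_ _
        rw [abs_le] at h3
        rw [show t + η - r = t + (η - r) by ring]
        exact DD_win μ hh (by linarith) (by linarith)
      · refine le_trans ?_ le_add_self
        rw [← mul_assoc]
        exact mul_le_mul_left (pe_tail hδ.le hη h3) _
    unfold Sm
    refine (lintegral_mono h2).trans (le_of_eq ?_)
    rw [lintegral_add_left ((pe_meas δ).mul_const _), lintegral_mul_const _ (pe_meas δ), lint_pe hδ, one_mul,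
      lintegral_const_mul]
    exact (pe_meas η).mul (hm.comp (measurable_const.sub measurable_id))
  rw [tsub_le_iff_right]
  calc (1 : ℝ≥0∞) ≤ (1 - DD μ (h + δ) (a - 2 * η) (t + η)) + DD μ (h + δ) (a - 2 * η) (t + η) := le_tsub_add
    _ ≤ (1 - DD μ (h + δ) (a - 2 * η) (t + η)) + (DD μ h a t + ENNReal.ofReal (2 * δ / η) * DD μ (h + η) a t) :=
        add_le_add_right key _
    _ = _ := by rw [← add_assoc, add_right_comm]

/-- stability -/
theorem VV_stab {h δ η a T : ℝ} (hh : 0 ≤ h) (hδ : 0 < δ) (hη : 0 < η) (ha : 2 * η ≤ a)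
    {M : ℝ≥0∞} (hM : ∀ k, 0 ≤ k → k ≤ h + δ + η → nu μ k (Ioc 0 (T + a)) ≤ M) :
    VV μ h a T ≤ VV μ (h + δ) a T + ENNReal.ofReal (2 * η + 2 * δ * a / η) * M := by
  have hd0 : 0 ≤ h + δ := by linarith
  have hsplit : ∀ t, DD μ (h + δ) a t = DD μ (h + δ) η t + DD μ (h + δ) (a - 2 * η) (t + η) +
      DD μ (h + δ) η (t + (a - η)) := by
    intro t
    have e1 := DD_split μ hd0 (a := η + (a - 2 * η)) (b := η) (by linarith) hη.le t
    have e2 := DD_split μ hd0 (a := η) (b := a - 2 * η) hη.le (by linarith) t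
    rw [e2, show η + (a - 2 * η) + η = a by ring, show t + (η + (a - 2 * η)) = t + (a - η) by ring] at e1
    exact e1
  have h1 : ∀ t, 1 - DD μ h a t ≤ (1 - DD μ (h + δ) a t) + DD μ (h + δ) η t + DD μ (h + δ) η (t + (a - η)) +
      ENNReal.ofReal (2 * δ / η) * DD μ (h + η) a t := by
    intro t
    refine (stab1 μ hh hδ hη t).trans (add_le_add_left ?_ _)
    rw [tsub_le_iff_right]
    calc (1 : ℝ≥0∞) ≤ (1 - DD μ (h + δ) a t) + DD μ (h + δ) a t := le_tsub_add
      _ = (1 - DD μ (h + δ) a t) + (DD μ (h + δ) η t + DD μ (h + δ) (a - 2 * η) (t + η) +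
      DD μ (h + δ) η (t + (a - η))) := congrArg (fun x => (1 - DD μ (h + δ) a t) + x) (hsplit t)
      _ = _ := by
        generalize DD μ (h + δ) η (t + (a - η)) = X3
        generalize DD μ (h + δ) (a - 2 * η) (t + η) = X2
        generalize DD μ (h + δ) η t = X1
        generalize 1 - DD μ (h + δ) a t = X0
        ring
  have m1 := DD_meas μ hd0 a
  have m2 := DD_meas μ hd0 η
  have m3 : Measurable (fun t => DD μ (h + δ) η (t + (a - η))) := m2.comp (measurable_id.add_const _)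
  have m4 := DD_meas μ (show 0 ≤ h + η by linarith) a
  unfold VV
  refine (lintegral_mono h1).trans ?_
  rw [lintegral_add_left, lintegral_add_left, lintegral_add_left, lintegral_const_mul _ m4]
  · have b1 : ∫⁻ t in Ioc 0 T, DD μ (h + δ) η t ≤ ENNReal.ofReal η * M := by
      refine (FM μ hd0).trans (mul_le_mul_right ?_ _)
      refine (measure_mono ?_).trans (hM (h + δ) hd0 (by linarith))
      exact Ioc_subset_Ioc_right (by linarith)
    have b2 : ∫⁻ t in Ioc 0 T, DD μ (h + δ) η (t + (a - η)) ≤ ENNReal.ofReal η * M := by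
      rw [shift_Ioc]
      have : ∫⁻ t in Ioc (a - η) (T + (a - η)), DD μ (h + δ) η t ≤ ∫⁻ t in Ioc 0 (T + (a - η)), DD μ (h + δ) η t :=
        lintegral_mono_set (Ioc_subset_Ioc_left (by linarith))
      refine this.trans ((FM μ hd0).trans (mul_le_mul_right ?_ _))
      refine (measure_mono ?_).trans (hM (h + δ) hd0 (by linarith))
      exact Ioc_subset_Ioc_right (by linarith)
    have b3 : ∫⁻ t in Ioc 0 T, DD μ (h + η) a t ≤ ENNReal.ofReal a * M := by
      refine (FM μ (by linarith)).trans (mul_le_mul_right ?_ _)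
      exact hM (h + η) (by linarith) (by linarith)
    have ha0 : 0 ≤ a := by linarith
    calc _ ≤ (∫⁻ t in Ioc 0 T, (1 - DD μ (h + δ) a t)) + ENNReal.ofReal η * M + ENNReal.ofReal η * M +
          ENNReal.ofReal (2 * δ / η) * (ENNReal.ofReal a * M) := by gcongr
      _ = _ := by
        rw [add_assoc, add_assoc]
        congr 1
        rw [← mul_assoc, ← ENNReal.ofReal_mul (by positivity), ← add_mul, ← add_mul,
          ← ENNReal.ofReal_add (by positivity) (by positivity), ← ENNReal.ofReal_add (by positivity) (by positivity)]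
        congr 2
        ring
  · exact measurable_const.sub m1
  · exact (measurable_const.sub m1).add m2
  · exact ((measurable_const.sub m1).add m2).add m3

/-- the integrated window mass -/
noncomputable def dd (h a ω t : ℝ) : ℝ≥0∞ := ∫⁻ u in Ioc t (t + ω), DD μ h a u

omit [SFinite μ] in
lemma min_aux {a b d ω : ℝ≥0∞} (hω : ω ≠ ⊤) (h : a + d = ω + b) : a ≤ min a b + (ω - d) := by
  rcases le_total a b with h1 | h1
  · rw [min_eq_left h1]; exact le_self_add
  · rw [min_eq_right h1]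
    rcases eq_or_ne d ⊤ with h2 | h2
    · have h3 : b = ⊤ := by
        rw [h2, add_top] at h
        rcases ENNReal.add_eq_top.1 h.symm with h4 | h4
        · exact absurd h4 hω
        · exact h4
      rw [h3, top_add]
      exact le_top
    · have h3 : a + d ≤ b + (ω - d) + d := by
        rw [h, add_assoc, add_comm ω b]
        exact add_le_add_right le_tsub_add _
      exact (ENNReal.add_le_add_iff_right h2).1 h3

lemma pe_low {δ R r : ℝ} (hδ : 0 < δ) (hr : |r| ≤ R) :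
    ENNReal.ofReal (δ / (Real.pi * (δ ^ 2 + R ^ 2))) ≤ pe δ r :=
  ENNReal.ofReal_le_ofReal (pk_low hδ hr)

/-- the smoothing dominates the integral over a window -/
lemma Sm_low {δ ω : ℝ} (hδ : 0 < δ) {g : ℝ → ℝ≥0∞} (hg : Measurable g) (t : ℝ) :
    ENNReal.ofReal (δ / (Real.pi * (δ ^ 2 + ω ^ 2))) * ∫⁻ u in Ioc t (t + ω), g u ≤ Sm δ g t := by
  have e : Sm δ g t = ∫⁻ u, pe δ (u - t) * g u := by
    unfold Sm
    rw [← lintegral_sub_left_eq_self (fun u => pe δ (u - t) * g u) t]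
    refine lintegral_congr fun r => ?_
    rw [show t - r - t = -r by ring, pe_neg]
  rw [e, ← lintegral_const_mul _ hg, ← lintegral_indicator measurableSet_Ioc]
  refine lintegral_mono fun u => ?_
  show (Ioc t (t + ω)).indicator (fun a => ENNReal.ofReal (δ / (Real.pi * (δ ^ 2 + ω ^ 2))) * g a) u ≤
    pe δ (u - t) * g u
  by_cases hu : u ∈ Ioc t (t + ω)
  · rw [indicator_of_mem hu]
    refine mul_le_mul_left (pe_low hδ ?_) _
    rw [abs_of_nonneg (by linarith [hu.1])]
    linarith [hu.2]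
  · rw [indicator_of_notMem hu]
    exact zero_le

/-- the average over windows -/
lemma win_avg {g : ℝ → ℝ≥0∞} (hg : Measurable g) (hg1 : ∀ t, g t ≤ 1) {ω T : ℝ} (hω : 0 ≤ ω) :
    ENNReal.ofReal ω * ∫⁻ t in Ioc 0 T, g t ≤ (∫⁻ t in Ioc 0 T, ∫⁻ u in Ioc t (t + ω), g u) +
      ENNReal.ofReal (ω ^ 2) := by
  have h1 : ∀ t, ∫⁻ u in Ioc t (t + ω), g u = ∫⁻ v in Ioc 0 ω, g (t + v) := by
    intro t
    have := shift_Ioc (g := g) (T := ω) (c := t)
    rw [add_comm ω t] at this
    rw [← this]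
    refine lintegral_congr fun v => ?_
    rw [add_comm]
  simp only [h1]
  rw [lintegral_lintegral_swap]
  · have h2 : ∀ v ∈ Ioc 0 ω, (∫⁻ t in Ioc 0 T, g t) ≤ (∫⁻ t in Ioc 0 T, g (t + v)) + ENNReal.ofReal ω := by
      intro v hv
      rw [shift_Ioc]
      have hsub : Ioc 0 T ⊆ Ioc v (T + v) ∪ Ioc 0 v := by
        intro x hx
        rcases le_or_gt x v with h3 | h3
        · exact Or.inr ⟨hx.1, h3⟩
        · exact Or.inl ⟨h3, by linarith [hx.2, hv.1]⟩
      refine (lintegral_mono_set hsub).trans ((lintegral_union_le _ _ _).trans (add_le_add le_rfl ?_))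
      calc ∫⁻ t in Ioc 0 v, g t ≤ ∫⁻ _t in Ioc 0 v, 1 := lintegral_mono hg1
        _ = ENNReal.ofReal v := by rw [setLIntegral_const, one_mul, Real.volume_Ioc, sub_zero]
        _ ≤ ENNReal.ofReal ω := ENNReal.ofReal_le_ofReal hv.2
    calc ENNReal.ofReal ω * ∫⁻ t in Ioc 0 T, g t = ∫⁻ _v in Ioc 0 ω, (∫⁻ t in Ioc 0 T, g t) := by
          rw [setLIntegral_const, Real.volume_Ioc, sub_zero, mul_comm]
      _ ≤ ∫⁻ v in Ioc 0 ω, ((∫⁻ t in Ioc 0 T, g (t + v)) + ENNReal.ofReal ω) :=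
          setLIntegral_mono' measurableSet_Ioc h2
      _ = _ := by
          rw [lintegral_add_right _ measurable_const, setLIntegral_const, Real.volume_Ioc, sub_zero,
            ← ENNReal.ofReal_mul hω, sq]
  · exact (hg.comp (measurable_fst.add measurable_snd)).aemeasurable

/-- strict decrease -/
theorem SD {h δ a ω T : ℝ} (hh : 0 ≤ h) (hδ : 0 < δ) (hω : 0 < ω) (hT : 0 < T)
    (hfin : ∀ t, 0 < t → DD μ (h + δ) a t ≠ ⊤) :
    VV μ (h + δ) a T + ENNReal.ofReal (δ / (Real.pi * (δ ^ 2 + ω ^ 2)) * ω) * VV μ h a T ≤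
      VV μ h a T + ENNReal.ofReal (Real.sqrt T * (1 + 2 * δ)) +
      ENNReal.ofReal (δ / (Real.pi * (δ ^ 2 + ω ^ 2))) * ((∫⁻ t in Ioc 0 T, (ENNReal.ofReal ω - dd μ h a ω t)) +
        ENNReal.ofReal (ω ^ 2)) := by
  obtain ⟨p, hp⟩ : ∃ p, p = δ / (Real.pi * (δ ^ 2 + ω ^ 2)) := ⟨_, rfl⟩
  have hp0 : 0 ≤ p := by rw [hp]; have := Real.pi_pos; positivity
  rw [← hp]
  have hm := DD_meas μ hh a
  have m1 : Measurable (fun t => 1 - DD μ h a t) := measurable_const.sub hm
  have m2 : Measurable (fun t => DD μ h a t - 1) := hm.sub measurable_const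
  have h1 : ∀ t ∈ Ioc 0 T, (1 - DD μ (h + δ) a t) + min (Sm δ (fun t => 1 - DD μ h a t) t)
      (Sm δ (fun t => DD μ h a t - 1) t) = Sm δ (fun t => 1 - DD μ h a t) t := by
    intro t ht
    have hf : Sm δ (DD μ h a) t ≠ ⊤ := by
      rw [← DD_add μ hh hδ]
      exact hfin t ht.1
    have := jens_eq hδ hm hf
    rw [← DD_add μ hh hδ] at this
    exact this.symm
  -- the window integrals
  obtain ⟨a', ha'⟩ : ∃ a' : ℝ → ℝ≥0∞, a' = fun t => ∫⁻ u in Ioc t (t + ω), (1 - DD μ h a u) := ⟨_, rfl⟩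
  obtain ⟨b', hb'⟩ : ∃ b' : ℝ → ℝ≥0∞, b' = fun t => ∫⁻ u in Ioc t (t + ω), (DD μ h a u - 1) := ⟨_, rfl⟩
  have hid : ∀ t, a' t + dd μ h a ω t = ENNReal.ofReal ω + b' t := by
    intro t
    rw [ha', hb']
    show (∫⁻ u in Ioc t (t + ω), (1 - DD μ h a u)) + (∫⁻ u in Ioc t (t + ω), DD μ h a u) =
      ENNReal.ofReal ω + ∫⁻ u in Ioc t (t + ω), (DD μ h a u - 1)
    have e1 : ENNReal.ofReal ω = ∫⁻ _u in Ioc t (t + ω), (1 : ℝ≥0∞) := by
      rw [setLIntegral_const, one_mul, Real.volume_Ioc]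
      congr 1
      ring
    rw [e1, ← lintegral_add_left m1, ← lintegral_add_left measurable_const]
    refine lintegral_congr fun u => ?_
    rcases le_total (DD μ h a u) 1 with h2 | h2
    · rw [tsub_add_cancel_of_le h2, tsub_eq_zero_of_le h2, add_zero]
    · rw [add_tsub_cancel_of_le h2, tsub_eq_zero_of_le h2, zero_add]
  have h2 : ∀ t, ENNReal.ofReal p * a' t ≤ min (Sm δ (fun t => 1 - DD μ h a t) t)
      (Sm δ (fun t => DD μ h a t - 1) t) + ENNReal.ofReal p * (ENNReal.ofReal ω - dd μ h a ω t) := by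
    intro t
    have h3 := min_aux ENNReal.ofReal_ne_top (hid t)
    have h4 : ENNReal.ofReal p * min (a' t) (b' t) ≤ min (Sm δ (fun t => 1 - DD μ h a t) t)
        (Sm δ (fun t => DD μ h a t - 1) t) := by
      apply le_min
      · refine (mul_le_mul_right (min_le_left _ _) _).trans ?_
        rw [ha', hp]
        exact Sm_low hδ m1 t
      · refine (mul_le_mul_right (min_le_right _ _) _).trans ?_
        rw [hb', hp]
        exact Sm_low hδ m2 t
    refine (mul_le_mul_right h3 _).trans ?_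
    rw [mul_add]
    exact add_le_add_left h4 _
  have h3 : ENNReal.ofReal ω * VV μ h a T ≤ (∫⁻ t in Ioc 0 T, a' t) + ENNReal.ofReal (ω ^ 2) := by
    rw [ha']
    exact win_avg m1 (fun t => tsub_le_self) hω.le
  have mS1 : Measurable (Sm δ (fun t => 1 - DD μ h a t)) := Sm_meas m1
  have mS2 : Measurable (Sm δ (fun t => DD μ h a t - 1)) := Sm_meas m2
  have mmin : Measurable (fun t => min (Sm δ (fun t => 1 - DD μ h a t) t) (Sm δ (fun t => DD μ h a t - 1) t)) :=
    mS1.min mS2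
  have mD2 : Measurable (fun t => 1 - DD μ (h + δ) a t) := measurable_const.sub (DD_meas μ (by linarith) a)
  have h4 : ENNReal.ofReal p * (∫⁻ t in Ioc 0 T, a' t) ≤
      (∫⁻ t in Ioc 0 T, min (Sm δ (fun t => 1 - DD μ h a t) t) (Sm δ (fun t => DD μ h a t - 1) t)) +
      ENNReal.ofReal p * (∫⁻ t in Ioc 0 T, (ENNReal.ofReal ω - dd μ h a ω t)) := by
    rw [← lintegral_const_mul' _ _ ENNReal.ofReal_ne_top, ← lintegral_const_mul' _ _ ENNReal.ofReal_ne_top,
      ← lintegral_add_left mmin]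
    exact lintegral_mono h2
  have h5 := bdry (g := fun t => 1 - DD μ h a t) m1 (B := 1) (fun t => tsub_le_self) hδ hT
  rw [one_mul] at h5
  have h6 : VV μ (h + δ) a T + (∫⁻ t in Ioc 0 T, min (Sm δ (fun t => 1 - DD μ h a t) t)
      (Sm δ (fun t => DD μ h a t - 1) t)) ≤ VV μ h a T + ENNReal.ofReal (Real.sqrt T * (1 + 2 * δ)) := by
    refine le_trans (le_of_eq ?_) h5
    unfold VV
    rw [← lintegral_add_left mD2]
    exact setLIntegral_congr_fun measurableSet_Ioc h1
  calc VV μ (h + δ) a T + ENNReal.ofReal (p * ω) * VV μ h a T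
      = VV μ (h + δ) a T + ENNReal.ofReal p * (ENNReal.ofReal ω * VV μ h a T) := by
        rw [ENNReal.ofReal_mul hp0, mul_assoc]
    _ ≤ VV μ (h + δ) a T + ENNReal.ofReal p * ((∫⁻ t in Ioc 0 T, a' t) + ENNReal.ofReal (ω ^ 2)) :=
        add_le_add_right (mul_le_mul_right h3 _) _
    _ = VV μ (h + δ) a T + (ENNReal.ofReal p * (∫⁻ t in Ioc 0 T, a' t)) +
        ENNReal.ofReal p * ENNReal.ofReal (ω ^ 2) := by rw [mul_add, add_assoc]
    _ ≤ VV μ (h + δ) a T + ((∫⁻ t in Ioc 0 T, min (Sm δ (fun t => 1 - DD μ h a t) t)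
        (Sm δ (fun t => DD μ h a t - 1) t)) +
      ENNReal.ofReal p * (∫⁻ t in Ioc 0 T, (ENNReal.ofReal ω - dd μ h a ω t))) +
        ENNReal.ofReal p * ENNReal.ofReal (ω ^ 2) := add_le_add_left (add_le_add_right h4 _) _
    _ = (VV μ (h + δ) a T + (∫⁻ t in Ioc 0 T, min (Sm δ (fun t => 1 - DD μ h a t) t)
        (Sm δ (fun t => DD μ h a t - 1) t))) +
        ENNReal.ofReal p * ((∫⁻ t in Ioc 0 T, (ENNReal.ofReal ω - dd μ h a ω t)) + ENNReal.ofReal (ω ^ 2)) := by
        rw [mul_add, ← add_assoc, ← add_assoc]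
    _ ≤ _ := add_le_add_left h6 _

lemma win_shift {g : ℝ → ℝ≥0∞} {ω : ℝ} (t : ℝ) : ∫⁻ u in Ioc t (t + ω), g u = ∫⁻ v in Ioc 0 ω, g (t + v) := by
  have := shift_Ioc (g := g) (T := ω) (c := t)
  rw [add_comm ω t] at this
  rw [← this]
  refine lintegral_congr fun v => ?_
  rw [add_comm]

lemma dd_meas {h : ℝ} (hh : 0 ≤ h) (a ω : ℝ) : Measurable (dd μ h a ω) := by
  have e : dd μ h a ω = fun t => ∫⁻ v in Ioc 0 ω, DD μ h a (t + v) := by
    funext t
    exact win_shift t
  rw [e]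
  have hm : Measurable (fun p : ℝ × ℝ => DD μ h a (p.1 + p.2)) :=
    (DD_meas μ hh a).comp (measurable_fst.add measurable_snd)
  exact hm.lintegral_prod_right'

lemma dd_Sm {h : ℝ} (hh : 0 < h) (a ω t : ℝ) : dd μ h a ω t = Sm h (dd μ 0 a ω) t := by
  unfold dd
  rw [DD_pos μ hh, DD_zero]
  unfold Sm
  rw [lintegral_lintegral_swap]
  · refine lintegral_congr fun r => ?_
    have hm : Measurable (fun u : ℝ => W0 μ a (u - r)) := (W0_meas μ a).comp (measurable_id.sub_const r)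
    rw [lintegral_const_mul _ hm]
    congr 1
    rw [win_shift]
    show ∫⁻ v in Ioc 0 ω, W0 μ a (t + v - r) = ∫⁻ u in Ioc (t - r) (t - r + ω), W0 μ a u
    rw [win_shift]
    refine lintegral_congr fun v => ?_
    rw [show t + v - r = t - r + v by ring]
  · apply Measurable.aemeasurable
    exact ((pe_meas h).comp measurable_snd).mul ((W0_meas μ a).comp (measurable_fst.sub measurable_snd))

theorem LTh {h a ω T c : ℝ} (hh : 0 ≤ h) (hT : 0 < T) (hc : 0 ≤ c) :
    ∫⁻ t in Ioc 0 T, (ENNReal.ofReal c - dd μ h a ω t) ≤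
      (∫⁻ t in Ioc 0 T, (ENNReal.ofReal c - dd μ 0 a ω t)) + ENNReal.ofReal (c * (Real.sqrt T * (1 + 2 * h))) := by
  rcases hh.eq_or_lt with rfl | h1
  · exact le_self_add
  have hm := dd_meas μ le_rfl a ω
  have h2 : ∀ t, ENNReal.ofReal c - dd μ h a ω t ≤ Sm h (fun t => ENNReal.ofReal c - dd μ 0 a ω t) t := by
    intro t
    rw [dd_Sm μ h1]
    exact jens h1 hm _ t
  have h3 := bdry (g := fun t => ENNReal.ofReal c - dd μ 0 a ω t) (measurable_const.sub hm)
    (B := ENNReal.ofReal c) (fun t => tsub_le_self) h1 hT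
  rw [← ENNReal.ofReal_mul hc] at h3
  exact (lintegral_mono h2).trans h3

lemma dd_zero_eq {a ω t : ℝ} : dd μ 0 a ω t = ∫⁻ v in Ioc 0 a, μ (Ioc (t + v) (t + v + ω)) := by
  -- the set of pairs (v, γ)
  have hS : MeasurableSet {p : ℝ × ℝ | t + p.1 < p.2 ∧ p.2 ≤ t + p.1 + ω} :=
    (measurableSet_lt (measurable_const.add measurable_fst) measurable_snd).inter
      (measurableSet_le measurable_snd ((measurable_const.add measurable_fst).add_const ω))
  have hS' : MeasurableSet {p : ℝ × ℝ | p.1 < p.2 ∧ p.2 ≤ p.1 + a} :=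
    (measurableSet_lt measurable_fst measurable_snd).inter
      (measurableSet_le measurable_snd (measurable_fst.add_const a))
  have e1 : dd μ 0 a ω t = ((volume.restrict (Ioc t (t + ω))).prod μ) {p : ℝ × ℝ | p.1 < p.2 ∧ p.2 ≤ p.1 + a} := by
    rw [Measure.prod_apply hS']
    unfold dd
    rw [DD_zero]
    rfl
  have e2 : ∫⁻ v in Ioc 0 a, μ (Ioc (t + v) (t + v + ω)) =
      ((volume.restrict (Ioc 0 a)).prod μ) {p : ℝ × ℝ | t + p.1 < p.2 ∧ p.2 ≤ t + p.1 + ω} := by
    rw [Measure.prod_apply hS]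
    rfl
  rw [e1, e2, Measure.prod_apply_symm hS', Measure.prod_apply_symm hS]
  refine lintegral_congr fun γ => ?_
  rw [Measure.restrict_apply (measurable_prodMk_right hS'), Measure.restrict_apply (measurable_prodMk_right hS)]
  -- reflection u = γ - v
  have e3 : (fun x => (x, γ)) ⁻¹' {p : ℝ × ℝ | p.1 < p.2 ∧ p.2 ≤ p.1 + a} ∩ Ioc t (t + ω) =
      Ico (γ - a) γ ∩ Ioc t (t + ω) := by
    ext x
    simp only [mem_inter_iff, mem_preimage, mem_ofPred_eq, mem_Ico]
    constructor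
    · rintro ⟨⟨h1, h2⟩, h3⟩
      exact ⟨⟨by linarith, h1⟩, h3⟩
    · rintro ⟨⟨h1, h2⟩, h3⟩
      exact ⟨⟨h2, by linarith⟩, h3⟩
  have e4 : (fun x => (x, γ)) ⁻¹' {p : ℝ × ℝ | t + p.1 < p.2 ∧ p.2 ≤ t + p.1 + ω} ∩ Ioc 0 a =
      (fun x => γ - x) ⁻¹' (Ico (γ - a) γ ∩ Ioc t (t + ω)) := by
    ext x
    simp only [mem_inter_iff, mem_preimage, mem_ofPred_eq, mem_Ico, mem_Ioc]
    constructor
    · rintro ⟨⟨h1, h2⟩, h3, h4⟩
      exact ⟨⟨by linarith, by linarith⟩, by linarith, by linarith⟩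
    · rintro ⟨⟨h1, h2⟩, h3, h4⟩
      exact ⟨⟨by linarith, by linarith⟩, by linarith, by linarith⟩
  rw [e3, e4, (Measure.measurePreserving_sub_left volume γ).measure_preimage
    (measurableSet_Ico.inter measurableSet_Ioc).nullMeasurableSet]

theorem LT0 {a ω T R c : ℝ} (hc : c = R * a) (hR : 0 ≤ R) :
    ∫⁻ t in Ioc 0 T, (ENNReal.ofReal c - dd μ 0 a ω t) ≤
      ENNReal.ofReal a * ((∫⁻ t in Ioc 0 T, (ENNReal.ofReal R - μ (Ioc t (t + ω)))) + ENNReal.ofReal c) := by
  have hW := W0_meas μ ω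
  have hWm : Measurable (fun t => ENNReal.ofReal R - μ (Ioc t (t + ω))) := measurable_const.sub hW
  have h1 : ∀ t, ENNReal.ofReal c - dd μ 0 a ω t ≤
      ∫⁻ v in Ioc 0 a, (ENNReal.ofReal R - μ (Ioc (t + v) (t + v + ω))) := by
    intro t
    have hm : Measurable (fun v => μ (Ioc (t + v) (t + v + ω))) := hW.comp (measurable_const_add t)
    rw [tsub_le_iff_right, dd_zero_eq, ← lintegral_add_right _ hm]
    calc ENNReal.ofReal c = ∫⁻ _v in Ioc 0 a, ENNReal.ofReal R := by
          rw [setLIntegral_const, Real.volume_Ioc, sub_zero, hc, ENNReal.ofReal_mul hR]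
      _ ≤ _ := lintegral_mono fun v => le_tsub_add
  refine (lintegral_mono h1).trans ?_
  rw [lintegral_lintegral_swap]
  · have h2 : ∀ v ∈ Ioc 0 a, ∫⁻ t in Ioc 0 T, (ENNReal.ofReal R - μ (Ioc (t + v) (t + v + ω))) ≤
        (∫⁻ t in Ioc 0 T, (ENNReal.ofReal R - μ (Ioc t (t + ω)))) + ENNReal.ofReal c := by
      intro v hv
      rw [shift_Ioc (g := fun t => ENNReal.ofReal R - μ (Ioc t (t + ω)))]
      have hsub : Ioc v (T + v) ⊆ Ioc 0 T ∪ Ioc T (T + v) := by
        intro x hx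
        rcases le_or_gt x T with h3 | h3
        · exact Or.inl ⟨by linarith [hx.1, hv.1], h3⟩
        · exact Or.inr ⟨h3, hx.2⟩
      refine (lintegral_mono_set hsub).trans ((lintegral_union_le _ _ _).trans (add_le_add le_rfl ?_))
      calc ∫⁻ t in Ioc T (T + v), (ENNReal.ofReal R - μ (Ioc t (t + ω))) ≤ ∫⁻ _t in Ioc T (T + v), ENNReal.ofReal R :=
            lintegral_mono fun _ => tsub_le_self
        _ = ENNReal.ofReal R * ENNReal.ofReal v := by
            rw [setLIntegral_const, Real.volume_Ioc, add_sub_cancel_left]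
        _ ≤ ENNReal.ofReal c := by
            rw [← ENNReal.ofReal_mul hR]
            apply ENNReal.ofReal_le_ofReal
            rw [hc]
            exact mul_le_mul_of_nonneg_left hv.2 hR
    refine (setLIntegral_mono' measurableSet_Ioc h2).trans (le_of_eq ?_)
    rw [setLIntegral_const, Real.volume_Ioc, sub_zero, mul_comm]
  · exact (hWm.comp (measurable_fst.add measurable_snd)).aemeasurable

/-- the kernel varies slowly -/
lemma pk_shift {h v ω r : ℝ} (hh : 0 < h) (hv : 0 ≤ v) (hvω : v ≤ ω) :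
    pk h (r + v) ≤ (1 + ω / h + (ω / h) ^ 2) * pk h r := by
  unfold pk
  have hpi := Real.pi_pos
  obtain ⟨u, hu⟩ : ∃ u, u = r + v := ⟨_, rfl⟩
  have hr : r = u - v := by rw [hu]; ring
  rw [← hu, hr]
  have hω : 0 ≤ ω := hv.trans hvω
  have h1 : h ^ 2 + (u - v) ^ 2 ≤ (1 + ω / h + (ω / h) ^ 2) * (h ^ 2 + u ^ 2) := by
    have h2 : 2 * (|u| * v) ≤ (ω / h) * (h ^ 2 + u ^ 2) := by
      rw [div_mul_eq_mul_div, le_div_iff₀ hh]
      have h3 : 2 * (|u| * h) ≤ h ^ 2 + u ^ 2 := by nlinarith [sq_nonneg (|u| - h), sq_abs u]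
      have h4 : 0 ≤ |u| * h := by positivity
      nlinarith [mul_le_mul_of_nonneg_left hvω h4]
    have h5 : v ^ 2 ≤ (ω / h) ^ 2 * (h ^ 2 + u ^ 2) := by
      have h6 : v ^ 2 ≤ ω ^ 2 := pow_le_pow_left₀ hv hvω 2
      have h7 : ω ^ 2 = (ω / h) ^ 2 * h ^ 2 := by rw [div_pow]; field_simp
      nlinarith [mul_nonneg (sq_nonneg (ω / h)) (sq_nonneg u)]
    have h8 : -(u * v) ≤ |u| * v := by
      have := mul_le_mul_of_nonneg_right (neg_abs_le u) hv
      linarith
    nlinarith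
  rw [← mul_div_assoc, div_le_div_iff₀ (by positivity) (by positivity)]
  nlinarith [mul_le_mul_of_nonneg_left h1 (mul_pos hpi hh).le]

lemma Sm_shift {h v ω : ℝ} (hh : 0 < h) (hv : 0 ≤ v) (hvω : v ≤ ω) {g : ℝ → ℝ≥0∞} (hg : Measurable g) (t : ℝ) :
    Sm h g (t + v) ≤ ENNReal.ofReal (1 + ω / h + (ω / h) ^ 2) * Sm h g t := by
  have hω : 0 ≤ ω := hv.trans hvω
  have e : Sm h g (t + v) = ∫⁻ r, pe h (r + v) * g (t - r) := by
    unfold Sm
    rw [← lintegral_add_right_eq_self (fun r => pe h r * g (t + v - r)) v]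
    refine lintegral_congr fun r => ?_
    rw [show t + v - (r + v) = t - r by ring]
  rw [e]
  unfold Sm
  have hm : Measurable (fun r : ℝ => pe h r * g (t - r)) := (pe_meas h).mul (hg.comp (measurable_const.sub measurable_id))
  rw [← lintegral_const_mul _ hm]
  refine lintegral_mono fun r => ?_
  show pe h (r + v) * g (t - r) ≤ ENNReal.ofReal (1 + ω / h + (ω / h) ^ 2) * (pe h r * g (t - r))
  rw [← mul_assoc]
  refine mul_le_mul_left ?_ _
  unfold pe
  rw [← ENNReal.ofReal_mul (by positivity)]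
  exact ENNReal.ofReal_le_ofReal (pk_shift hh hv hvω)

lemma dd_le {h a ω t : ℝ} (hh : 0 < h) (hω : 0 ≤ ω) :
    dd μ h a ω t ≤ ENNReal.ofReal (ω * (1 + ω / h + (ω / h) ^ 2)) * DD μ h a t := by
  unfold dd
  rw [win_shift]
  calc ∫⁻ v in Ioc 0 ω, DD μ h a (t + v) ≤ ∫⁻ _v in Ioc 0 ω, ENNReal.ofReal (1 + ω / h + (ω / h) ^ 2) * DD μ h a t := by
        refine setLIntegral_mono' measurableSet_Ioc fun v hv => ?_
        rw [DD_pos μ hh]
        exact Sm_shift hh hv.1.le hv.2 (W0_meas μ a) t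
    _ = _ := by
        rw [setLIntegral_const, Real.volume_Ioc, sub_zero, mul_comm, ← mul_assoc, ← ENNReal.ofReal_mul hω]

/-- the upper bound for the void function far from the line -/
theorem VV_far {h a ω T s Θ : ℝ} (hh : 0 < h) (hω : 0 < ω) (hs : 0 ≤ s) (hΘ : Θ = 1 + ω / h + (ω / h) ^ 2) :
    VV μ h a T ≤ ENNReal.ofReal (max (1 - s) 0 * T + s * (1 - 1 / Θ) * T) +
      ENNReal.ofReal (1 / ω) * ∫⁻ t in Ioc 0 T, (ENNReal.ofReal (s * ω) - dd μ h a ω t) := by
  have hq : 0 < ω / h := by positivity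
  have hΘ1 : 1 < Θ := by rw [hΘ]; nlinarith
  have hΘ0 : 0 < Θ := by linarith
  have hΘi : 1 / Θ ≤ 1 := by rw [div_le_one hΘ0]; linarith
  have hΘi0 : 0 < 1 / Θ := by positivity
  have hpt : ∀ t, 1 - DD μ h a t ≤ ENNReal.ofReal (max (1 - s) 0 + s * (1 - 1 / Θ)) +
      ENNReal.ofReal (1 / ω) * (ENNReal.ofReal (s * ω) - dd μ h a ω t) := by
    intro t
    have h1 : dd μ h a ω t ≤ ENNReal.ofReal (ω * Θ) * DD μ h a t := by rw [hΘ]; exact dd_le μ hh hω.le
    have h2 : ENNReal.ofReal (s * ω) ≤ (ENNReal.ofReal (s * ω) - dd μ h a ω t) + ENNReal.ofReal (ω * Θ) * DD μ h a t :=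
      le_tsub_add.trans (add_le_add_right h1 _)
    have h3 : ENNReal.ofReal (s / Θ) ≤ ENNReal.ofReal (1 / ω) * (ENNReal.ofReal (s * ω) - dd μ h a ω t) + DD μ h a t := by
      have h4 := mul_le_mul_right h2 (ENNReal.ofReal (1 / (ω * Θ)))
      rw [mul_add, ← mul_assoc, ← ENNReal.ofReal_mul (by positivity), ← ENNReal.ofReal_mul (by positivity)] at h4
      have e1 : 1 / (ω * Θ) * (s * ω) = s / Θ := by field_simp
      have e2 : 1 / (ω * Θ) * (ω * Θ) = 1 := by field_simp
      rw [e1, e2, ENNReal.ofReal_one, one_mul] at h4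
      refine h4.trans (add_le_add_left (mul_le_mul_left ?_ _) _)
      apply ENNReal.ofReal_le_ofReal
      apply one_div_le_one_div_of_le hω
      nlinarith
    rw [tsub_le_iff_right]
    have h5 : (1 : ℝ≥0∞) ≤ ENNReal.ofReal (max (1 - s) 0 + s * (1 - 1 / Θ)) + ENNReal.ofReal (s / Θ) := by
      rw [← ENNReal.ofReal_add (by
        have := le_max_right (1 - s) 0
        have : 0 ≤ s * (1 - 1 / Θ) := mul_nonneg hs (by linarith)
        linarith) (by positivity), ← ENNReal.ofReal_one]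
      apply ENNReal.ofReal_le_ofReal
      have := le_max_left (1 - s) 0
      have e3 : s * (1 - 1 / Θ) + s / Θ = s := by ring
      linarith
    calc (1 : ℝ≥0∞) ≤ _ := h5
      _ ≤ ENNReal.ofReal (max (1 - s) 0 + s * (1 - 1 / Θ)) +
          (ENNReal.ofReal (1 / ω) * (ENNReal.ofReal (s * ω) - dd μ h a ω t) + DD μ h a t) := add_le_add_right h3 _
      _ = _ := by rw [add_assoc]
  unfold VV
  refine (lintegral_mono hpt).trans (le_of_eq ?_)
  rw [lintegral_add_left measurable_const, setLIntegral_const, Real.volume_Ioc, sub_zero,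
    lintegral_const_mul' _ _ ENNReal.ofReal_ne_top, ← ENNReal.ofReal_mul (by
      have := le_max_right (1 - s) 0
      have : 0 ≤ s * (1 - 1 / Θ) := mul_nonneg hs (by linarith)
      linarith)]
  congr 2
  ring

/-- the lower bound for the void function -/
theorem VV_low {h a T : ℝ} (hh : 0 ≤ h) :
    ENNReal.ofReal T ≤ VV μ h a T + ENNReal.ofReal a * nu μ h (Ioc 0 (T + a)) := by
  refine le_trans ?_ (add_le_add_right (FM μ hh) _)
  unfold VV
  rw [← lintegral_add_right _ (DD_meas μ hh a)]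
  calc ENNReal.ofReal T = ∫⁻ _t in Ioc 0 T, 1 := by rw [setLIntegral_const, one_mul, Real.volume_Ioc, sub_zero]
    _ ≤ _ := lintegral_mono fun t => le_tsub_add

/-- the mass of the smoothed measure -/
theorem nu_le {h X : ℝ} (hh : 0 ≤ h) (h2 : h ≤ 2) :
    nu μ h (Ioc 0 X) ≤ μ (Ioc (-1) (X + 1)) + 5 * nu μ 2 (Ioc 0 X) := by
  rcases hh.eq_or_lt with rfl | h1
  · refine le_trans ?_ le_self_add
    unfold nu
    rw [if_pos rfl]
    exact measure_mono (Ioc_subset_Ioc (by norm_num) (by linarith))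
  · have e : ∀ k : ℝ, 0 < k → nu μ k (Ioc 0 X) = ∫⁻ γ, (∫⁻ y in Ioc 0 X, pe k (y - γ)) ∂μ := by
      intro k hk
      unfold nu
      rw [if_neg hk.ne', withDensity_apply _ measurableSet_Ioc]
      unfold ww
      rw [lintegral_lintegral_swap]
      exact ((pe_meas k).comp (measurable_fst.sub measurable_snd)).aemeasurable
    rw [e h h1, e 2 (by norm_num)]
    have hm2 : Measurable (fun γ => ∫⁻ y in Ioc 0 X, pe 2 (y - γ)) := by
      have : Measurable (fun p : ℝ × ℝ => pe 2 (p.2 - p.1)) := (pe_meas 2).comp (measurable_snd.sub measurable_fst)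
      exact this.lintegral_prod_right'
    have h3 : ∀ γ, ∫⁻ y in Ioc 0 X, pe h (y - γ) ≤ (Ioc (-1) (X + 1)).indicator 1 γ +
        5 * ∫⁻ y in Ioc 0 X, pe 2 (y - γ) := by
      intro γ
      by_cases hγ : γ ∈ Ioc (-1) (X + 1)
      · refine le_trans ?_ le_self_add
        rw [indicator_of_mem hγ]
        calc ∫⁻ y in Ioc 0 X, pe h (y - γ) ≤ ∫⁻ y, pe h (y - γ) := setLIntegral_le_lintegral _ _
          _ = ∫⁻ y, pe h y := lintegral_sub_right_eq_self (fun y => pe h y) γ
          _ = 1 := lint_pe h1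
      · refine le_trans ?_ le_add_self
        have hm3 : Measurable (fun y : ℝ => pe 2 (y - γ)) := (pe_meas 2).comp (measurable_id.sub_const γ)
        rw [← lintegral_const_mul _ hm3]
        refine setLIntegral_mono' measurableSet_Ioc fun y hy => ?_
        have hr : 1 ≤ |y - γ| := by
          by_contra hcon
          rw [not_le, abs_lt] at hcon
          exact hγ ⟨by linarith [hy.1, hcon.2], by linarith [hy.2, hcon.1]⟩
        show pe h (y - γ) ≤ 5 * pe 2 (y - γ)
        unfold pe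
        rw [show (5 : ℝ≥0∞) = ENNReal.ofReal 5 by norm_num, ← ENNReal.ofReal_mul (by norm_num)]
        exact ENNReal.ofReal_le_ofReal (pk_two hh h2 hr)
    refine (lintegral_mono h3).trans (le_of_eq ?_)
    rw [lintegral_add_left (measurable_one.indicator measurableSet_Ioc), lintegral_indicator_one measurableSet_Ioc,
      lintegral_const_mul _ hm2]

end Pool.Agent.P8H69.OL
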