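import Pool.Agent.P8H8.HF.Law

set_option autoImplicit false

/-!
# From the mean excess to the law
-/

namespace Pool.Agent.P8H69.OL

open Filter Topology
open Pool.Agent.P8H8.HF

/-- the number of values above `x` -/
noncomputable def hi (g : ℕ → ℝ) (N : ℕ) (x : ℝ) : ℕ := ((Finset.range N).filter (fun k => x < g k)).card

lemma hi_cnt (g : ℕ → ℝ) (N : ℕ) {a b : ℝ} (hab : a ≤ b) : hi g N a = cnt g N a b + hi g N b := by
  classical
  unfold hi cnt
  rw [← Finset.card_union_of_disjoint]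
  · congr 1
    ext k
    simp only [Finset.mem_filter, Finset.mem_range, Finset.mem_union]
    constructor
    · rintro ⟨h1, h2⟩
      rcases le_or_gt (g k) b with h3 | h3
      · exact Or.inl ⟨h1, h2, h3⟩
      · exact Or.inr ⟨h1, h3⟩
    · rintro (⟨h1, h2, -⟩ | ⟨h1, h2⟩)
      · exact ⟨h1, h2⟩
      · exact ⟨h1, by linarith⟩
  · rw [Finset.disjoint_left]
    intro k hk hk2
    rw [Finset.mem_filter] at hk hk2
    linarith [hk.2.2, hk2.2]

lemma hi_up (g : ℕ → ℝ) (N : ℕ) {x δ : ℝ} (hδ : 0 < δ) :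
    δ * (hi g N x : ℝ) ≤ ∑ k ∈ Finset.range N, max (g k - (x - δ)) 0 - ∑ k ∈ Finset.range N, max (g k - x) 0 := by
  classical
  unfold hi
  rw [← Finset.sum_sub_distrib, Finset.card_filter]
  push_cast
  rw [Finset.mul_sum]
  refine Finset.sum_le_sum fun k _ => ?_
  split_ifs with h
  · rw [max_eq_left (by linarith), max_eq_left (by linarith)]
    linarith
  · have : max (g k - x) 0 ≤ max (g k - (x - δ)) 0 := max_le_max (by linarith) le_rfl
    linarith

lemma hi_low (g : ℕ → ℝ) (N : ℕ) {x δ : ℝ} (hδ : 0 < δ) :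
    ∑ k ∈ Finset.range N, max (g k - x) 0 - ∑ k ∈ Finset.range N, max (g k - (x + δ)) 0 ≤ δ * (hi g N x : ℝ) := by
  classical
  unfold hi
  rw [← Finset.sum_sub_distrib, Finset.card_filter]
  push_cast
  rw [Finset.mul_sum]
  refine Finset.sum_le_sum fun k _ => ?_
  split_ifs with h
  · rw [max_eq_left (by linarith : 0 ≤ g k - x)]
    have : g k - (x + δ) ≤ max (g k - (x + δ)) 0 := le_max_left _ _
    linarith
  · rw [max_eq_right (by linarith), max_eq_right (by linarith)]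
    linarith

lemma hi_anti (g : ℕ → ℝ) (N : ℕ) {x y : ℝ} (h : x ≤ y) : hi g N y ≤ hi g N x := by
  unfold hi
  apply Finset.card_le_card
  intro k hk
  rw [Finset.mem_filter] at hk ⊢
  exact ⟨hk.1, by linarith [hk.2]⟩

lemma hi_le (g : ℕ → ℝ) (N : ℕ) (x : ℝ) : hi g N x ≤ N := by
  unfold hi
  exact (Finset.card_filter_le _ _).trans (le_of_eq (Finset.card_range N))

variable {D0 D1 : ℝ → ℝ}

/-- a differentiable function with a continuous derivative -/
structure GW (D0 D1 : ℝ → ℝ) : Prop where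
  d0 : ∀ s, HasDerivAt D0 (D1 s) s
  c1 : Continuous D1
  z1 : D1 0 = -1

lemma GW.step (h : GW D0 D1) {a b : ℝ} (hab : a < b) : ∃ c, a < c ∧ c < b ∧ D0 b - D0 a = D1 c * (b - a) := by
  obtain ⟨c, hc, e⟩ := exists_hasDerivAt_eq_slope D0 D1 hab
    (fun x _ => (h.d0 x).continuousAt.continuousWithinAt) (fun x _ => h.d0 x)
  refine ⟨c, hc.1, hc.2, ?_⟩
  rw [e]
  field_simp [show b - a ≠ 0 by intro h; linarith]

lemma hi_lim (hD : GW D0 D1) {K : ℝ → ℕ} {g : ℝ → ℕ → ℝ} {M : ℝ → ℝ} (hM : ∀ᶠ T in atTop, 0 < M T)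
    (hE : ∀ s, 0 < s → Tendsto (fun T => (∑ k ∈ Finset.range (K T), max (g T k - s) 0) / M T) atTop (𝓝 (D0 s)))
    {x : ℝ} (hx : 0 < x) : Tendsto (fun T => (hi (g T) (K T) x : ℝ) / M T) atTop (𝓝 (-D1 x)) := by
  rw [Metric.tendsto_nhds]
  intro ε hε
  obtain ⟨δ0, hδ0, hc⟩ := Metric.continuous_iff.1 hD.c1 x (ε / 2) (by positivity)
  obtain ⟨δ, hδ, hδ1, hδ2⟩ : ∃ δ, 0 < δ ∧ δ < δ0 ∧ δ < x := ⟨min δ0 x / 2, by positivity, by
    have := min_le_left δ0 x
    linarith, by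
    have := min_le_right δ0 x
    linarith⟩
  obtain ⟨c1, a1, a2, a3⟩ := hD.step (show x - δ < x by linarith)
  obtain ⟨c2, b1, b2, b3⟩ := hD.step (show x < x + δ by linarith)
  have e1 := hc c1 (by rw [Real.dist_eq, abs_lt]; constructor <;> linarith)
  have e2 := hc c2 (by rw [Real.dist_eq, abs_lt]; constructor <;> linarith)
  rw [Real.dist_eq, abs_lt] at e1 e2
  have l0 := Metric.tendsto_nhds.1 (hE x hx) (δ * ε / 8) (by positivity)
  have l1 := Metric.tendsto_nhds.1 (hE (x - δ) (by linarith)) (δ * ε / 8) (by positivity)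
  have l2 := Metric.tendsto_nhds.1 (hE (x + δ) (by linarith)) (δ * ε / 8) (by positivity)
  filter_upwards [hM, l0, l1, l2] with T h1 h2 h3 h4
  rw [Real.dist_eq, abs_lt] at h2 h3 h4 ⊢
  have u1 := hi_up (g T) (K T) (x := x) hδ
  have u2 := hi_low (g T) (K T) (x := x) hδ
  have v1 := div_le_div_of_nonneg_right u1 h1.le
  have v2 := div_le_div_of_nonneg_right u2 h1.le
  rw [sub_div, mul_div_assoc] at v1 v2
  have w1 : δ * ((hi (g T) (K T) x : ℝ) / M T) ≤ δ * (-D1 c1) + δ * ε / 4 := by nlinarith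
  have w2 : δ * (-D1 c2) - δ * ε / 4 ≤ δ * ((hi (g T) (K T) x : ℝ) / M T) := by nlinarith
  have w1' : (hi (g T) (K T) x : ℝ) / M T ≤ -D1 c1 + ε / 4 := by
    have : δ * ((hi (g T) (K T) x : ℝ) / M T) ≤ δ * (-D1 c1 + ε / 4) := by linarith
    exact le_of_mul_le_mul_left this hδ
  have w2' : -D1 c2 - ε / 4 ≤ (hi (g T) (K T) x : ℝ) / M T := by
    have : δ * (-D1 c2 - ε / 4) ≤ δ * ((hi (g T) (K T) x : ℝ) / M T) := by linarith
    exact le_of_mul_le_mul_left this hδ
  constructor <;> linarith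

/-- the limit of the mean excess is convex -/
theorem mono_law (hD : GW D0 D1) {K : ℝ → ℕ} {g : ℝ → ℕ → ℝ} {M : ℝ → ℝ} (hM : ∀ᶠ T in atTop, 0 < M T)
    (hE : ∀ s, 0 < s → Tendsto (fun T => (∑ k ∈ Finset.range (K T), max (g T k - s) 0) / M T) atTop (𝓝 (D0 s))) :
    ∀ a b : ℝ, 0 ≤ a → a < b → D1 a ≤ D1 b := by
  have hpos : ∀ a b : ℝ, 0 < a → a ≤ b → D1 a ≤ D1 b := by
    intro a b ha hab
    have h1 := hi_lim hD hM hE ha
    have h2 := hi_lim hD hM hE (show 0 < b by linarith)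
    have h3 : -D1 b ≤ -D1 a := by
      refine le_of_tendsto_of_tendsto h2 h1 ?_
      filter_upwards [hM] with T hT
      apply div_le_div_of_nonneg_right _ hT.le
      exact_mod_cast hi_anti (g T) (K T) hab
    linarith
  intro a b ha hab
  rcases ha.eq_or_lt with rfl | h0
  · have h1 : Tendsto D1 (𝓝[>] 0) (𝓝 (D1 0)) := tendsto_nhdsWithin_of_tendsto_nhds (hD.c1.tendsto 0)
    refine le_of_tendsto h1 ?_
    have h2 : ∀ᶠ x : ℝ in 𝓝[>] 0, x < b := eventually_nhdsWithin_of_eventually_nhds (gt_mem_nhds hab)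
    filter_upwards [h2, self_mem_nhdsWithin] with x h3 h4
    exact hpos x b h4 h3.le
  · exact hpos a b h0 hab.le

/-- the mean excess determines the law -/
theorem conv_law (hD : GW D0 D1) {K : ℝ → ℕ} {g : ℝ → ℕ → ℝ} {M : ℝ → ℝ} (hM : ∀ᶠ T in atTop, 0 < M T)
    (hKM : Tendsto (fun T => (K T : ℝ) / M T) atTop (𝓝 1))
    (hE : ∀ s, 0 < s → Tendsto (fun T => (∑ k ∈ Finset.range (K T), max (g T k - s) 0) / M T) atTop (𝓝 (D0 s))) :
    ∀ a b : ℝ, 0 ≤ a → a < b → Tendsto (fun T => (cnt (g T) (K T) a b : ℝ) / M T) atTop (𝓝 (D1 b - D1 a)) := by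
  intro a b ha hab
  have hall : ∀ x, 0 ≤ x → Tendsto (fun T => (hi (g T) (K T) x : ℝ) / M T) atTop (𝓝 (-D1 x)) := by
    intro x hx
    rcases hx.eq_or_lt with rfl | h0
    · rw [hD.z1, neg_neg, Metric.tendsto_nhds]
      intro ε hε
      obtain ⟨δ0, hδ0, hc⟩ := Metric.continuous_iff.1 hD.c1 0 (ε / 2) (by positivity)
      have h1 := hc (δ0 / 2) (by rw [Real.dist_eq, sub_zero, abs_of_pos (by positivity)]; linarith)
      rw [hD.z1, Real.dist_eq, abs_lt] at h1
      have h2 := Metric.tendsto_nhds.1 (hi_lim hD hM hE (show 0 < δ0 / 2 by positivity)) (ε / 2) (by positivity)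
      filter_upwards [hM, h2, Metric.tendsto_nhds.1 hKM ε hε] with T g1 g2 g3
      rw [Real.dist_eq, abs_lt] at g2 g3 ⊢
      have g4 : (hi (g T) (K T) (δ0 / 2) : ℝ) / M T ≤ (hi (g T) (K T) 0 : ℝ) / M T := by
        apply div_le_div_of_nonneg_right _ g1.le
        exact_mod_cast hi_anti (g T) (K T) (by positivity)
      have g5 : (hi (g T) (K T) 0 : ℝ) / M T ≤ (K T : ℝ) / M T := by
        apply div_le_div_of_nonneg_right _ g1.le
        exact_mod_cast hi_le (g T) (K T) 0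
      constructor <;> linarith
    · exact hi_lim hD hM hE h0
  have h1 := (hall a ha).sub (hall b (by linarith))
  have e : -D1 a - -D1 b = D1 b - D1 a := by ring
  rw [e] at h1
  refine h1.congr fun T => ?_
  rw [hi_cnt (g T) (K T) hab.le]
  push_cast
  rw [← sub_div]
  congr 1
  ring

end Pool.Agent.P8H69.OL
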