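import Pool.Agent.P8H69.OL.Sm

set_option autoImplicit false

/-!
# The increments of a smoothed measure
-/

namespace Pool.Agent.P8H69.OL

open MeasureTheory Set Filter Topology
open scoped ENNReal

variable (μ : Measure ℝ)

/-- the mass of the window `(t, t + a]` -/
noncomputable def W0 (a t : ℝ) : ℝ≥0∞ := μ (Ioc t (t + a))

/-- the mass of the window `(t, t + a]` for the smoothed measure -/
noncomputable def DD (h a t : ℝ) : ℝ≥0∞ := if h = 0 then W0 μ a t else Sm h (W0 μ a) t

/-- the density of the smoothed measure -/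
noncomputable def ww (h y : ℝ) : ℝ≥0∞ := ∫⁻ γ, pe h (y - γ) ∂μ

/-- the void function -/
noncomputable def VV (h a T : ℝ) : ℝ≥0∞ := ∫⁻ t in Ioc 0 T, (1 - DD μ h a t)

lemma DD_zero (a : ℝ) : DD μ 0 a = W0 μ a := by funext t; exact if_pos rfl

lemma DD_pos {h : ℝ} (hh : 0 < h) (a : ℝ) : DD μ h a = Sm h (W0 μ a) := by funext t; exact if_neg hh.ne'

variable [SFinite μ]

lemma W0_meas (a : ℝ) : Measurable (W0 μ a) := by
  have h1 : MeasurableSet {p : ℝ × ℝ | p.1 < p.2 ∧ p.2 ≤ p.1 + a} :=
    (measurableSet_lt measurable_fst measurable_snd).inter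
      (measurableSet_le measurable_snd (measurable_fst.add_const a))
  exact measurable_measure_prodMk_left h1

lemma DD_meas {h : ℝ} (hh : 0 ≤ h) (a : ℝ) : Measurable (DD μ h a) := by
  rcases hh.eq_or_lt with rfl | h1
  · rw [DD_zero]; exact W0_meas μ a
  · rw [DD_pos μ h1]; exact Sm_meas (W0_meas μ a)

/-- the semigroup property -/
lemma DD_add {h δ : ℝ} (hh : 0 ≤ h) (hδ : 0 < δ) (a t : ℝ) : DD μ (h + δ) a t = Sm δ (DD μ h a) t := by
  rcases hh.eq_or_lt with rfl | h1
  · rw [zero_add, DD_pos μ hδ, DD_zero]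
  · rw [DD_pos μ h1, DD_pos μ (by linarith), Sm_Sm hδ h1 (W0_meas μ a), add_comm]

omit [SFinite μ] in
lemma W0_win {a b u t : ℝ} (hu : 0 ≤ u) (hab : u + b ≤ a) : W0 μ b (t + u) ≤ W0 μ a t :=
  measure_mono fun x hx => ⟨by linarith [hx.1], by linarith [hx.2]⟩

omit [SFinite μ] in
lemma DD_win {h : ℝ} (hh : 0 ≤ h) {a b u t : ℝ} (hu : 0 ≤ u) (hab : u + b ≤ a) : DD μ h b (t + u) ≤ DD μ h a t := by
  rcases hh.eq_or_lt with rfl | h1
  · rw [DD_zero, DD_zero]; exact W0_win μ hu hab
  · rw [DD_pos μ h1, DD_pos μ h1]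
    unfold Sm
    refine lintegral_mono fun r => mul_le_mul_right ?_ _
    rw [show t + u - r = (t - r) + u by ring]
    exact W0_win μ hu hab

omit [SFinite μ] in
lemma W0_split {a b : ℝ} (ha : 0 ≤ a) (hb : 0 ≤ b) (t : ℝ) : W0 μ (a + b) t = W0 μ a t + W0 μ b (t + a) := by
  unfold W0
  rw [← measure_union _ measurableSet_Ioc, Ioc_union_Ioc_eq_Ioc (by linarith) (by linarith), add_assoc]
  rw [Set.disjoint_left]
  intro x hx hx2
  linarith [hx.2, hx2.1]

lemma DD_split {h : ℝ} (hh : 0 ≤ h) {a b : ℝ} (ha : 0 ≤ a) (hb : 0 ≤ b) (t : ℝ) :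
    DD μ h (a + b) t = DD μ h a t + DD μ h b (t + a) := by
  rcases hh.eq_or_lt with rfl | h1
  · simp only [DD_zero]; exact W0_split μ ha hb t
  · simp only [DD_pos μ h1]
    have e1 : Sm h (W0 μ b) (t + a) = Sm h (fun s => W0 μ b (s + a)) t := by
      unfold Sm
      refine lintegral_congr fun r => ?_
      rw [show t + a - r = t - r + a by ring]
    rw [e1, ← Sm_add (W0_meas μ a)]
    unfold Sm
    refine lintegral_congr fun r => ?_
    rw [W0_split μ ha hb]

/-- the smoothed window mass as the integral of a density -/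
lemma Sm_W0 {h a t : ℝ} : Sm h (W0 μ a) t = ∫⁻ y in Ioc t (t + a), ww μ h y := by
  have hS : MeasurableSet {p : ℝ × ℝ | t < p.1 ∧ p.1 ≤ t + a} :=
    (measurableSet_lt measurable_const measurable_fst).inter (measurableSet_le measurable_fst measurable_const)
  have h1 : ∀ r, pe h r * W0 μ a (t - r) = ∫⁻ γ, pe h r * (Ioc t (t + a)).indicator (fun _ => 1) (γ + r) ∂μ := by
    intro r
    rw [lintegral_const_mul]
    · congr 1
      unfold W0
      rw [← lintegral_indicator_one measurableSet_Ioc]
      refine lintegral_congr fun γ => ?_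
      by_cases hγ : γ ∈ Ioc (t - r) (t - r + a)
      · have : γ + r ∈ Ioc t (t + a) := ⟨by linarith [hγ.1], by linarith [hγ.2]⟩
        rw [indicator_of_mem hγ, indicator_of_mem this]
        rfl
      · have : γ + r ∉ Ioc t (t + a) := fun h3 => hγ ⟨by linarith [h3.1], by linarith [h3.2]⟩
        rw [indicator_of_notMem hγ, indicator_of_notMem this]
    · exact (measurable_const.indicator measurableSet_Ioc).comp (measurable_id.add_const r)
  unfold Sm
  simp only [h1]
  rw [lintegral_lintegral_swap]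
  · have h2 : ∀ γ, ∫⁻ r, pe h r * (Ioc t (t + a)).indicator (fun _ => (1 : ℝ≥0∞)) (γ + r) =
        ∫⁻ y in Ioc t (t + a), pe h (y - γ) := by
      intro γ
      rw [← lintegral_indicator measurableSet_Ioc,
        ← lintegral_add_left_eq_self (fun y => (Ioc t (t + a)).indicator (fun y => pe h (y - γ)) y) γ]
      refine lintegral_congr fun r => ?_
      by_cases hy : γ + r ∈ Ioc t (t + a)
      · rw [indicator_of_mem hy, indicator_of_mem hy, mul_one, add_sub_cancel_left]
      · rw [indicator_of_notMem hy, indicator_of_notMem hy, mul_zero]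
    simp only [h2]
    rw [lintegral_lintegral_swap]
    · rfl
    · exact ((pe_meas h).comp (measurable_snd.sub measurable_fst)).aemeasurable
  · apply Measurable.aemeasurable
    exact ((pe_meas h).comp measurable_fst).mul
      ((measurable_const.indicator measurableSet_Ioc).comp (measurable_snd.add measurable_fst))

lemma ww_meas (h : ℝ) : Measurable (ww μ h) := by
  have hm : Measurable (fun p : ℝ × ℝ => pe h (p.1 - p.2)) := (pe_meas h).comp (measurable_fst.sub measurable_snd)
  exact hm.lintegral_prod_right'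

end Pool.Agent.P8H69.OL
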