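import Pool.Agent.P8H69.OL.Rl

set_option autoImplicit false

/-!
# The trivial lower bound for the void probability
-/

namespace Pool.Agent.P8H69.OL

open MeasureTheory Set Filter Topology
open scoped ENNReal

variable {γ : ℕ → ℝ} {N : ℝ → ℕ}

lemma nu_zero_le (h : Pts γ N) {ε X : ℝ} (hε : 0 < ε) (hX : 0 < X) :
    nu (mz γ) 0 (Ioc 0 X) ≤ (N ((1 + ε) * X) : ℝ≥0∞) := by
  unfold nu
  rw [if_pos rfl]
  have h1 := mz_win h (t := 0) (a := X) le_rfl
  rw [zero_add] at h1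
  rw [h1]
  have h2 : N X ≤ N ((1 + ε) * X) := h.mono (by nlinarith)
  have h3 : N X - N 0 ≤ N ((1 + ε) * X) := by omega
  exact_mod_cast h3

theorem PP_low (H : Zd γ N) {s ε : ℝ} (hs : 0 < s) (hε : 0 < ε) : ∀ᶠ T in atTop, ∀ h : ℝ, 0 ≤ h → h ≤ 1 →
    1 - s - ε ≤ PP γ h T s := by
  have hpi := Real.pi_pos
  have hlog : Tendsto (fun T : ℝ => 1 / Real.log T) atTop (𝓝 0) := Real.tendsto_log_atTop.const_div_atTop 1
  -- choice of the small constant
  obtain ⟨e, he0, he1, he2⟩ : ∃ e : ℝ, 0 < e ∧ e ≤ 1 ∧ s * (1 + e) ^ 5 < s + ε / 2 := by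
    have h1 : Tendsto (fun e : ℝ => s * (1 + e) ^ 5) (𝓝[>] 0) (𝓝 (s * (1 + 0) ^ 5)) := by
      apply tendsto_nhdsWithin_of_tendsto_nhds
      exact ((tendsto_id.const_add 1).pow 5).const_mul s
    have e0 : s * (1 + 0) ^ 5 = s := by ring
    rw [e0] at h1
    have h2 : ∀ᶠ e : ℝ in 𝓝[>] 0, e < 1 := eventually_nhdsWithin_of_eventually_nhds (gt_mem_nhds one_pos)
    obtain ⟨e, a1, a2, a3⟩ := ((h1.eventually (gt_mem_nhds (show s < s + ε / 2 by linarith))).and
      (h2.and self_mem_nhdsWithin)).exists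
    exact ⟨e, a3, a2.le, a1⟩
  obtain ⟨B0, hB0, hsharp⟩ := nu_sharp H.pts he0
  obtain ⟨B, hB⟩ : ∃ B : ℝ, B = (ENNReal.ofReal B0 * ∑' n, ENNReal.ofReal (2 / (1 + γ n ^ 2))).toReal := ⟨_, rfl⟩
  have hBt : ENNReal.ofReal B0 * ∑' n, ENNReal.ofReal (2 / (1 + γ n ^ 2)) ≠ ⊤ :=
    ENNReal.mul_ne_top ENNReal.ofReal_ne_top H.sq
  have hBp : 0 ≤ B := by rw [hB]; exact ENNReal.toReal_nonneg
  have hBe : ENNReal.ofReal B0 * ∑' n, ENNReal.ofReal (2 / (1 + γ n ^ 2)) = ENNReal.ofReal B := by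
    rw [hB, ENNReal.ofReal_toReal hBt]
  have hA : Tendsto (fun T : ℝ => (1 + e) * ((1 + e) * T)) atTop atTop :=
    (tendsto_id.const_mul_atTop (by positivity : 0 < 1 + e)).const_mul_atTop (by positivity : 0 < 1 + e)
  have hl2 : ∀ᶠ T : ℝ in atTop, 2 * Real.log (1 + e) ≤ e * Real.log T :=
    (Real.tendsto_log_atTop.const_mul_atTop he0).eventually_ge_atTop _
  have hsm := hlog.const_mul (2 * Real.pi * s * 2 * B)
  rw [mul_zero] at hsm
  filter_upwards [hA.eventually (H.cnt e he0), hl2, hsm.eventually (gt_mem_nhds (show 0 < ε / 2 by positivity)),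
    eventually_ge_atTop 2, Real.tendsto_log_atTop.eventually_ge_atTop (max 1 (2 * Real.pi * s)),
    eventually_ge_atTop (1 / e)]
    with T h1 h2 h3 h4 h5 h7
  intro h hh hh1
  have hT : 0 < T := by linarith
  have hl1 : 1 ≤ Real.log T := (le_max_left _ _).trans h5
  have hls : 2 * Real.pi * s ≤ Real.log T := (le_max_right _ _).trans h5
  have hl : 0 < Real.log T := by linarith
  obtain ⟨a, ha⟩ : ∃ a, a = 2 * Real.pi * s / Real.log T := ⟨_, rfl⟩
  have ha0 : 0 < a := by rw [ha]; positivity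
  have ha1 : a ≤ 1 := by rw [ha, div_le_one hl]; exact hls
  have heT : 1 ≤ e * T := by
    rw [div_le_iff₀ he0] at h7
    linarith
  have hX : T + a ≤ (1 + e) * T := by linarith
  have g1 := VV_low (mz γ) (h := h) (a := a) (T := T) hh
  have g2 : nu (mz γ) h (Ioc 0 (T + a)) ≤ ENNReal.ofReal ((N ((1 + e) * (T + a)) : ℝ) + (T + a) * B) := by
    rw [ENNReal.ofReal_add (by positivity) (by positivity), ENNReal.ofReal_natCast]
    rcases hh.eq_or_lt with rfl | h0
    · exact (nu_zero_le H.pts he0 (by linarith)).trans le_self_add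
    · have g := hsharp (T + a) (by linarith) h h0 hh1
      rw [hBe, ← ENNReal.ofReal_mul (by linarith)] at g
      exact g
  have g3 : ENNReal.ofReal T ≤ VV (mz γ) h a T + ENNReal.ofReal (a * ((N ((1 + e) * (T + a)) : ℝ) + (T + a) * B)) := by
    refine g1.trans (add_le_add_right ?_ _)
    rw [ENNReal.ofReal_mul ha0.le]
    exact mul_le_mul_right g2 _
  have g4 := ENNReal.toReal_mono (ENNReal.add_ne_top.2 ⟨VV_ne _ _ _ _, ENNReal.ofReal_ne_top⟩) g3
  rw [ENNReal.toReal_add (VV_ne _ _ _ _) ENNReal.ofReal_ne_top, ENNReal.toReal_ofReal hT.le,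
    ENNReal.toReal_ofReal (by positivity)] at g4
  unfold PP
  rw [← ha, le_div_iff₀ hT]
  -- the main term
  have k1 : (N ((1 + e) * (T + a)) : ℝ) ≤ (1 + e) * ((1 + e) * ((1 + e) * T) * Real.log ((1 + e) * ((1 + e) * T)) / (2 * Real.pi)) := by
    refine le_trans ?_ h1
    have : N ((1 + e) * (T + a)) ≤ N ((1 + e) * ((1 + e) * T)) :=
      H.pts.mono (mul_le_mul_of_nonneg_left hX (by linarith))
    exact_mod_cast this
  have k2 : Real.log ((1 + e) * ((1 + e) * T)) ≤ (1 + e) * Real.log T := by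
    rw [Real.log_mul (by positivity) (by positivity), Real.log_mul (by positivity) (by positivity)]
    linarith
  have k3 : a * (N ((1 + e) * (T + a)) : ℝ) ≤ s * (1 + e) ^ 5 * T := by
    have k4 : (1 + e) * ((1 + e) * T) * Real.log ((1 + e) * ((1 + e) * T)) ≤
        (1 + e) * ((1 + e) * T) * ((1 + e) * Real.log T) := mul_le_mul_of_nonneg_left k2 (by positivity)
    calc a * (N ((1 + e) * (T + a)) : ℝ) ≤ a * ((1 + e) * ((1 + e) * ((1 + e) * T) * ((1 + e) * Real.log T) / (2 * Real.pi))) := by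
          apply mul_le_mul_of_nonneg_left _ ha0.le
          refine k1.trans ?_
          gcongr
      _ = s * (1 + e) ^ 4 * T := by
          rw [ha]
          field_simp
      _ ≤ s * (1 + e) ^ 5 * T := by
          have : (1 + e) ^ 4 ≤ (1 + e) ^ 5 := pow_le_pow_right₀ (by linarith) (by norm_num)
          gcongr
  have k5 : a * ((T + a) * B) ≤ ε / 2 * T := by
    have k6 : (T + a) ≤ 2 * T := by linarith
    have k7 : 2 * Real.pi * s * 2 * B * (1 / Real.log T) * T ≤ ε / 2 * T := mul_le_mul_of_nonneg_right h3.le hT.le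
    calc a * ((T + a) * B) ≤ a * ((2 * T) * B) := by gcongr
      _ = 2 * Real.pi * s * 2 * B * (1 / Real.log T) * T := by rw [ha]; ring
      _ ≤ _ := k7
  have k8 : s * (1 + e) ^ 5 * T ≤ (s + ε / 2) * T := mul_le_mul_of_nonneg_right he2.le hT.le
  have e9 : (1 - s - ε) * T = T - ((s + ε / 2) * T + ε / 2 * T) := by ring
  rw [e9]
  rw [mul_add] at g4
  linarith

/-- a limit law is positive at one -/
lemma E_pos {E : ℝ → ℝ} {d : ℝ} (hd : HasDerivAt E d 1) (hnn : ∀ s, 0 < s → 0 ≤ E s) (hlow : ∀ s, 0 < s → 1 - s ≤ E s) :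
    0 < E 1 := by
  by_contra hcon
  have h0 : E 1 = 0 := le_antisymm (not_lt.1 hcon) (hnn 1 one_pos)
  have hev : ∀ᶠ s : ℝ in 𝓝 1, 0 < s := lt_mem_nhds one_pos
  have m1 : IsLocalMin E 1 := by
    filter_upwards [hev] with s hs
    rw [h0]
    exact hnn s hs
  have m2 : IsLocalMin (fun s => E s + s) 1 := by
    filter_upwards [hev] with s hs
    rw [h0]
    linarith [hlow s hs]
  have d1 := m1.hasDerivAt_eq_zero hd
  have d2 := m2.hasDerivAt_eq_zero (hd.add (hasDerivAt_id 1))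
  linarith

/-- the limits are positive at one -/
theorem law_pos (H : Zd γ N) {E : ℝ → ℝ} {d : ℝ} (hd : HasDerivAt E d 1) {h₁ : ℝ → ℝ} (b1 : ∀ T, 0 ≤ h₁ T ∧ h₁ T ≤ 1)
    (hL : ∀ s, 0 < s → Tendsto (fun T => PP γ (h₁ T) T s) atTop (𝓝 (E s))) : 0 < E 1 := by
  refine E_pos hd (fun s hs => ?_) (fun s hs => ?_)
  · refine ge_of_tendsto (hL s hs) ?_
    filter_upwards [eventually_ge_atTop 0] with T hT
    exact PP_nonneg hT
  · refine le_of_forall_pos_le_add fun ε hε => ?_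
    have h1 : 1 - s - ε ≤ E s := by
      refine ge_of_tendsto (hL s hs) ?_
      filter_upwards [PP_low H hs hε] with T hT
      exact hT (h₁ T) (b1 T).1 (b1 T).2
    linarith

end Pool.Agent.P8H69.OL
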