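import Pool.Agent.P8H69.OL.Zs
import Pool.Agent.P8H69.OL.Lo
import Pool.Agent.P8H69.OL.Cv
import Pool.Agent.P8H8.HF.Fin3
import Pool.Agent.R320.VQ.Var
import Pool.Agent.H297R2.LG.Final

set_option autoImplicit false

/-!
# The facts on the zeros of zeta
-/

namespace Pool.Agent.P8H69.OL

open MeasureTheory Set Filter Topology
open Pool.Agent.P8H8.HF
open scoped ENNReal

lemma rhs_of (RH : RiemannHypothesis) : SP.RHs := by
  intro s h1 h2 h0
  apply RH s h0
  · rintro ⟨k, hk⟩
    have := congrArg Complex.re hk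
    simp at this
    have hk0 : (0 : ℝ) ≤ k := Nat.cast_nonneg k
    linarith
  · intro h; rw [h] at h2; simp at h2

lemma log_big (A : ℝ) {c : ℝ} (hc : 0 < c) : ∀ᶠ T : ℝ in atTop, A ≤ c * Real.log T :=
  (Real.tendsto_log_atTop.const_mul_atTop hc).eventually_ge_atTop _

lemma gm_cnt {ε : ℝ} (hε : 0 < ε) : ∀ᶠ X in atTop, (SG.NZ X : ℝ) ≤ (1 + ε) * (X * Real.log X / (2 * Real.pi)) := by
  obtain ⟨C, T0, hC, hT0, h⟩ := rvm
  have hpi := Real.pi_pos
  filter_upwards [eventually_ge_atTop T0, log_big C (show 0 < ε / (2 * Real.pi) by positivity)] with X h1 h2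
  have h3 := h X h1
  rw [abs_le] at h3
  have hX : 0 < X := by linarith
  have h4 := mul_le_mul_of_nonneg_right h2 hX.le
  have e : (1 + ε) * (X * Real.log X / (2 * Real.pi)) = MT X + ε / (2 * Real.pi) * Real.log X * X := by
    unfold MT
    ring
  rw [e]
  linarith [h3.2]

lemma gm_low : ∀ᶠ X in atTop, X * Real.log X / (2 * Real.pi) / 2 ≤ (SG.NZ X : ℝ) := by
  obtain ⟨C, T0, hC, hT0, h⟩ := rvm
  have hpi := Real.pi_pos
  filter_upwards [eventually_ge_atTop T0, log_big C (show 0 < 1 / (2 * Real.pi) / 2 by positivity)] with X h1 h2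
  have h3 := h X h1
  rw [abs_le] at h3
  have hX : 0 < X := by linarith
  have h4 := mul_le_mul_of_nonneg_right h2 hX.le
  have e : X * Real.log X / (2 * Real.pi) / 2 = MT X - 1 / (2 * Real.pi) / 2 * Real.log X * X := by
    unfold MT
    ring
  rw [e]
  linarith [h3.1]

lemma gm_rv (c : ℝ) (hc0 : 0 < c) (hc1 : c < 1) : ∀ᶠ T in atTop, SG.NZ (c * T) < SG.NZ T := by
  obtain ⟨C, T0, hC, hT0, h⟩ := rvm
  have hpi := Real.pi_pos
  have h1c : 0 < 1 - c := by linarith
  filter_upwards [eventually_ge_atTop (T0 / c), eventually_ge_atTop T0,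
    log_big (2 * C + 1) (show 0 < (1 - c) / (2 * Real.pi) by positivity)] with T h1 h2 h3
  have hT : 0 < T := by linarith
  rw [div_le_iff₀ hc0] at h1
  have a1 := h T h2
  have a2 := h (c * T) (by linarith)
  rw [abs_le] at a1 a2
  have hcT : c * T ≤ T := by nlinarith
  have e : MT (c * T) ≤ c * MT T := by
    unfold MT
    rw [Real.log_mul hc0.ne' hT.ne']
    have hlc : Real.log c ≤ 0 := Real.log_nonpos hc0.le hc1.le
    have : c * T * (Real.log c + Real.log T) / (2 * Real.pi) = c * (T * Real.log T / (2 * Real.pi)) +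
        c * T / (2 * Real.pi) * Real.log c := by ring
    rw [this]
    have h5 : c * T / (2 * Real.pi) * Real.log c ≤ 0 := mul_nonpos_of_nonneg_of_nonpos (by positivity) hlc
    linarith
  have h6 := mul_le_mul_of_nonneg_right h3 hT.le
  have e2 : (1 - c) / (2 * Real.pi) * Real.log T * T = MT T - c * MT T := by
    unfold MT
    ring
  rw [e2] at h6
  have h7 : C * (c * T) ≤ C * T := mul_le_mul_of_nonneg_left hcT hC.le
  have h8 : (SG.NZ (c * T) : ℝ) < SG.NZ T := by linarith [a1.1, a2.2]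
  exact_mod_cast h8

theorem gm_zd (RH : RiemannHypothesis) : Zd gm SG.NZ := by
  refine ⟨gm_pts, ?_, fun ε hε => gm_cnt hε, fun a ω A B => ?_, ?_⟩
  · have h1 := (had_xi RH (z := 1) (by simp)).2
    have h2 : ∀ n, tm 1 (-((gm n : ℂ)) ^ 2) = 2 / (1 + gm n ^ 2) := by
      intro n
      unfold tm
      have e : (2 * 1 / (1 ^ 2 - -((gm n : ℂ)) ^ 2)) = ((2 / (1 + gm n ^ 2) : ℝ) : ℂ) := by
        push_cast
        congr 1
        · norm_num
        · ring
      rw [e, Complex.ofReal_re]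
    simp only [h2] at h1
    rw [h1]
    exact ENNReal.ofReal_ne_top
  · exact Pool.Agent.Y743.LR.step_int SG.NZ_mono (fun n n' => ((n' : ℝ) - n - a) ^ 2) ω A B
  · obtain ⟨C, T0, hC, hT0, h⟩ := Pool.Agent.R320.VQ.varq (rhs_of RH) 0 1 le_rfl
    refine ⟨C, hC, ?_⟩
    filter_upwards [eventually_ge_atTop T0] with U hU a ha hal
    have h1 := h U hU a ha (by linarith)
    unfold Pool.Agent.R320.VQ.dv at h1
    simp only [pow_zero, mul_one, pow_one] at h1
    exact h1

lemma KK_NZ (RH : RiemannHypothesis) (T : ℝ) : KK 0 T = SG.NZ T := by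
  have h1 : ∀ k, k < KK 0 T ↔ k < SG.NZ T := by
    intro k
    rw [← KK_spec RH le_rfl (by norm_num), ← gm_pts.le_iff, GG_zero]
    rfl
  apply le_antisymm
  · by_contra hcon
    rw [not_le] at hcon
    exact lt_irrefl _ ((h1 _).1 hcon)
  · by_contra hcon
    rw [not_le] at hcon
    exact lt_irrefl _ ((h1 _).2 hcon)

lemma exc_eq (RH : RiemannHypothesis) {T s : ℝ} (hT : 1 < T) :
    (∑ k ∈ Finset.range (KK 0 T), max (gg T 0 k - s) 0) / MT T =
      (∑ k ∈ Finset.range (SG.NZ T), max (gm (k + 1) - gm k - 2 * Real.pi * s / Real.log T) 0) / T := by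
  have hl : 0 < Real.log T := Real.log_pos hT
  have hpi := Real.pi_pos
  have hlam : 0 < lam T := by unfold lam; positivity
  rw [KK_NZ RH, MT_eq]
  have h1 : ∀ k, max (gg T 0 k - s) 0 = lam T * max (gm (k + 1) - gm k - 2 * Real.pi * s / Real.log T) 0 := by
    intro k
    have e1 : gg T 0 k = lam T * (gm (k + 1) - gm k) := by
      unfold gg gm
      rw [GG_zero, GG_zero]
    have e2 : s = lam T * (2 * Real.pi * s / Real.log T) := by
      unfold lam
      field_simp
    rw [mul_max_of_nonneg _ _ hlam.le, mul_zero, mul_sub, ← e2, e1]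
  simp only [h1]
  rw [← Finset.mul_sum]
  generalize (∑ k ∈ Finset.range (SG.NZ T), max (gm (k + 1) - gm k - 2 * Real.pi * s / Real.log T) 0) = S
  field_simp

lemma void_lim_iff (RH : RiemannHypothesis) {s E : ℝ} (hs : 0 ≤ s) :
    Tendsto (fun T => PP gm 0 T s) atTop (𝓝 E) ↔
      Tendsto (fun T => (∑ k ∈ Finset.range (KK 0 T), max (gg T 0 k - s) 0) / MT T) atTop (𝓝 E) := by
  have h0 := PP_exc gm_pts gm_rv hs
  have h1 : (fun T => (∑ k ∈ Finset.range (KK 0 T), max (gg T 0 k - s) 0) / MT T) =ᶠ[atTop]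
      fun T => (∑ k ∈ Finset.range (SG.NZ T), max (gm (k + 1) - gm k - 2 * Real.pi * s / Real.log T) 0) / T := by
    filter_upwards [eventually_gt_atTop 1] with T hT
    exact exc_eq RH hT
  rw [tendsto_congr' h1]
  constructor
  · intro h
    have := h.sub h0
    rw [sub_zero] at this
    refine this.congr fun T => ?_
    ring
  · intro h
    have := h.add h0
    rw [add_zero] at this
    refine this.congr fun T => ?_
    ring

lemma KM : Tendsto (fun T => (SG.NZ T : ℝ) / MT T) atTop (𝓝 1) := by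
  obtain ⟨C, T0, hC, hT0, h⟩ := rvm
  have hpi := Real.pi_pos
  have h1 : Tendsto (fun T : ℝ => 2 * Real.pi * C / Real.log T) atTop (𝓝 0) := Real.tendsto_log_atTop.const_div_atTop _
  rw [Metric.tendsto_nhds] at h1 ⊢
  intro ε hε
  filter_upwards [h1 ε hε, eventually_ge_atTop T0, Real.tendsto_log_atTop.eventually_gt_atTop 0] with T h2 h3 h4
  have hT : 0 < T := by linarith
  have hM : 0 < MT T := by unfold MT; positivity
  rw [Real.dist_eq, sub_zero, abs_of_pos (by positivity)] at h2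
  rw [Real.dist_eq]
  have e : (SG.NZ T : ℝ) / MT T - 1 = ((SG.NZ T : ℝ) - MT T) / MT T := by
    field_simp
  rw [e, abs_div, abs_of_pos hM, div_lt_iff₀ hM]
  refine lt_of_le_of_lt (h T h3) ?_
  rw [div_lt_iff₀ h4] at h2
  have e2 : ε * MT T = (ε * Real.log T) * T / (2 * Real.pi) := by unfold MT; ring
  rw [e2, lt_div_iff₀ (by positivity)]
  nlinarith

theorem void_ga (RH : RiemannHypothesis) {D0 D1 : ℝ → ℝ} (hD : GD D0 D1) :
    GA D1 (fun _ => 0) ↔ ∀ s, 0 < s → Tendsto (fun T => PP gm 0 T s) atTop (𝓝 (D0 s)) := by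
  constructor
  · intro h s hs
    rw [void_lim_iff RH hs.le]
    exact exc_lim RH hD hs.le (fun _ => le_rfl) (fun _ => by norm_num) h
  · intro h
    have hM : ∀ᶠ T in atTop, 0 < MT T := MT_tendsto.eventually_gt_atTop 0
    refine conv_law (K := KK 0) (g := fun T => gg T 0) (M := MT) ⟨hD.d0, hD.c1, hD.z1⟩ hM ?_ fun s hs => ?_
    · refine KM.congr fun T => ?_
      rw [KK_NZ RH]
    · exact (void_lim_iff RH hs.le).1 (h s hs)

theorem void_mono (RH : RiemannHypothesis) {D0 D1 : ℝ → ℝ} (hD : GW D0 D1)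
    (h : ∀ s, 0 < s → Tendsto (fun T => PP gm 0 T s) atTop (𝓝 (D0 s))) : ∀ a b : ℝ, 0 ≤ a → a < b → D1 a ≤ D1 b :=
  mono_law (K := KK 0) (g := fun T => gg T 0) (M := MT) hD (MT_tendsto.eventually_gt_atTop 0)
    (fun s hs => (void_lim_iff RH hs.le).1 (h s hs))

/-- a positive proportion of the windows is empty -/
theorem line_pos (RH : RiemannHypothesis) : ∃ e₀ : ℝ, 0 < e₀ ∧ ∀ᶠ T in atTop, e₀ ≤ PP gm 0 T 1 := by
  classical
  obtain ⟨ε, hε, h⟩ := LG.FINAL (rhs_of RH)
  have hpi := Real.pi_pos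
  refine ⟨ε / 4, by positivity, ?_⟩
  have hNZ : Tendsto SG.NZ atTop atTop := by
    rw [tendsto_atTop]
    intro b
    obtain ⟨t, ht⟩ := SG.NZ_unbounded b
    filter_upwards [eventually_ge_atTop t] with T hT
    exact ht.trans (SG.NZ_mono hT)
  have h0 := PP_exc gm_pts gm_rv zero_le_one
  filter_upwards [hNZ.eventually h, gm_low, eventually_ge_atTop 3, Real.tendsto_log_atTop.eventually_ge_atTop 1,
    Metric.tendsto_nhds.1 h0 (ε / 4) (by positivity)] with T h1 h2 h3 h4 h5
  have hT : 0 < T := by linarith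
  have hl : 0 < Real.log T := by linarith
  rw [Real.dist_eq, sub_zero, abs_lt] at h5
  obtain ⟨a, ha⟩ : ∃ a, a = 2 * Real.pi * 1 / Real.log T := ⟨_, rfl⟩
  rw [← ha] at h5
  have ha0 : 0 < a := by rw [ha]; positivity
  -- the large gaps
  obtain ⟨A, hA⟩ : ∃ A : Set ℕ, A = {n : ℕ | 1 ≤ n ∧ n ≤ SG.NZ T ∧
      357 / 100 < (SG.ord (n + 1) - SG.ord n) / (2 * Real.pi) * Real.log (SG.ord n / (2 * Real.pi))} := ⟨_, rfl⟩
  rw [← hA] at h1
  have hbig : ∀ n ∈ A, n - 1 ∈ (Finset.range (SG.NZ T)).filter (fun k => a ≤ gm (k + 1) - gm k - a) := by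
    intro n hn
    rw [hA] at hn
    obtain ⟨b1, b2, b3⟩ := hn
    rw [Finset.mem_filter, Finset.mem_range]
    refine ⟨by omega, ?_⟩
    have e1 : gm (n - 1) = SG.ord n := by unfold gm; rw [Nat.sub_add_cancel b1]
    have e2 : gm (n - 1 + 1) = SG.ord (n + 1) := by unfold gm; rw [Nat.sub_add_cancel b1]
    rw [e1, e2]
    have hg : 0 ≤ SG.ord (n + 1) - SG.ord n := sub_nonneg.2 (SG.ord_mono b1 (by omega))
    have hn0 := SG.ord_pos b1
    have hnT : SG.ord n ≤ T := (SG.ord_le_iff b1 T).2 b2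
    have hlog : Real.log (SG.ord n / (2 * Real.pi)) ≤ Real.log T := by
      apply Real.log_le_log (by positivity)
      rw [div_le_iff₀ (by positivity)]
      have : 1 ≤ 2 * Real.pi := by linarith [Real.pi_gt_three]
      nlinarith
    have h6 : 357 / 100 < (SG.ord (n + 1) - SG.ord n) / (2 * Real.pi) * Real.log T :=
      lt_of_lt_of_le b3 (mul_le_mul_of_nonneg_left hlog (by positivity))
    have h7 : 357 / 100 * a < SG.ord (n + 1) - SG.ord n := by
      rw [ha]
      rw [div_mul_eq_mul_div, lt_div_iff₀ (by positivity)] at h6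
      rw [mul_one, ← mul_div_assoc, div_lt_iff₀ hl]
      linarith
    linarith
  have hcard : A.ncard ≤ ((Finset.range (SG.NZ T)).filter (fun k => a ≤ gm (k + 1) - gm k - a)).card := by
    rw [← Set.ncard_coe_finset]
    apply Set.ncard_le_ncard_of_injOn (fun n => n - 1)
    · intro n hn
      exact hbig n hn
    · intro n hn m hm hnm
      rw [hA] at hn hm
      have := hn.1
      have := hm.1
      simp only at hnm
      omega
  have hsum : a * (A.ncard : ℝ) ≤ ∑ k ∈ Finset.range (SG.NZ T), max (gm (k + 1) - gm k - a) 0 := by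
    calc a * (A.ncard : ℝ) ≤ a * (((Finset.range (SG.NZ T)).filter (fun k => a ≤ gm (k + 1) - gm k - a)).card : ℝ) := by
          apply mul_le_mul_of_nonneg_left _ ha0.le
          exact_mod_cast hcard
      _ = ∑ k ∈ (Finset.range (SG.NZ T)).filter (fun k => a ≤ gm (k + 1) - gm k - a), a := by
          rw [Finset.sum_const, nsmul_eq_mul]; ring
      _ ≤ ∑ k ∈ (Finset.range (SG.NZ T)).filter (fun k => a ≤ gm (k + 1) - gm k - a), max (gm (k + 1) - gm k - a) 0 := by
          refine Finset.sum_le_sum fun k hk => ?_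
          rw [Finset.mem_filter] at hk
          exact hk.2.trans (le_max_left _ _)
      _ ≤ _ := Finset.sum_le_sum_of_subset_of_nonneg (Finset.filter_subset _ _) (fun k _ _ => le_max_right _ _)
  have h8 : ε / 2 * T ≤ a * (A.ncard : ℝ) := by
    have h9 : a * (ε * (SG.NZ T : ℝ)) ≤ a * (A.ncard : ℝ) := mul_le_mul_of_nonneg_left h1 ha0.le
    have h10 : a * (ε * (T * Real.log T / (2 * Real.pi) / 2)) ≤ a * (ε * (SG.NZ T : ℝ)) := by
      apply mul_le_mul_of_nonneg_left _ ha0.le
      exact mul_le_mul_of_nonneg_left h2 hε.le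
    have e : a * (ε * (T * Real.log T / (2 * Real.pi) / 2)) = ε / 2 * T := by
      rw [ha]
      field_simp
    linarith
  have h11 : ε / 2 ≤ (∑ k ∈ Finset.range (SG.NZ T), max (gm (k + 1) - gm k - a) 0) / T := by
    rw [le_div_iff₀ hT]
    linarith
  linarith [h5.1]

end Pool.Agent.P8H69.OL
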