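import Pool.Agent.P8H69.OL.Rl

set_option autoImplicit false

/-!
# The void function on the line and the mean excess of the gaps
-/

namespace Pool.Agent.P8H69.OL

open MeasureTheory Set Filter Topology
open scoped ENNReal

variable {γ : ℕ → ℝ} {N : ℝ → ℕ}

lemma one_sub_win (h : Pts γ N) {t a : ℝ} (ht : 0 ≤ t) (ha : 0 ≤ a) :
    1 - DD (mz γ) 0 a t = if N (t + a) = N t then 1 else 0 := by
  rw [DD_zero]
  unfold W0
  rw [mz_win h ht]
  have h1 : N t ≤ N (t + a) := h.mono (by linarith)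
  by_cases h2 : N (t + a) = N t
  · rw [if_pos h2, h2, Nat.sub_self, Nat.cast_zero, tsub_zero]
  · rw [if_neg h2]
    apply tsub_eq_zero_of_le
    have : 1 ≤ N (t + a) - N t := by omega
    exact_mod_cast this

/-- the intervals -/
def JJ (γ : ℕ → ℝ) (a : ℝ) (k : ℕ) : Set ℝ := Ico (γ k) (γ (k + 1) - a)

lemma JJ_disj (h : Pts γ N) {a : ℝ} (ha : 0 ≤ a) : Pairwise (Function.onFun Disjoint (JJ γ a)) := by
  have key : ∀ j k, j < k → Disjoint (JJ γ a j) (JJ γ a k) := by
    intro j k hjk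
    rw [Set.disjoint_left]
    rintro x ⟨_, h2⟩ ⟨h3, _⟩
    have := h.gmono (show j + 1 ≤ k by omega)
    linarith
  intro j k hjk
  rcases lt_or_gt_of_ne hjk with h1 | h1
  · exact key j k h1
  · exact (key k j h1).symm

lemma JJ_vol (γ : ℕ → ℝ) (a : ℝ) (k : ℕ) : volume (JJ γ a k) = ENNReal.ofReal (γ (k + 1) - γ k - a) := by
  unfold JJ
  rw [Real.volume_Ico]
  congr 1
  ring

lemma JJ_flat (h : Pts γ N) {a t : ℝ} {k : ℕ} (ha : 0 ≤ a) (ht : t ∈ JJ γ a k) : N (t + a) = N t := by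
  apply le_antisymm _ (h.mono (by linarith))
  by_contra hcon
  rw [not_le] at hcon
  have h1 : k < N t := (h.le_iff _ _).1 ht.1
  have h2 : γ (N t) ≤ t + a := (h.le_iff _ _).2 hcon
  have h3 := h.gmono (show k + 1 ≤ N t by omega)
  have := ht.2
  linarith

lemma gap_low (h : Pts γ N) {a T : ℝ} (ha : 0 ≤ a) {K : ℕ} (hK : K + 1 ≤ N T) :
    ∑ k ∈ Finset.range K, ENNReal.ofReal (γ (k + 1) - γ k - a) ≤ VV (mz γ) 0 a T := by
  unfold VV
  have hsub : (⋃ k ∈ Finset.range K, JJ γ a k) ⊆ Ioc 0 T := by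
    intro t ht
    rw [mem_iUnion₂] at ht
    obtain ⟨k, hk, h1, h2⟩ := ht
    rw [Finset.mem_range] at hk
    have h3 : γ (k + 1) ≤ T := (h.le_iff _ _).2 (by omega)
    exact ⟨by linarith [h.pos k], by linarith⟩
  refine le_trans ?_ (lintegral_mono_set hsub)
  rw [lintegral_biUnion_finset]
  · refine Finset.sum_le_sum fun k _ => ?_
    rw [← JJ_vol, ← setLIntegral_one]
    refine setLIntegral_mono' measurableSet_Ico fun t ht => ?_
    rw [one_sub_win h (by linarith [ht.1, h.pos k]) ha, if_pos (JJ_flat h ha ht)]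
  · exact fun j _ k _ hjk => JJ_disj h ha hjk
  · exact fun k _ => measurableSet_Ico

lemma gap_up (h : Pts γ N) {a T : ℝ} (ha : 0 ≤ a) :
    VV (mz γ) 0 a T ≤ ENNReal.ofReal (γ 0) + ∑ k ∈ Finset.range (N T), ENNReal.ofReal (γ (k + 1) - γ k - a) := by
  unfold VV
  obtain ⟨S, hS⟩ : ∃ S, S = Ioo 0 (γ 0) ∪ (⋃ k ∈ Finset.range (N T), JJ γ a k) := ⟨_, rfl⟩
  have hSm : MeasurableSet S := by
    rw [hS]
    exact measurableSet_Ioo.union (Finset.measurableSet_biUnion _ fun k _ => measurableSet_Ico)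
  have h1 : ∀ t ∈ Ioc 0 T, 1 - DD (mz γ) 0 a t ≤ S.indicator 1 t := by
    intro t ht
    rw [one_sub_win h ht.1.le ha]
    by_cases h2 : N (t + a) = N t
    · rw [if_pos h2]
      have : t ∈ S := by
        rw [hS]
        rcases lt_or_ge t (γ 0) with h3 | h3
        · exact Or.inl ⟨ht.1, h3⟩
        · right
          have h4 : 0 < N t := (h.le_iff _ _).1 h3
          rw [mem_iUnion₂]
          refine ⟨N t - 1, ?_, ?_, ?_⟩
          · rw [Finset.mem_range]
            have := h.mono ht.2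
            omega
          · exact (h.le_iff _ _).2 (by omega)
          · have h5 : N t - 1 + 1 = N t := by omega
            rw [h5]
            have h6 : t + a < γ (N t) := by
              rw [← not_le, h.le_iff, h2]
              exact lt_irrefl _
            linarith
      rw [indicator_of_mem this]
      rfl
    · rw [if_neg h2]
      exact zero_le
  calc ∫⁻ t in Ioc 0 T, (1 - DD (mz γ) 0 a t) ≤ ∫⁻ t in Ioc 0 T, S.indicator 1 t :=
        setLIntegral_mono' measurableSet_Ioc h1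
    _ ≤ ∫⁻ t, S.indicator 1 t := setLIntegral_le_lintegral _ _
    _ = volume S := lintegral_indicator_one hSm
    _ ≤ volume (Ioo 0 (γ 0)) + volume (⋃ k ∈ Finset.range (N T), JJ γ a k) := by rw [hS]; exact measure_union_le _ _
    _ ≤ ENNReal.ofReal (γ 0) + ∑ k ∈ Finset.range (N T), volume (JJ γ a k) := by
        refine add_le_add (le_of_eq ?_) (measure_biUnion_finset_le _ _)
        rw [Real.volume_Ioo, sub_zero]
    _ = _ := by simp only [JJ_vol]

lemma sum_max {n : ℕ} (x : ℕ → ℝ) : ∑ k ∈ Finset.range n, ENNReal.ofReal (x k) =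
    ENNReal.ofReal (∑ k ∈ Finset.range n, max (x k) 0) := by
  rw [ENNReal.ofReal_sum_of_nonneg (fun k _ => le_max_right _ _)]
  refine Finset.sum_congr rfl fun k _ => ?_
  rw [ENNReal.ofReal_max, ENNReal.ofReal_zero, max_eq_left zero_le]

/-- the void function and the excess -/
lemma VV_gap (h : Pts γ N) {a T : ℝ} (ha : 0 ≤ a) (hN : 1 ≤ N T) :
    |(VV (mz γ) 0 a T).toReal - ∑ k ∈ Finset.range (N T), max (γ (k + 1) - γ k - a) 0| ≤
      γ 0 + (γ (N T) - γ (N T - 1)) := by
  have h0 := h.pos 0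
  have hg : 0 ≤ γ (N T) - γ (N T - 1) := by
    have := h.gmono (show N T - 1 ≤ N T by omega)
    linarith
  have hnn : ∀ n, 0 ≤ ∑ k ∈ Finset.range n, max (γ (k + 1) - γ k - a) 0 :=
    fun n => Finset.sum_nonneg fun k _ => le_max_right _ _
  have hup := gap_up h (T := T) ha
  rw [sum_max (fun k => γ (k + 1) - γ k - a), ← ENNReal.ofReal_add h0.le (hnn _)] at hup
  have hlo := gap_low h (T := T) ha (K := N T - 1) (by omega)
  rw [sum_max (fun k => γ (k + 1) - γ k - a)] at hlo
  have u := ENNReal.toReal_mono ENNReal.ofReal_ne_top hup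
  have l := ENNReal.toReal_mono (VV_ne _ _ _ _) hlo
  rw [ENNReal.toReal_ofReal (add_nonneg h0.le (hnn _))] at u
  rw [ENNReal.toReal_ofReal (hnn _)] at l
  have hs : ∑ k ∈ Finset.range (N T), max (γ (k + 1) - γ k - a) 0 =
      ∑ k ∈ Finset.range (N T - 1), max (γ (k + 1) - γ k - a) 0 + max (γ (N T) - γ (N T - 1) - a) 0 := by
    obtain ⟨m, hm⟩ : ∃ m, N T = m + 1 := ⟨N T - 1, by omega⟩
    rw [hm, Nat.add_sub_cancel, Finset.sum_range_succ]
  have hm : max (γ (N T) - γ (N T - 1) - a) 0 ≤ γ (N T) - γ (N T - 1) := max_le (by linarith) hg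
  rw [abs_le]
  constructor <;> linarith

/-- the void probability on the line is the mean excess -/
theorem PP_exc (h : Pts γ N) (hrv : ∀ c : ℝ, 0 < c → c < 1 → ∀ᶠ T in atTop, N (c * T) < N T) {s : ℝ} (hs : 0 ≤ s) :
    Tendsto (fun T => PP γ 0 T s - (∑ k ∈ Finset.range (N T), max (γ (k + 1) - γ k - 2 * Real.pi * s / Real.log T) 0) / T)
      atTop (𝓝 0) := by
  rw [Metric.tendsto_nhds]
  intro ε hε
  -- choice of c
  obtain ⟨c, hc0, hc1, hc2⟩ : ∃ c : ℝ, 0 < c ∧ c < 1 ∧ 1 / c - c < ε / 2 := by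
    have h1 : Tendsto (fun c : ℝ => 1 / c - c) (𝓝[<] 1) (𝓝 (1 / 1 - 1)) := by
      apply tendsto_nhdsWithin_of_tendsto_nhds
      apply Tendsto.sub _ tendsto_id
      exact tendsto_const_nhds.div tendsto_id one_ne_zero
    rw [div_one, sub_self] at h1
    have h2 : ∀ᶠ c : ℝ in 𝓝[<] 1, 0 < c := by
      apply eventually_nhdsWithin_of_eventually_nhds
      exact lt_mem_nhds one_pos
    obtain ⟨c, a1, a2, a3⟩ := ((h1.eventually (gt_mem_nhds (show 0 < ε / 2 by positivity))).and
      (h2.and self_mem_nhdsWithin)).exists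
    exact ⟨c, a2, a3, a1⟩
  have hdiv : Tendsto (fun T : ℝ => T / c) atTop atTop := tendsto_id.atTop_div_const hc0
  filter_upwards [hrv c hc0 hc1, hdiv.eventually (hrv c hc0 hc1), eventually_gt_atTop (2 * γ 0 / ε), eventually_ge_atTop 1,
    eventually_ge_atTop (γ 0)] with T h1 h2 h3 h4 h5
  have hT : 0 < T := by linarith
  have hN : 1 ≤ N T := by omega
  have hlog : 0 ≤ Real.log T := Real.log_nonneg h4
  have ha : 0 ≤ 2 * Real.pi * s / Real.log T := by have := Real.pi_pos; positivity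
  have hb := VV_gap h ha hN
  have hcT : c * (T / c) = T := by field_simp
  rw [hcT] at h2
  have g1 : γ (N T) ≤ T / c := (h.le_iff _ _).2 h2
  have g2 : c * T < γ (N T - 1) := by
    rw [← not_le, h.le_iff]
    omega
  rw [Real.dist_eq, sub_zero]
  unfold PP
  rw [← sub_div, abs_div, abs_of_pos hT, div_lt_iff₀ hT]
  refine lt_of_le_of_lt hb ?_
  have g3 : T / c - c * T < ε / 2 * T := by
    have : T / c - c * T = (1 / c - c) * T := by ring
    rw [this]
    exact mul_lt_mul_of_pos_right hc2 hT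
  rw [div_lt_iff₀ hε] at h3
  linarith

end Pool.Agent.P8H69.OL
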