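import Mathlib

set_option autoImplicit false

/-!
# The Poisson kernel of the half plane
-/

namespace Pool.Agent.P8H69.OL

open MeasureTheory Set Filter Topology
open scoped ENNReal

/-- the Poisson kernel -/
noncomputable def pk (h r : ℝ) : ℝ := h / (Real.pi * (h ^ 2 + r ^ 2))

/-- the Poisson kernel as an extended nonnegative number -/
noncomputable def pe (h r : ℝ) : ℝ≥0∞ := ENNReal.ofReal (pk h r)

lemma pk_nonneg {h : ℝ} (hh : 0 ≤ h) (r : ℝ) : 0 ≤ pk h r := by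
  unfold pk
  have := Real.pi_pos
  positivity

lemma pk_neg (h r : ℝ) : pk h (-r) = pk h r := by unfold pk; rw [neg_sq]

lemma pe_neg (h r : ℝ) : pe h (-r) = pe h r := by unfold pe; rw [pk_neg]

lemma pk_meas (h : ℝ) : Measurable (pk h) := by unfold pk; fun_prop

lemma pe_meas (h : ℝ) : Measurable (pe h) := (pk_meas h).ennreal_ofReal

lemma pe_eq {h : ℝ} (hh : 0 < h) (r : ℝ) : pe h r = ProbabilityTheory.cauchyPDF 0 ⟨h, hh.le⟩ r := by
  unfold pe ProbabilityTheory.cauchyPDF ProbabilityTheory.cauchyPDFReal pk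
  congr 1
  rw [sub_zero]
  show h / (Real.pi * (h ^ 2 + r ^ 2)) = Real.pi⁻¹ * h * (r ^ 2 + h ^ 2)⁻¹
  have h1 : h ^ 2 + r ^ 2 ≠ 0 := by positivity
  have h2 : r ^ 2 + h ^ 2 ≠ 0 := by positivity
  have := Real.pi_ne_zero
  field_simp
  ring

lemma lint_pe {h : ℝ} (hh : 0 < h) : ∫⁻ r, pe h r = 1 := by
  have h0 : (⟨h, hh.le⟩ : NNReal) ≠ 0 := by
    intro h1
    have h2 : h = 0 := congrArg NNReal.toReal h1
    linarith
  rw [← ProbabilityTheory.lintegral_cauchyPDF_eq_one 0 h0]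
  exact lintegral_congr fun r => pe_eq hh r

lemma pk_tail {δ η r : ℝ} (hδ : 0 ≤ δ) (hη : 0 < η) (hr : η ≤ |r|) : pk δ r ≤ 2 * δ / η * pk η r := by
  unfold pk
  have hpi := Real.pi_pos
  have hr0 : 0 < |r| := by linarith
  have hr2 : η ^ 2 ≤ r ^ 2 := by
    rw [← sq_abs r]
    exact pow_le_pow_left₀ hη.le hr 2
  have hrr : 0 < r ^ 2 := by rw [← sq_abs r]; positivity
  have e : 2 * δ / η * (η / (Real.pi * (η ^ 2 + r ^ 2))) = 2 * δ / (Real.pi * (η ^ 2 + r ^ 2)) := by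
    field_simp
  rw [e, div_le_div_iff₀ (by positivity) (by positivity)]
  have h1 : 0 ≤ Real.pi * δ := by positivity
  nlinarith [mul_nonneg h1 (sq_nonneg δ), mul_nonneg h1 (sub_nonneg.2 hr2)]

lemma pk_low {δ R r : ℝ} (hδ : 0 < δ) (hr : |r| ≤ R) : δ / (Real.pi * (δ ^ 2 + R ^ 2)) ≤ pk δ r := by
  unfold pk
  have hpi := Real.pi_pos
  have h1 : r ^ 2 ≤ R ^ 2 := by
    rw [← sq_abs r]
    exact pow_le_pow_left₀ (abs_nonneg r) hr 2
  apply div_le_div_of_nonneg_left hδ.le (by positivity)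
  apply mul_le_mul_of_nonneg_left _ hpi.le
  linarith

/-- comparison of the kernels away from the origin -/
lemma pk_two {h r : ℝ} (_h0 : 0 ≤ h) (h2 : h ≤ 2) (hr : 1 ≤ |r|) : pk h r ≤ 5 * pk 2 r := by
  unfold pk
  have hpi := Real.pi_pos
  have hr2 : 1 ≤ r ^ 2 := by
    rw [← sq_abs r]
    nlinarith
  rw [← mul_div_assoc, div_le_div_iff₀ (by positivity) (by positivity)]
  have h1 : h * (2 ^ 2 + r ^ 2) ≤ 5 * 2 * (h ^ 2 + r ^ 2) := by nlinarith [sq_nonneg h]
  nlinarith [mul_le_mul_of_nonneg_left h1 hpi.le]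

/-- the kernel is the real part of a holomorphic function -/
lemma pk_re {h : ℝ} (hh : 0 < h) (r : ℝ) : pk h r = ((1 / ((h : ℂ) + r * Complex.I)).re) / Real.pi := by
  unfold pk
  have hpi := Real.pi_ne_zero
  have h1 : Complex.normSq ((h : ℂ) + r * Complex.I) = h ^ 2 + r ^ 2 := by
    rw [Complex.normSq_add_mul_I]
  rw [one_div, Complex.inv_re, h1]
  have h2 : ((h : ℂ) + r * Complex.I).re = h := by simp
  rw [h2]
  have h3 : h ^ 2 + r ^ 2 ≠ 0 := by positivity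
  field_simp

lemma pk_int {h : ℝ} (hh : 0 < h) : Integrable (pk h) := by
  have h1 : ∀ r, pk h r = ProbabilityTheory.cauchyPDFReal 0 ⟨h, hh.le⟩ r := by
    intro r
    unfold ProbabilityTheory.cauchyPDFReal pk
    rw [sub_zero]
    show h / (Real.pi * (h ^ 2 + r ^ 2)) = Real.pi⁻¹ * h * (r ^ 2 + h ^ 2)⁻¹
    have h1 : h ^ 2 + r ^ 2 ≠ 0 := by positivity
    have h2 : r ^ 2 + h ^ 2 ≠ 0 := by positivity
    have := Real.pi_ne_zero
    field_simp
    ring
  have h2 : pk h = ProbabilityTheory.cauchyPDFReal 0 ⟨h, hh.le⟩ := funext h1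
  rw [h2]
  exact ProbabilityTheory.integrable_cauchyPDFReal 0

lemma pk_le {h : ℝ} (hh : 0 < h) (r : ℝ) : pk h r ≤ 1 / (Real.pi * h) := by
  unfold pk
  have hpi := Real.pi_pos
  rw [div_le_div_iff₀ (by positivity) (by positivity)]
  nlinarith [mul_nonneg hpi.le (sq_nonneg r)]

/-- the antiderivative of the product of two kernels -/
noncomputable def AF (a b t r : ℝ) : ℝ :=
  (a * b * t * (Real.log (a ^ 2 + r ^ 2) - Real.log (b ^ 2 + (r - t) ^ 2)) +
    b * (t ^ 2 + b ^ 2 - a ^ 2) * Real.arctan (r / a) +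
    a * (t ^ 2 + a ^ 2 - b ^ 2) * Real.arctan ((r - t) / b)) /
    (Real.pi ^ 2 * ((t ^ 2 + (a + b) ^ 2) * (t ^ 2 + (a - b) ^ 2)))

lemma AF_deriv {a b t : ℝ} (ha : 0 < a) (hb : 0 < b) (hD : t ^ 2 + (a - b) ^ 2 ≠ 0) (r : ℝ) :
    HasDerivAt (AF a b t) (pk a r * pk b (t - r)) r := by
  have hpi := Real.pi_ne_zero
  have h1 : a ^ 2 + r ^ 2 ≠ 0 := by positivity
  have h2 : b ^ 2 + (r - t) ^ 2 ≠ 0 := by positivity
  have h3 : t ^ 2 + (a + b) ^ 2 ≠ 0 := by positivity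
  have d1 : HasDerivAt (fun r : ℝ => Real.log (a ^ 2 + r ^ 2)) (2 * r / (a ^ 2 + r ^ 2)) r := by
    have := (((hasDerivAt_pow 2 r).const_add (a ^ 2))).log h1
    refine this.congr_deriv ?_
    norm_num
  have d2 : HasDerivAt (fun r : ℝ => Real.log (b ^ 2 + (r - t) ^ 2)) (2 * (r - t) / (b ^ 2 + (r - t) ^ 2)) r := by
    have h0 : HasDerivAt (fun r : ℝ => r - t) 1 r := (hasDerivAt_id r).sub_const t
    have := (((h0.pow 2).const_add (b ^ 2))).log h2
    refine this.congr_deriv ?_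
    norm_num
  have d3 : HasDerivAt (fun r : ℝ => Real.arctan (r / a)) (a / (a ^ 2 + r ^ 2)) r := by
    have := ((hasDerivAt_id r).div_const a).arctan
    refine this.congr_deriv ?_
    simp only [id]
    field_simp
  have d4 : HasDerivAt (fun r : ℝ => Real.arctan ((r - t) / b)) (b / (b ^ 2 + (r - t) ^ 2)) r := by
    have := (((hasDerivAt_id r).sub_const t).div_const b).arctan
    refine this.congr_deriv ?_
    simp only [id]
    field_simp
  have d := ((((d1.sub d2).const_mul (a * b * t)).add (d3.const_mul (b * (t ^ 2 + b ^ 2 - a ^ 2)))).add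
    (d4.const_mul (a * (t ^ 2 + a ^ 2 - b ^ 2)))).div_const
      (Real.pi ^ 2 * ((t ^ 2 + (a + b) ^ 2) * (t ^ 2 + (a - b) ^ 2)))
  unfold AF
  refine d.congr_deriv ?_
  unfold pk
  have h4 : b ^ 2 + (t - r) ^ 2 ≠ 0 := by positivity
  rw [show (r - t) ^ 2 = (t - r) ^ 2 by ring]
  field_simp
  ring

lemma log_lim {a b t : ℝ} {l : Filter ℝ} (h1 : Tendsto (fun r : ℝ => r⁻¹) l (𝓝 0)) (h2 : ∀ᶠ r in l, r ≠ (0 : ℝ))
    (ha : 0 < a) (hb : 0 < b) :
    Tendsto (fun r : ℝ => Real.log (a ^ 2 + r ^ 2) - Real.log (b ^ 2 + (r - t) ^ 2)) l (𝓝 0) := by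
  have h3 : Tendsto (fun r : ℝ => Real.log ((a ^ 2 * r⁻¹ ^ 2 + 1) / (b ^ 2 * r⁻¹ ^ 2 + (1 - t * r⁻¹) ^ 2))) l
      (𝓝 (Real.log ((a ^ 2 * 0 ^ 2 + 1) / (b ^ 2 * 0 ^ 2 + (1 - t * 0) ^ 2)))) := by
    apply Tendsto.log
    · apply Tendsto.div
      · exact (((h1.pow 2).const_mul _).add_const _)
      · exact ((h1.pow 2).const_mul _).add ((tendsto_const_nhds.sub (h1.const_mul t)).pow 2)
      · norm_num
    · norm_num
  have e0 : Real.log ((a ^ 2 * 0 ^ 2 + 1) / (b ^ 2 * 0 ^ 2 + (1 - t * 0) ^ 2)) = 0 := by norm_num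
  rw [e0] at h3
  refine h3.congr' ?_
  filter_upwards [h2] with r hr
  have p1 : a ^ 2 + r ^ 2 ≠ 0 := by positivity
  have p2 : b ^ 2 + (r - t) ^ 2 ≠ 0 := by positivity
  rw [← Real.log_div p1 p2]
  congr 1
  have p3 : b ^ 2 * r⁻¹ ^ 2 + (1 - t * r⁻¹) ^ 2 ≠ 0 := by
    have e : b ^ 2 * r⁻¹ ^ 2 + (1 - t * r⁻¹) ^ 2 = (b ^ 2 + (r - t) ^ 2) * r⁻¹ ^ 2 := by
      field_simp
    rw [e]
    positivity
  rw [div_eq_div_iff p3 p2]
  field_simp

lemma ne_atTop : ∀ᶠ r : ℝ in atTop, r ≠ (0 : ℝ) := by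
  filter_upwards [eventually_gt_atTop (0 : ℝ)] with r hr
  exact hr.ne'

lemma ne_atBot : ∀ᶠ r : ℝ in atBot, r ≠ (0 : ℝ) := by
  filter_upwards [eventually_lt_atBot (0 : ℝ)] with r hr
  exact hr.ne

lemma arc_top {a c : ℝ} (ha : 0 < a) : Tendsto (fun r : ℝ => Real.arctan ((r - c) / a)) atTop (𝓝 (Real.pi / 2)) := by
  have h1 : Tendsto (fun r : ℝ => (r - c) / a) atTop atTop :=
    (tendsto_atTop_add_const_right atTop (-c) tendsto_id).atTop_div_const ha
  exact (tendsto_nhds_of_tendsto_nhdsWithin Real.tendsto_arctan_atTop).comp h1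

lemma arc_bot {a c : ℝ} (ha : 0 < a) : Tendsto (fun r : ℝ => Real.arctan ((r - c) / a)) atBot (𝓝 (-(Real.pi / 2))) := by
  have h1 : Tendsto (fun r : ℝ => (r - c) / a) atBot atBot :=
    (tendsto_atBot_add_const_right atBot (-c) tendsto_id).atBot_div_const ha
  exact (tendsto_nhds_of_tendsto_nhdsWithin Real.tendsto_arctan_atBot).comp h1

lemma prod_int {a b : ℝ} (ha : 0 < a) (hb : 0 < b) (t : ℝ) : Integrable (fun r => pk a r * pk b (t - r)) := by
  refine Integrable.mono' ((pk_int ha).mul_const (1 / (Real.pi * b))) ?_ (Eventually.of_forall fun r => ?_)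
  · exact ((pk_meas a).mul ((pk_meas b).comp (measurable_const.sub measurable_id))).aestronglyMeasurable
  · rw [Real.norm_eq_abs, abs_of_nonneg (mul_nonneg (pk_nonneg ha.le _) (pk_nonneg hb.le _))]
    exact mul_le_mul_of_nonneg_left (pk_le hb _) (pk_nonneg ha.le _)

/-- the semigroup property -/
theorem pk_conv {a b : ℝ} (ha : 0 < a) (hb : 0 < b) (t : ℝ) : ∫ r, pk a r * pk b (t - r) = pk (a + b) t := by
  have hpi := Real.pi_pos
  by_cases hD : t ^ 2 + (a - b) ^ 2 = 0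
  · have ht : t = 0 := by nlinarith [sq_nonneg t, sq_nonneg (a - b)]
    have hab : a = b := by nlinarith [sq_nonneg t, sq_nonneg (a - b)]
    subst hab
    subst ht
    have d : ∀ r : ℝ, HasDerivAt (fun r : ℝ => (r * a ^ 2 / (a ^ 2 + r ^ 2) + a * Real.arctan ((r - 0) / a)) /
        (2 * Real.pi ^ 2)  / a ^ 2) (pk a r * pk a (0 - r)) r := by
      intro r
      have h1 : a ^ 2 + r ^ 2 ≠ 0 := by positivity
      have d1 : HasDerivAt (fun r : ℝ => r * a ^ 2 / (a ^ 2 + r ^ 2)) (a ^ 2 * (a ^ 2 - r ^ 2) / (a ^ 2 + r ^ 2) ^ 2) r := by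
        have := ((hasDerivAt_id r).mul_const (a ^ 2)).div ((hasDerivAt_pow 2 r).const_add (a ^ 2)) h1
        refine this.congr_deriv ?_
        simp only [id]
        field_simp
        ring
      have d2 : HasDerivAt (fun r : ℝ => Real.arctan ((r - 0) / a)) (a / (a ^ 2 + r ^ 2)) r := by
        have := (((hasDerivAt_id r).sub_const 0).div_const a).arctan
        refine this.congr_deriv ?_
        simp only [id]
        field_simp
        ring
      have d3 := ((d1.add (d2.const_mul a)).div_const (2 * Real.pi ^ 2)).div_const (a ^ 2)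
      refine d3.congr_deriv ?_
      unfold pk
      rw [zero_sub, neg_sq]
      field_simp
      ring
    have l0 : ∀ l : Filter ℝ, Tendsto (fun r : ℝ => r⁻¹) l (𝓝 0) → (∀ᶠ r in l, r ≠ (0 : ℝ)) →
        Tendsto (fun r : ℝ => r * a ^ 2 / (a ^ 2 + r ^ 2)) l (𝓝 0) := by
      intro l h1 h2
      have h3 : Tendsto (fun r : ℝ => a ^ 2 * r⁻¹ / (a ^ 2 * r⁻¹ ^ 2 + 1)) l (𝓝 (a ^ 2 * 0 / (a ^ 2 * 0 ^ 2 + 1))) := by
        apply Tendsto.div
        · exact h1.const_mul _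
        · exact ((h1.pow 2).const_mul _).add_const _
        · norm_num
      have e0 : a ^ 2 * 0 / (a ^ 2 * 0 ^ 2 + 1) = 0 := by norm_num
      rw [e0] at h3
      refine h3.congr' ?_
      filter_upwards [h2] with r hr
      have p1 : a ^ 2 + r ^ 2 ≠ 0 := by positivity
      field_simp
    have ltop := (((l0 atTop tendsto_inv_atTop_zero ne_atTop).add ((arc_top (c := 0) ha).const_mul a)).div_const
      (2 * Real.pi ^ 2)).div_const (a ^ 2)
    have lbot := (((l0 atBot tendsto_inv_atBot_zero ne_atBot).add ((arc_bot (c := 0) ha).const_mul a)).div_const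
      (2 * Real.pi ^ 2)).div_const (a ^ 2)
    rw [integral_of_hasDerivAt_of_tendsto d (prod_int ha ha 0) lbot ltop]
    unfold pk
    field_simp
    ring
  · have l0 : ∀ (l : Filter ℝ) (A : ℝ), Tendsto (fun r : ℝ => r⁻¹) l (𝓝 0) → (∀ᶠ r in l, r ≠ (0 : ℝ)) →
        Tendsto (fun r : ℝ => Real.arctan ((r - 0) / a)) l (𝓝 A) →
        Tendsto (fun r : ℝ => Real.arctan ((r - t) / b)) l (𝓝 A) →
        Tendsto (AF a b t) l (𝓝 ((a * b * t * 0 + b * (t ^ 2 + b ^ 2 - a ^ 2) * A +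
          a * (t ^ 2 + a ^ 2 - b ^ 2) * A) /
          (Real.pi ^ 2 * ((t ^ 2 + (a + b) ^ 2) * (t ^ 2 + (a - b) ^ 2))))) := by
      intro l A h1 h2 h3 h4
      unfold AF
      simp only [sub_zero] at h3
      exact ((((log_lim h1 h2 ha hb).const_mul _).add (h3.const_mul _)).add (h4.const_mul _)).div_const _
    have ltop := l0 atTop _ tendsto_inv_atTop_zero ne_atTop (arc_top (c := 0) ha) (arc_top (c := t) hb)
    have lbot := l0 atBot _ tendsto_inv_atBot_zero ne_atBot (arc_bot (c := 0) ha) (arc_bot (c := t) hb)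
    rw [integral_of_hasDerivAt_of_tendsto (AF_deriv ha hb hD) (prod_int ha hb t) lbot ltop]
    unfold pk
    have h3 : t ^ 2 + (a + b) ^ 2 ≠ 0 := by positivity
    have h4 : (a + b) ^ 2 + t ^ 2 ≠ 0 := by positivity
    field_simp
    ring

theorem pe_conv {a b : ℝ} (ha : 0 < a) (hb : 0 < b) (t : ℝ) : ∫⁻ r, pe a r * pe b (t - r) = pe (a + b) t := by
  have h1 : ∀ r, pe a r * pe b (t - r) = ENNReal.ofReal (pk a r * pk b (t - r)) := by
    intro r
    unfold pe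
    rw [ENNReal.ofReal_mul (pk_nonneg ha.le _)]
  simp only [h1]
  rw [← ofReal_integral_eq_lintegral_ofReal (prod_int ha hb t)
    (Eventually.of_forall fun r => mul_nonneg (pk_nonneg ha.le _) (pk_nonneg hb.le _)), pk_conv ha hb]
  rfl

end Pool.Agent.P8H69.OL
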