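import Pool.Agent.H24R2.JP.Had
import Pool.Agent.P8H69.OL.Ker

set_option autoImplicit false

/-!
# The logarithmic derivative as a sum over the zeros
-/

namespace Pool.Agent.P8H69.OL

open Complex Filter Topology Set Polynomial Metric
open Pool.Agent.H24R2.JP (had_base had_lim had_split)
open scoped ENNReal

lemma order_ne_top {f : ℂ → ℂ} (hf : Differentiable ℂ f) (h0 : f 0 ≠ 0) (v : ℂ) : analyticOrderAt f v ≠ ⊤ := by
  intro h
  rw [analyticOrderAt_eq_top] at h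
  have h1 : AnalyticOnNhd ℂ f univ := fun x _ => hf.analyticAt x
  have h2 : AnalyticOnNhd ℂ (fun _ : ℂ => (0 : ℂ)) univ := fun x _ => analyticAt_const
  have h3 := h1.eq_of_eventuallyEq h2 (z₀ := v) (by
    filter_upwards [h] with x hx
    exact hx)
  exact h0 (congrFun h3 0)

lemma root_le {f G : ℂ → ℂ} (hf : Differentiable ℂ f) (h0 : f 0 ≠ 0) (hG : Differentiable ℂ G) {Q : ℂ[X]}
    (hQG : ∀ w, f w = Q.eval w * G w) (v : ℂ) : Q.rootMultiplicity v ≤ analyticOrderNatAt f v ∧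
      (G v ≠ 0 → Q.rootMultiplicity v = analyticOrderNatAt f v) := by
  have hQ0 : Q ≠ 0 := by
    rintro rfl
    apply h0
    rw [hQG]
    simp
  obtain ⟨R, hR, hRv⟩ := Q.exists_eq_pow_rootMultiplicity_mul_and_not_dvd hQ0 v
  have hev : ∀ w, f w = (w - v) ^ (Q.rootMultiplicity v) • (R.eval w * G w) := by
    intro w
    rw [hQG w]
    have : Q.eval w = (w - v) ^ (Q.rootMultiplicity v) * R.eval w := by
      conv_lhs => rw [hR]
      simp
    rw [this, smul_eq_mul, mul_assoc]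
  have han : AnalyticAt ℂ (fun w => R.eval w * G w) v :=
    ((R.differentiable.analyticAt v)).mul (hG.analyticAt v)
  have hfa := hf.analyticAt v
  have htop := order_ne_top hf h0 v
  constructor
  · have h1 : (Q.rootMultiplicity v : ℕ∞) ≤ analyticOrderAt f v :=
      (natCast_le_analyticOrderAt hfa).2 ⟨_, han, Eventually.of_forall hev⟩
    have h2 : analyticOrderAt f v = (analyticOrderNatAt f v : ℕ∞) := (ENat.natCast_toNat htop).symm
    rw [h2] at h1
    exact_mod_cast h1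
  · intro hGv
    have hRv' : R.eval v ≠ 0 := by
      intro h
      exact hRv (dvd_iff_isRoot.2 h)
    have h1 : analyticOrderAt f v = (Q.rootMultiplicity v : ℕ∞) :=
      (hfa.analyticOrderAt_eq_natCast).2 ⟨_, han, mul_ne_zero hRv' hGv, Eventually.of_forall hev⟩
    unfold analyticOrderNatAt
    rw [h1]
    rfl

/-- the term of a zero -/
noncomputable def tm (z v : ℂ) : ℝ := (2 * z / (z ^ 2 - v)).re

lemma sum_ofReal (m : Multiset ℂ) (g : ℂ → ℝ) (h : ∀ v ∈ m, 0 ≤ g v) :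
    (m.map fun v => ENNReal.ofReal (g v)).sum = ENNReal.ofReal (m.map g).sum ∧ 0 ≤ (m.map g).sum := by
  induction m using Multiset.induction_on with
  | empty => simp
  | cons w m ih =>
    obtain ⟨h1, h2⟩ := ih (fun v hv => h v (Multiset.mem_cons_of_mem hv))
    have h3 := h w (Multiset.mem_cons_self w m)
    rw [Multiset.map_cons, Multiset.map_cons, Multiset.sum_cons, Multiset.sum_cons, h1, ENNReal.ofReal_add h3 h2]
    exact ⟨rfl, by linarith⟩

lemma sum_re (m : Multiset ℂ) (g : ℂ → ℂ) : ((m.map g).sum).re = (m.map fun v => (g v).re).sum := by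
  induction m using Multiset.induction_on with
  | empty => simp
  | cons w m ih => rw [Multiset.map_cons, Multiset.map_cons, Multiset.sum_cons, Multiset.sum_cons, Complex.add_re, ih]

/-- the logarithmic derivative of a polynomial -/
lemma poly_ld {Q : ℂ[X]} {z : ℂ} (hne : Q.eval (z ^ 2) ≠ 0) :
    (2 * z * (Q.derivative.eval (z ^ 2) / Q.eval (z ^ 2))).re = (Q.roots.map (tm z)).sum := by
  rw [(IsAlgClosed.splits Q).eval_derivative_div_eval_of_ne_zero hne]
  have h1 : 2 * z * (Q.roots.map fun v => 1 / (z ^ 2 - v)).sum = (Q.roots.map fun v => 2 * z / (z ^ 2 - v)).sum := by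
    rw [← Multiset.sum_map_mul_left]
    congr 1
    apply Multiset.map_congr rfl
    intro v _
    rw [mul_one_div]
  rw [h1, sum_re]
  rfl

/-- convergence of the cofactors -/
lemma cof_lim {f : ℂ → ℂ} {K : ℝ} (hK : 0 ≤ K) (G : ℕ → ℂ → ℂ) (hG : ∀ N, Differentiable ℂ (G N))
    (hG0 : ∀ N, G N 0 = f 0) (h0 : f 0 ≠ 0)
    (hb : ∀ N : ℕ, ∀ w ∈ closedBall (0 : ℂ) (2 * ((N : ℝ) + 1)), ‖G N w‖ ≤ Real.exp (K * (1 + 2 * ((N : ℝ) + 1)) ^ (3 / 4 : ℝ)))
    (hnz : ∀ N : ℕ, ∀ u ∈ closedBall (0 : ℂ) ((N : ℝ) + 1), G N u ≠ 0) (x : ℂ) :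
    Tendsto (fun N => deriv (G N) x / G N x) atTop (𝓝 0) := by
  obtain ⟨r, hr⟩ : ∃ r, r = ‖x‖ + 1 := ⟨_, rfl⟩
  have hr0 : 0 < r := by rw [hr]; positivity
  have hf0 : 0 < ‖f 0‖ := norm_pos_iff.2 h0
  -- the functions are close to the constant
  have key : ∀ δ : ℝ, 0 < δ → δ ≤ 1 → ∀ᶠ N : ℕ in atTop, ∀ w : ℂ, ‖w‖ ≤ r → ‖G N w - f 0‖ ≤ ‖f 0‖ * (2 * δ) := by
    intro δ hδ hδ1
    filter_upwards [had_lim hK hr0 (abs_nonneg (Real.log ‖f 0‖)) hδ] with N hN w hw
    obtain ⟨h1, h2⟩ := hN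
    have hρ : (0 : ℝ) < (N : ℝ) + 1 := by positivity
    obtain ⟨L, hL0, hL⟩ := had_base (hG N) hρ
      (fun u hu => hnz N u (ball_subset_closedBall hu))
      (M := K * (1 + 2 * ((N : ℝ) + 1)) ^ (3 / 4 : ℝ))
      (fun w hw => hb N w (ball_subset_closedBall (ball_subset_ball (by linarith) hw)))
    obtain ⟨h3, h4⟩ := hL w (by linarith)
    rw [hG0] at h3 h4
    have h5 : ‖L w‖ ≤ δ := by
      refine h4.trans (le_trans ?_ h2.le)
      have h6 : ‖w‖ / (((N : ℝ) + 1) - ‖w‖) ≤ r / (((N : ℝ) + 1) - r) :=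
        div_le_div₀ hr0.le hw (by linarith) (by linarith)
      have h7 : K * (1 + 2 * ((N : ℝ) + 1)) ^ (3 / 4 : ℝ) - Real.log ‖f 0‖ ≤
          K * (1 + 2 * ((N : ℝ) + 1)) ^ (3 / 4 : ℝ) + |Real.log ‖f 0‖| := by
        have := neg_abs_le (Real.log ‖f 0‖)
        linarith
      have h8 : 0 ≤ ‖w‖ / (((N : ℝ) + 1) - ‖w‖) := div_nonneg (norm_nonneg _) (by linarith)
      have h9 : 0 ≤ K * (1 + 2 * ((N : ℝ) + 1)) ^ (3 / 4 : ℝ) + |Real.log ‖f 0‖| := by positivity
      have h10 : 0 ≤ K * (1 + 2 * ((N : ℝ) + 1)) ^ (3 / 4 : ℝ) - Real.log ‖f 0‖ := by rw [hG0] at hL0; exact hL0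
      gcongr
    rw [h3, show f 0 * cexp (L w) - f 0 = f 0 * (cexp (L w) - 1) by ring, norm_mul]
    apply mul_le_mul_of_nonneg_left _ (norm_nonneg _)
    have h11 := Complex.norm_exp_sub_one_le (h5.trans hδ1)
    linarith
  rw [Metric.tendsto_nhds]
  intro ε hε
  obtain ⟨δ, hδ, hδ1, hδε⟩ : ∃ δ : ℝ, 0 < δ ∧ δ ≤ 1 / 4 ∧ 4 * δ < ε := ⟨min (1 / 4) (ε / 8), by positivity, min_le_left _ _, by
    have := min_le_right (1 / 4 : ℝ) (ε / 8)
    linarith⟩
  filter_upwards [key δ hδ (by linarith)] with N hN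
  rw [dist_zero_right, norm_div]
  have h1 : ‖deriv (G N) x‖ ≤ ‖f 0‖ * (2 * δ) := by
    have h2 : deriv (fun w => G N w - f 0) x = deriv (G N) x := by rw [deriv_sub_const]
    rw [← h2]
    have h3 := Complex.norm_deriv_le_of_forall_mem_sphere_norm_le (c := x) (R := 1) (C := ‖f 0‖ * (2 * δ))
      (f := fun w => G N w - f 0) one_pos (((hG N).sub_const _).diffContOnCl) (fun w hw => by
        apply hN
        rw [mem_sphere, dist_eq_norm] at hw
        calc ‖w‖ = ‖x + (w - x)‖ := by congr 1; ring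
          _ ≤ ‖x‖ + ‖w - x‖ := norm_add_le _ _
          _ = r := by rw [hw, hr])
    simpa using h3
  have h4 : ‖f 0‖ / 2 ≤ ‖G N x‖ := by
    have h5 := hN x (by rw [hr]; linarith)
    have h6 : ‖f 0‖ ≤ ‖G N x‖ + ‖G N x - f 0‖ := by
      calc ‖f 0‖ = ‖G N x - (G N x - f 0)‖ := by congr 1; ring
        _ ≤ _ := norm_sub_le _ _
    have h7 : ‖f 0‖ * (2 * δ) ≤ ‖f 0‖ * (1 / 2) := mul_le_mul_of_nonneg_left (by linarith) hf0.le
    linarith
  have h8 : 0 < ‖G N x‖ := by linarith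
  rw [div_lt_iff₀ h8]
  calc ‖deriv (G N) x‖ ≤ ‖f 0‖ * (2 * δ) := h1
    _ = (4 * δ) * (‖f 0‖ / 2) := by ring
    _ ≤ (4 * δ) * ‖G N x‖ := mul_le_mul_of_nonneg_left h4 (by positivity)
    _ < ε * ‖G N x‖ := mul_lt_mul_of_pos_right hδε h8

lemma tm_eq {z : ℂ} {y : ℝ} (hz : 0 < z.re) :
    tm z (-((y : ℂ)) ^ 2) = Real.pi * (pk z.re (z.im - y) + pk z.re (z.im + y)) := by
  unfold tm
  have e1 : z ^ 2 - -(y : ℂ) ^ 2 = (z - y * I) * (z + y * I) := by
    ring_nf
    rw [I_sq]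
    ring
  have hn1 : z - y * I ≠ 0 := by
    intro h
    have := congrArg Complex.re h
    simp at this
    linarith
  have hn2 : z + y * I ≠ 0 := by
    intro h
    have := congrArg Complex.re h
    simp at this
    linarith
  have e2 : 2 * z / (z ^ 2 - -(y : ℂ) ^ 2) = 1 / (z - y * I) + 1 / (z + y * I) := by
    rw [e1]
    field_simp
    ring
  rw [e2, Complex.add_re, pk_re hz, pk_re hz]
  have hpi := Real.pi_ne_zero
  have e3 : (z.re : ℂ) + ((z.im - y : ℝ) : ℂ) * I = z - y * I := by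
    push_cast
    rw [sub_mul, ← add_sub_assoc, Complex.re_add_im]
  have e4 : (z.re : ℂ) + ((z.im + y : ℝ) : ℂ) * I = z + y * I := by
    push_cast
    rw [add_mul, ← add_assoc, Complex.re_add_im]
  rw [e3, e4]
  field_simp

/-- the multiset of the first points -/
def ms (γ : ℕ → ℝ) (K : ℕ) : Multiset ℂ := (Multiset.range K).map (fun n => -((γ n : ℂ)) ^ 2)

lemma ms_count (γ : ℕ → ℝ) (K : ℕ) (v : ℂ) :
    (ms γ K).count v = ((Finset.range K).filter (fun n => -((γ n : ℂ)) ^ 2 = v)).card := by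
  classical
  unfold ms
  rw [Multiset.count_map]
  unfold Finset.card
  rw [Finset.filter_val]
  congr 1
  apply Multiset.filter_congr
  intro n _
  exact eq_comm

lemma ms_sum (γ : ℕ → ℝ) (K : ℕ) (g : ℂ → ℝ≥0∞) :
    ((ms γ K).map g).sum = ∑ n ∈ Finset.range K, g (-((γ n : ℂ)) ^ 2) := by
  unfold ms
  rw [Multiset.map_map]
  rfl

lemma msum_le {m m' : Multiset ℂ} (h : m ≤ m') (g : ℂ → ℝ≥0∞) : (m.map g).sum ≤ (m'.map g).sum := by
  obtain ⟨k, rfl⟩ := Multiset.le_iff_exists_add.1 h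
  rw [Multiset.map_add, Multiset.sum_add]
  exact le_self_add

/-- the logarithmic derivative as a sum over the zeros -/
theorem had_sum {f : ℂ → ℂ} {K : ℝ} (hf : Differentiable ℂ f) (h0 : f 0 ≠ 0)
    (hsym : ∀ x, f ((starRingEnd ℂ) x) = (starRingEnd ℂ) (f x))
    (hgr : ∀ x, ‖f x‖ ≤ Real.exp (K * (1 + ‖x‖) ^ (3 / 4 : ℝ))) {γ : ℕ → ℝ} (hγ : ∀ n, 0 < γ n)
    (hfin : ∀ x : ℝ, {n | γ n ≤ x}.Finite)
    (hcard : ∀ v : ℂ, analyticOrderNatAt f v = {n : ℕ | -((γ n : ℂ)) ^ 2 = v}.ncard)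
    {z : ℂ} (hz : 0 < z.re) :
    f (z ^ 2) ≠ 0 ∧ ∑' n, ENNReal.ofReal (tm z (-((γ n : ℂ)) ^ 2)) =
      ENNReal.ofReal (2 * z * (deriv f (z ^ 2) / f (z ^ 2))).re := by
  classical
  -- growth with a nonnegative constant
  obtain ⟨K', hK'⟩ : ∃ K', K' = max K 0 := ⟨_, rfl⟩
  have hK0 : 0 ≤ K' := by rw [hK']; exact le_max_right _ _
  have hbr : ∀ N : ℕ, ∀ w ∈ closedBall (0 : ℂ) (2 * ((N : ℝ) + 1)),
      ‖f w‖ ≤ Real.exp (K' * (1 + 2 * ((N : ℝ) + 1)) ^ (3 / 4 : ℝ)) := by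
    intro N w hw
    rw [mem_closedBall, dist_zero_right] at hw
    refine (hgr w).trans (Real.exp_le_exp.2 ?_)
    have h1 : K ≤ K' := by rw [hK']; exact le_max_left _ _
    have h2 : (0 : ℝ) ≤ (1 + ‖w‖) ^ (3 / 4 : ℝ) := Real.rpow_nonneg (by positivity) _
    refine (mul_le_mul_of_nonneg_right h1 h2).trans ?_
    apply mul_le_mul_of_nonneg_left _ hK0
    exact Real.rpow_le_rpow (by positivity) (by linarith) (by norm_num)
  have hsplit : ∀ N : ℕ, ∃ (P : ℝ[X]) (G : ℂ → ℂ), Differentiable ℂ G ∧ G 0 = f 0 ∧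
      (∀ w ∈ closedBall (0 : ℂ) (2 * ((N : ℝ) + 1)), ‖G w‖ ≤ Real.exp (K' * (1 + 2 * ((N : ℝ) + 1)) ^ (3 / 4 : ℝ))) ∧
      (∀ w, f w = aeval w P * G w) ∧ (∀ u ∈ closedBall (0 : ℂ) ((N : ℝ) + 1), G u ≠ 0) := by
    intro N
    exact had_split (by positivity) (⌈∑ᶠ u, (MeromorphicOn.divisor f (closedBall 0 ((N : ℝ) + 1)) u : ℝ) * 1⌉₊) f hf h0
      hsym (hbr N) (Nat.le_ceil _)
  choose P G hG hG0 hGb hPG hGnz using hsplit
  obtain ⟨Q, hQ⟩ : ∃ Q : ℕ → ℂ[X], Q = fun N => (P N).map (algebraMap ℝ ℂ) := ⟨_, rfl⟩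
  have hev : ∀ N w, (Q N).eval w = aeval w (P N) := by
    intro N w
    rw [hQ]
    simp only [eval_map_algebraMap]
  have hQG : ∀ N w, f w = (Q N).eval w * G N w := by
    intro N w
    rw [hev, hPG N w]
  -- the zeros
  have hfz : ∀ v, f v = 0 → ∃ n, -((γ n : ℂ)) ^ 2 = v := by
    intro v hv
    have h1 : analyticOrderNatAt f v ≠ 0 := by
      intro h
      unfold analyticOrderNatAt at h
      rw [ENat.toNat_eq_zero] at h
      rcases h with h | h
      · exact ((hf.analyticAt v).analyticOrderAt_eq_zero.1 h) hv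
      · exact order_ne_top hf h0 v h
    rw [hcard] at h1
    obtain ⟨n, hn⟩ := Set.nonempty_of_ncard_ne_zero h1
    exact ⟨n, hn⟩
  have hne : f (z ^ 2) ≠ 0 := by
    intro h
    obtain ⟨n, hn⟩ := hfz _ h
    have h1 : (z - γ n * I) * (z + γ n * I) = 0 := by
      ring_nf
      rw [I_sq, ← hn]
      ring
    rcases mul_eq_zero.1 h1 with h2 | h2
    · have := congrArg Complex.re h2
      simp at this
      linarith
    · have := congrArg Complex.re h2
      simp at this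
      linarith
  refine ⟨hne, ?_⟩
  obtain ⟨g, hg⟩ : ∃ g : ℂ → ℝ≥0∞, g = fun v => ENNReal.ofReal (tm z v) := ⟨_, rfl⟩
  have hgz : ∀ n, ENNReal.ofReal (tm z (-((γ n : ℂ)) ^ 2)) = g (-((γ n : ℂ)) ^ 2) := fun n => by rw [hg]
  simp only [hgz]
  have hQne : ∀ N, (Q N).eval (z ^ 2) ≠ 0 := fun N h => hne (by rw [hQG N, h, zero_mul])
  have hQ0 : ∀ N, Q N ≠ 0 := fun N h => hQne N (by rw [h]; simp)
  have hroot : ∀ N, ∀ v ∈ (Q N).roots, ∃ n, -((γ n : ℂ)) ^ 2 = v := by
    intro N v hv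
    apply hfz
    rw [hQG N, (mem_roots (hQ0 N)).1 hv, zero_mul]
  have htm : ∀ N, ∀ v ∈ (Q N).roots, 0 ≤ tm z v := by
    intro N v hv
    obtain ⟨n, rfl⟩ := hroot N v hv
    rw [tm_eq hz]
    have := pk_nonneg hz.le (z.im - γ n)
    have := pk_nonneg hz.le (z.im + γ n)
    have := Real.pi_pos
    positivity
  -- the sums over the roots
  obtain ⟨S, hS⟩ : ∃ S : ℕ → ℝ≥0∞, S = fun N => ((Q N).roots.map g).sum := ⟨_, rfl⟩
  have hSe : ∀ N, S N = ENNReal.ofReal (2 * z * ((Q N).derivative.eval (z ^ 2) / (Q N).eval (z ^ 2))).re := by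
    intro N
    rw [hS, poly_ld (hQne N), hg]
    exact (sum_ofReal _ _ (htm N)).1
  have hlim : Tendsto S atTop (𝓝 (ENNReal.ofReal (2 * z * (deriv f (z ^ 2) / f (z ^ 2))).re)) := by
    have h1 := cof_lim hK0 G hG hG0 h0 hGb hGnz (z ^ 2)
    have h2 : ∀ N, (Q N).derivative.eval (z ^ 2) / (Q N).eval (z ^ 2) =
        deriv f (z ^ 2) / f (z ^ 2) - deriv (G N) (z ^ 2) / G N (z ^ 2) := by
      intro N
      have hGne : G N (z ^ 2) ≠ 0 := fun h => hne (by rw [hQG N, h, mul_zero])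
      have hd : deriv f (z ^ 2) = (Q N).derivative.eval (z ^ 2) * G N (z ^ 2) + (Q N).eval (z ^ 2) * deriv (G N) (z ^ 2) := by
        have e : f = fun w => (Q N).eval w * G N w := funext (hQG N)
        have h3 := ((Q N).hasDerivAt (z ^ 2)).mul ((hG N) (z ^ 2)).hasDerivAt
        rw [e]
        exact h3.deriv
      rw [hd, hQG N]
      have := hQne N
      field_simp
      ring
    have h3 : Tendsto (fun N => (Q N).derivative.eval (z ^ 2) / (Q N).eval (z ^ 2)) atTop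
        (𝓝 (deriv f (z ^ 2) / f (z ^ 2))) := by
      rw [tendsto_congr h2]
      simpa using h1.const_sub (deriv f (z ^ 2) / f (z ^ 2))
    have h4 := (Complex.continuous_re.tendsto _).comp (h3.const_mul (2 * z))
    have h5 := (ENNReal.continuous_ofReal.tendsto _).comp h4
    refine h5.congr fun N => ?_
    rw [hSe]
    rfl
  have hfinv : ∀ v : ℂ, {n : ℕ | -((γ n : ℂ)) ^ 2 = v}.Finite := by
    intro v
    refine (hfin (Real.sqrt (‖v‖))).subset ?_
    intro n hn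
    have h1 : ‖v‖ = γ n ^ 2 := by
      rw [← hn, norm_neg, norm_pow, Complex.norm_real, Real.norm_eq_abs, abs_of_pos (hγ n)]
    rw [h1]
    show γ n ≤ _
    rw [Real.sqrt_sq (hγ n).le]
  apply le_antisymm
  · apply ENNReal.tsum_le_of_sum_range_le
    intro k
    rw [← ms_sum]
    refine ge_of_tendsto hlim ?_
    -- all the first points are in the ball
    obtain ⟨N0, hN0⟩ : ∃ N0 : ℕ, ∀ n < k, γ n ^ 2 ≤ (N0 : ℝ) + 1 := by
      obtain ⟨N0, h⟩ := exists_nat_ge (∑ n ∈ Finset.range k, γ n ^ 2)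
      refine ⟨N0, fun n hn => ?_⟩
      have := Finset.single_le_sum (f := fun n => γ n ^ 2) (fun i _ => sq_nonneg (γ i)) (Finset.mem_range.2 hn)
      linarith
    filter_upwards [eventually_ge_atTop N0] with N hN
    rw [hS]
    apply msum_le
    rw [Multiset.le_iff_count]
    intro v
    by_cases hv : v ∈ ms γ k
    · unfold ms at hv
      rw [Multiset.mem_map] at hv
      obtain ⟨n, hn, rfl⟩ := hv
      rw [Multiset.mem_range] at hn
      have hball : -((γ n : ℂ)) ^ 2 ∈ closedBall (0 : ℂ) ((N : ℝ) + 1) := by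
        rw [mem_closedBall, dist_zero_right, norm_neg, norm_pow, Complex.norm_real, Real.norm_eq_abs, sq_abs]
        have h1 := hN0 n hn
        have h2 : (N0 : ℝ) ≤ N := by exact_mod_cast hN
        linarith
      rw [count_roots, (root_le hf h0 (hG N) (hQG N) _).2 (hGnz N _ hball), hcard, ms_count,
        ← Set.ncard_coe_finset]
      apply Set.ncard_le_ncard _ (hfinv _)
      intro m hm
      rw [Finset.mem_coe, Finset.mem_filter] at hm
      exact hm.2
    · rw [Multiset.count_eq_zero_of_notMem hv]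
      exact Nat.zero_le _
  · refine le_of_tendsto hlim (Eventually.of_forall fun N => ?_)
    -- a large initial segment contains all roots
    obtain ⟨k, hk⟩ : ∃ k : ℕ, ∀ v ∈ (Q N).roots.toFinset, ∀ n, -((γ n : ℂ)) ^ 2 = v → n < k := by
      have h1 : (⋃ v ∈ (Q N).roots.toFinset, {n : ℕ | -((γ n : ℂ)) ^ 2 = v}).Finite :=
        Set.Finite.biUnion (Finset.finite_toSet _) (fun v _ => hfinv v)
      obtain ⟨k, hk⟩ := h1.bddAbove
      refine ⟨k + 1, fun v hv n hn => ?_⟩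
      have : n ∈ (⋃ v ∈ (Q N).roots.toFinset, {n : ℕ | -((γ n : ℂ)) ^ 2 = v}) := by
        rw [mem_iUnion₂]
        exact ⟨v, hv, hn⟩
      have := hk this
      omega
    have h2 : S N ≤ ((ms γ k).map g).sum := by
      rw [hS]
      apply msum_le
      rw [Multiset.le_iff_count]
      intro v
      by_cases hv : v ∈ (Q N).roots
      · rw [count_roots]
        refine ((root_le hf h0 (hG N) (hQG N) v).1).trans ?_
        rw [hcard, ms_count, ← Set.ncard_coe_finset]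
        apply Set.ncard_le_ncard _ (Finset.finite_toSet _)
        intro n hn
        rw [Finset.mem_coe, Finset.mem_filter, Finset.mem_range]
        exact ⟨hk v (Multiset.mem_toFinset.2 hv) n hn, hn⟩
      · rw [Multiset.count_eq_zero_of_notMem hv]
        exact Nat.zero_le _
    refine h2.trans ?_
    rw [ms_sum]
    exact ENNReal.sum_le_tsum _

end Pool.Agent.P8H69.OL
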