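import Mathlib

set_option autoImplicit false

/-!
# The directions for which the real part of a rotating function has no zero
-/

namespace Pool.Agent.P8H69.OL

open MeasureTheory Set Filter Topology Complex

/-- the directions with no zero, in terms of the phase -/
def AA (α β : ℝ) : Set ℝ := {θ | ∀ k : ℤ, ¬ (α < (2 * k + 1) * Real.pi / 2 - θ ∧ (2 * k + 1) * Real.pi / 2 - θ < β)}

lemma AA_shift (α β θ : ℝ) (n : ℤ) : n • Real.pi + θ ∈ AA α β ↔ θ ∈ AA α β := by
  unfold AA
  simp only [mem_ofPred_eq]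
  have e : ∀ k : ℤ, (2 * ((k : ℤ) : ℝ) + 1) * Real.pi / 2 - (n • Real.pi + θ) =
      (2 * (((k - n : ℤ)) : ℝ) + 1) * Real.pi / 2 - θ := by
    intro k
    push_cast
    rw [zsmul_eq_mul]
    ring
  simp only [e]
  constructor
  · intro h k
    have := h (k + n)
    rw [add_sub_cancel_right] at this
    exact this
  · intro h k
    exact h (k - n)

lemma AA_meas (α β : ℝ) : MeasurableSet (AA α β) := by
  have e : AA α β = ⋂ k : ℤ, {θ | ¬ (α < (2 * k + 1) * Real.pi / 2 - θ ∧ (2 * k + 1) * Real.pi / 2 - θ < β)} := by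
    ext θ
    simp [AA]
  rw [e]
  refine MeasurableSet.iInter fun k => ?_
  apply MeasurableSet.compl
  exact (measurableSet_lt measurable_const (measurable_const.sub measurable_id)).inter
    (measurableSet_lt (measurable_const.sub measurable_id) measurable_const)

lemma AA_block {α β : ℝ} (h : α < β) : AA α β ∩ Ioc (Real.pi / 2 - β) (Real.pi / 2 - β + Real.pi) =
    Icc (Real.pi / 2 - α) (Real.pi / 2 - β + Real.pi) := by
  have hpi := Real.pi_pos
  ext θ
  constructor
  · rintro ⟨h1, h2, h3⟩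
    refine ⟨?_, h3⟩
    by_contra hcon
    rw [not_le] at hcon
    apply h1 0
    push_cast
    constructor <;> linarith
  · rintro ⟨h1, h2⟩
    refine ⟨fun k hk => ?_, by linarith, h2⟩
    obtain ⟨h3, h4⟩ := hk
    have h5 : 0 < (k : ℝ) := by
      by_contra hcon
      rw [not_lt] at hcon
      nlinarith
    have h6 : (k : ℝ) < 1 := by
      by_contra hcon
      rw [not_lt] at hcon
      nlinarith
    have h7 : (0 : ℤ) < k := by exact_mod_cast h5
    have h8 : k < (1 : ℤ) := by exact_mod_cast h6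
    omega

lemma AA_vol {α β : ℝ} (h : α < β) : volume (AA α β ∩ Ioo 0 Real.pi) = ENNReal.ofReal (Real.pi - (β - α)) := by
  have hpi := Real.pi_pos
  have h1 : volume (AA α β ∩ Ioo 0 Real.pi) = volume (AA α β ∩ Ioc 0 (0 + Real.pi)) := by
    rw [zero_add]
    apply measure_congr
    exact (ae_eq_refl _).inter Ioo_ae_eq_Ioc
  have f1 := isAddFundamentalDomain_Ioc hpi 0 (volume : Measure ℝ)
  have f2 := isAddFundamentalDomain_Ioc hpi (Real.pi / 2 - β) (volume : Measure ℝ)
  have h2 := f1.measure_set_eq f2 (AA_meas α β) (by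
    rintro ⟨g, hg⟩
    obtain ⟨n, rfl⟩ := AddSubgroup.mem_zmultiples_iff.1 hg
    ext θ
    exact AA_shift α β θ n)
  rw [h1, h2, AA_block h, Real.volume_Icc]
  congr 1
  ring

/-- the measure of the set of directions -/
theorem dir_measure {f f' : ℝ → ℂ} (hf : ∀ y, HasDerivAt f (f' y) y) (hc : Continuous f') (hne : ∀ y, f y ≠ 0)
    {w : ℝ → ℝ} (hw : ∀ y, w y = (f' y / f y).im) (hpos : ∀ y, 0 < w y) {t t' : ℝ} (h : t < t') :
    volume {θ : ℝ | 0 < θ ∧ θ < Real.pi ∧ ∀ y, t < y → y < t' → (cexp (I * θ) * f y).re ≠ 0} =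
      ENNReal.ofReal (Real.pi - ∫ y in t..t', w y) := by
  have hcf : Continuous f := continuous_iff_continuousAt.2 fun y => (hf y).continuousAt
  have hcq : Continuous (fun y => f' y / f y) := hc.div hcf hne
  obtain ⟨F, hF⟩ : ∃ F : ℝ → ℂ, F = fun y => ∫ s in (0 : ℝ)..y, f' s / f s := ⟨_, rfl⟩
  have hFd : ∀ y, HasDerivAt F (f' y / f y) y := by
    intro y
    rw [hF]
    exact intervalIntegral.integral_hasDerivAt_right (hcq.intervalIntegrable _ _)
      (hcq.stronglyMeasurableAtFilter _ _) hcq.continuousAt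
  have hF0 : F 0 = 0 := by rw [hF]; simp
  have hconst : ∀ y, f y * cexp (-F y) = f 0 := by
    have hd : ∀ y, HasDerivAt (fun y => f y * cexp (-F y)) 0 y := by
      intro y
      have h1 := (hf y).mul ((hFd y).neg.cexp)
      have e : f' y * cexp (-F y) + f y * (cexp (-F y) * -(f' y / f y)) = 0 := by
        have := hne y
        field_simp
        ring
      have h1' : HasDerivAt (fun y => f y * cexp (-F y)) (f' y * cexp (-F y) + f y * (cexp (-F y) * -(f' y / f y))) y := h1
      rwa [e] at h1'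
    intro y
    have h2 := is_const_of_deriv_eq_zero (fun y => (hd y).differentiableAt) (fun y => (hd y).deriv) y 0
    simpa [hF0] using h2
  have hfe : ∀ y, f y = f 0 * cexp (F y) := by
    intro y
    rw [← hconst y, mul_assoc, ← Complex.exp_add]
    simp
  -- the phase
  obtain ⟨φ, hφ⟩ : ∃ φ : ℝ → ℝ, φ = fun y => arg (f 0) + (F y).im := ⟨_, rfl⟩
  have hφd : ∀ y, HasDerivAt φ (w y) y := by
    intro y
    rw [hφ, hw]
    have h1 : HasDerivAt (fun y => (F y).im) ((f' y / f y).im) y :=
      (Complex.imCLM.hasFDerivAt.comp_hasDerivAt y (hFd y))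
    exact h1.const_add _
  have hmono : StrictMono φ := strictMono_of_hasDerivAt_pos hφd hpos
  have hφc : Continuous φ := continuous_iff_continuousAt.2 fun y => (hφd y).continuousAt
  have hwc : Continuous w := by
    have : w = fun y => (f' y / f y).im := funext hw
    rw [this]
    exact Complex.continuous_im.comp hcq
  have hinc : ∫ y in t..t', w y = φ t' - φ t :=
    intervalIntegral.integral_eq_sub_of_hasDerivAt (fun y _ => hφd y) (hwc.intervalIntegrable _ _)
  have hre : ∀ θ y : ℝ, (cexp (I * θ) * f y).re = ‖f 0‖ * Real.exp (F y).re * Real.cos (θ + φ y) := by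
    intro θ y
    have e1 : cexp (I * θ) * f y = ((‖f 0‖ * Real.exp (F y).re : ℝ) : ℂ) * cexp (((θ + φ y : ℝ) : ℂ) * I) := by
      rw [hfe y]
      conv_lhs => rw [← Complex.norm_mul_exp_arg_mul_I (f 0)]
      rw [hφ]
      push_cast
      have e2 : cexp (F y) = cexp ((F y).re : ℂ) * cexp ((F y).im * I) := by
        rw [← Complex.exp_add, Complex.re_add_im]
      rw [e2]
      have e3 : cexp ((θ + (arg (f 0) + (F y).im)) * I) = cexp (I * θ) * cexp (arg (f 0) * I) * cexp ((F y).im * I) := by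
        rw [← Complex.exp_add, ← Complex.exp_add]
        congr 1
        ring
      rw [e3]
      ring
    rw [e1, Complex.re_ofReal_mul, Complex.exp_ofReal_mul_I_re]
  have hzero : ∀ θ y : ℝ, (cexp (I * θ) * f y).re = 0 ↔ ∃ k : ℤ, θ + φ y = (2 * k + 1) * Real.pi / 2 := by
    intro θ y
    rw [hre, ← Real.cos_eq_zero_iff, mul_eq_zero]
    have h1 : 0 < ‖f 0‖ * Real.exp (F y).re := by
      have := norm_pos_iff.2 (hne 0)
      positivity
    constructor
    · rintro (h2 | h2)
      · exact absurd h2 h1.ne'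
      · exact h2
    · exact Or.inr
  have hset : {θ : ℝ | 0 < θ ∧ θ < Real.pi ∧ ∀ y, t < y → y < t' → (cexp (I * θ) * f y).re ≠ 0} =
      AA (φ t) (φ t') ∩ Ioo 0 Real.pi := by
    ext θ
    constructor
    · rintro ⟨h1, h2, h3⟩
      refine ⟨fun k hk => ?_, h1, h2⟩
      obtain ⟨y, hy, hy2⟩ := intermediate_value_Ioo h.le hφc.continuousOn hk
      refine h3 y hy.1 hy.2 ((hzero θ y).2 ⟨k, ?_⟩)
      rw [hy2]
      ring
    · rintro ⟨h1, h2, h3⟩
      refine ⟨h2, h3, fun y hy1 hy2 hcon => ?_⟩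
      obtain ⟨k, hk⟩ := (hzero θ y).1 hcon
      apply h1 k
      have e : (2 * (k : ℝ) + 1) * Real.pi / 2 - θ = φ y := by rw [← hk]; ring
      rw [e]
      exact ⟨hmono hy1, hmono hy2⟩
  rw [hset, AA_vol (hmono h), hinc]

end Pool.Agent.P8H69.OL
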