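import Pool.Agent.P8H69.OL.Zt

set_option autoImplicit false

/-!
# The void probabilities
-/

namespace Pool.Agent.P8H69.OL

open MeasureTheory Set Filter Topology
open scoped ENNReal

/-- the facts on the points that are used -/
structure Zd (γ : ℕ → ℝ) (N : ℝ → ℕ) : Prop where
  pts : Pts γ N
  sq : ∑' n, ENNReal.ofReal (2 / (1 + γ n ^ 2)) ≠ ⊤
  cnt : ∀ ε : ℝ, 0 < ε → ∀ᶠ X in atTop, (N X : ℝ) ≤ (1 + ε) * (X * Real.log X / (2 * Real.pi))
  int : ∀ a ω A B : ℝ, IntegrableOn (fun t => ((N (t + ω) : ℝ) - N t - a) ^ 2) (Icc A B)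
  var : ∃ C : ℝ, 0 < C ∧ ∀ᶠ U in atTop, ∀ a : ℝ, 0 < a → a * Real.log a ≤ Real.log U →
      ∫ t in Icc U (2 * U), ((N (t + 2 * Real.pi * a / Real.log U) : ℝ) - N t - a) ^ 2 ≤
        C * (1 + Real.log (1 + a)) * U

variable {γ : ℕ → ℝ} {N : ℝ → ℕ}

/-- the void probability -/
noncomputable def PP (γ : ℕ → ℝ) (h T s : ℝ) : ℝ := (VV (mz γ) h (2 * Real.pi * s / Real.log T) T).toReal / T

lemma VV_le (μ : Measure ℝ) (h a T : ℝ) : VV μ h a T ≤ ENNReal.ofReal T := by
  unfold VV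
  calc ∫⁻ t in Ioc 0 T, (1 - DD μ h a t) ≤ ∫⁻ _t in Ioc 0 T, 1 := lintegral_mono fun _ => tsub_le_self
    _ = _ := by rw [setLIntegral_const, one_mul, Real.volume_Ioc, sub_zero]

lemma VV_ne (μ : Measure ℝ) (h a T : ℝ) : VV μ h a T ≠ ⊤ := ne_top_of_le_ne_top ENNReal.ofReal_ne_top (VV_le μ h a T)

lemma PP_nonneg {h T s : ℝ} (hT : 0 ≤ T) : 0 ≤ PP γ h T s := div_nonneg ENNReal.toReal_nonneg hT

lemma PP_le_one {h T s : ℝ} (hT : 0 < T) : PP γ h T s ≤ 1 := by
  unfold PP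
  rw [div_le_one hT]
  have h1 := ENNReal.toReal_mono ENNReal.ofReal_ne_top (VV_le (mz γ) h (2 * Real.pi * s / Real.log T) T)
  rwa [ENNReal.toReal_ofReal hT.le] at h1

theorem PP_mono {h h' T s : ℝ} (hh : 0 ≤ h) (hh' : h ≤ h') (h1 : h' ≤ 1) (hT : 0 < T) :
    PP γ h' T s ≤ PP γ h T s + 3 * (1 / Real.sqrt T) := by
  rcases hh'.eq_or_lt with rfl | hlt
  · have : 0 < Real.sqrt T := Real.sqrt_pos.2 hT
    have : 0 ≤ 3 * (1 / Real.sqrt T) := by positivity
    linarith
  · have hδ : 0 < h' - h := by linarith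
    have h2 := VV_mono (mz γ) (a := 2 * Real.pi * s / Real.log T) hh hδ hT
    rw [add_sub_cancel] at h2
    have h3 := ENNReal.toReal_mono (ENNReal.add_ne_top.2 ⟨VV_ne _ _ _ _, ENNReal.ofReal_ne_top⟩) h2
    rw [ENNReal.toReal_add (VV_ne _ _ _ _) ENNReal.ofReal_ne_top,
      ENNReal.toReal_ofReal (by have := Real.sqrt_nonneg T; positivity)] at h3
    unfold PP
    have hs : 0 < Real.sqrt T := Real.sqrt_pos.2 hT
    have hss : Real.sqrt T * Real.sqrt T = T := Real.mul_self_sqrt hT.le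
    have h4 := div_le_div_of_nonneg_right h3 hT.le
    rw [add_div] at h4
    refine h4.trans (add_le_add le_rfl ?_)
    have h5 : Real.sqrt T * (1 + 2 * (h' - h)) / T = (1 + 2 * (h' - h)) * (1 / Real.sqrt T) := by
      have h6 : 1 / Real.sqrt T * T = Real.sqrt T := by rw [one_div, inv_mul_eq_div, div_eq_iff hs.ne', hss]
      rw [div_eq_iff hT.ne', mul_assoc, h6]
      ring
    rw [h5]
    apply mul_le_mul_of_nonneg_right _ (by positivity)
    linarith

/-- the mass of the smoothed measures -/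
theorem mass (H : Zd γ N) : ∃ C : ℝ, 0 < C ∧ ∀ᶠ X in atTop, ∀ k : ℝ, 0 ≤ k → k ≤ 2 →
    nu (mz γ) k (Ioc 0 X) ≤ ENNReal.ofReal (C * (X * Real.log X)) := by
  obtain ⟨C, hC, hcnt⟩ : ∃ C : ℝ, 0 < C ∧ ∀ᶠ X in atTop, (N X : ℝ) ≤ C * (X * Real.log X) := by
    refine ⟨1 / Real.pi, by have := Real.pi_pos; positivity, ?_⟩
    filter_upwards [H.cnt 1 one_pos] with X hX
    refine hX.trans (le_of_eq ?_)
    have := Real.pi_ne_zero
    field_simp
    ring
  obtain ⟨B, hB⟩ : ∃ B : ℝ, B = (ENNReal.ofReal (16 / Real.pi) * ∑' n, ENNReal.ofReal (2 / (1 + γ n ^ 2))).toReal := ⟨_, rfl⟩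
  have hBt : ENNReal.ofReal (16 / Real.pi) * ∑' n, ENNReal.ofReal (2 / (1 + γ n ^ 2)) ≠ ⊤ :=
    ENNReal.mul_ne_top ENNReal.ofReal_ne_top H.sq
  have hB0 : 0 ≤ B := by rw [hB]; exact ENNReal.toReal_nonneg
  have hBe : ENNReal.ofReal (16 / Real.pi) * ∑' n, ENNReal.ofReal (2 / (1 + γ n ^ 2)) = ENNReal.ofReal B := by
    rw [hB, ENNReal.ofReal_toReal hBt]
  refine ⟨48 * C + 5 * B + 1, by positivity, ?_⟩
  have h2 : Tendsto (fun X : ℝ => 2 * X) atTop atTop := tendsto_id.const_mul_atTop two_pos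
  filter_upwards [h2.eventually hcnt, eventually_ge_atTop 3, Real.tendsto_log_atTop.eventually_ge_atTop 1] with X h3 h4 h5
  intro k hk0 hk2
  refine (nu_le (mz γ) hk0 hk2).trans ?_
  refine (add_le_add (mz_small H.pts) (mul_le_mul_right (nu_two H.pts (by linarith)) _)).trans ?_
  rw [hBe, ← ENNReal.ofReal_natCast, ← ENNReal.ofReal_natCast,
    show (2 : ℝ≥0∞) = ENNReal.ofReal 2 by norm_num, show (5 : ℝ≥0∞) = ENNReal.ofReal 5 by norm_num,
    ← ENNReal.ofReal_mul (by norm_num), ← ENNReal.ofReal_mul (by linarith),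
    ← ENNReal.ofReal_add (by positivity) (by positivity), ← ENNReal.ofReal_mul (by norm_num),
    ← ENNReal.ofReal_add (by positivity) (by positivity)]
  apply ENNReal.ofReal_le_ofReal
  have n1 : (N 1 : ℝ) ≤ N (2 * X) := by exact_mod_cast H.pts.mono (by linarith)
  have n2 : (N (X + 1) : ℝ) ≤ N (2 * X) := by exact_mod_cast H.pts.mono (by linarith)
  push_cast
  have hlog : Real.log (2 * X) ≤ 2 * Real.log X := by
    rw [Real.log_mul (by norm_num) (by linarith)]
    have : Real.log 2 ≤ Real.log X := Real.log_le_log (by norm_num) (by linarith)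
    linarith
  have h6 : (N (2 * X) : ℝ) ≤ 4 * C * (X * Real.log X) := by
    refine h3.trans ?_
    have h7 : 2 * X * Real.log (2 * X) ≤ 2 * X * (2 * Real.log X) := mul_le_mul_of_nonneg_left hlog (by linarith)
    calc C * (2 * X * Real.log (2 * X)) ≤ C * (2 * X * (2 * Real.log X)) := mul_le_mul_of_nonneg_left h7 hC.le
      _ = _ := by ring
  have h8 : X * B ≤ B * (X * Real.log X) := by
    have : X * 1 ≤ X * Real.log X := mul_le_mul_of_nonneg_left h5 (by linarith)
    nlinarith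
  have h9 : 0 ≤ X * Real.log X := by positivity
  nlinarith

/-- stability -/
theorem PP_stab (H : Zd γ N) {s ε : ℝ} (hs : 0 < s) (hε : 0 < ε) : ∃ κ : ℝ, 0 < κ ∧ ∀ᶠ T in atTop, ∀ h h' : ℝ,
    0 ≤ h → h ≤ h' → h' ≤ 1 → (h' - h) * Real.log T ≤ κ → PP γ h T s ≤ PP γ h' T s + ε := by
  obtain ⟨C, hC, hmass⟩ := mass H
  have hpi := Real.pi_pos
  -- choice of the constants
  obtain ⟨e, he⟩ : ∃ e, e = min (ε / (16 * Real.pi * C)) s / 2 := ⟨_, rfl⟩
  have he0 : 0 < e := by rw [he]; positivity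
  have he1 : e ≤ ε / (16 * Real.pi * C) / 2 := by
    rw [he]
    have := min_le_left (ε / (16 * Real.pi * C)) s
    linarith
  have he2 : 2 * e ≤ s := by
    rw [he]
    have := min_le_right (ε / (16 * Real.pi * C)) s
    linarith
  obtain ⟨κ, hκ⟩ : ∃ κ, κ = ε * e / (16 * C * s) := ⟨_, rfl⟩
  have hκ0 : 0 < κ := by rw [hκ]; positivity
  refine ⟨κ, hκ0, ?_⟩
  have hA : Tendsto (fun T : ℝ => 2 * T) atTop atTop := tendsto_id.const_mul_atTop two_pos
  have hL0 : ∀ᶠ T : ℝ in atTop, 2 * Real.pi * s ≤ Real.log T := Real.tendsto_log_atTop.eventually_ge_atTop _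
  have hL1 : ∀ᶠ T : ℝ in atTop, 2 * Real.pi * e ≤ Real.log T := Real.tendsto_log_atTop.eventually_ge_atTop _
  filter_upwards [hA.eventually hmass, hL0, hL1, eventually_ge_atTop 2, Real.tendsto_log_atTop.eventually_ge_atTop 1]
    with T h1 h2 h3 h4 h5
  intro h h' hh hh' hh1 hd
  have hT : 0 < T := by linarith
  have hlog : 0 < Real.log T := by linarith
  rcases hh'.eq_or_lt with rfl | hlt
  · linarith
  obtain ⟨δ, hδ⟩ : ∃ δ, δ = h' - h := ⟨_, rfl⟩
  have hδ0 : 0 < δ := by rw [hδ]; linarith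
  have hh'e : h' = h + δ := by rw [hδ]; ring
  rw [← hδ] at hd
  obtain ⟨a, ha⟩ : ∃ a, a = 2 * Real.pi * s / Real.log T := ⟨_, rfl⟩
  obtain ⟨η, hη⟩ : ∃ η, η = 2 * Real.pi * e / Real.log T := ⟨_, rfl⟩
  have ha0 : 0 < a := by rw [ha]; positivity
  have hη0 : 0 < η := by rw [hη]; positivity
  have ha1 : a ≤ 1 := by rw [ha, div_le_one hlog]; exact h2
  have hη1 : η ≤ 1 := by rw [hη, div_le_one hlog]; exact h3
  have hηa : 2 * η ≤ a := by
    rw [ha, hη, ← mul_div_assoc]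
    apply div_le_div_of_nonneg_right _ hlog.le
    nlinarith
  have hM : ∀ k, 0 ≤ k → k ≤ h + δ + η → nu (mz γ) k (Ioc 0 (T + a)) ≤
      ENNReal.ofReal (C * (2 * T * Real.log (2 * T))) := by
    intro k hk0 hk
    refine (measure_mono (Ioc_subset_Ioc_right (by linarith))).trans (h1 k hk0 (by linarith))
  have hst := VV_stab (mz γ) hh hδ0 hη0 hηa hM
  have hlog2 : Real.log (2 * T) ≤ 2 * Real.log T := by
    rw [Real.log_mul (by norm_num) (by linarith)]
    have : Real.log 2 ≤ Real.log T := Real.log_le_log (by norm_num) (by linarith)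
    linarith
  have hlog20 : 0 ≤ Real.log (2 * T) := Real.log_nonneg (by linarith)
  rw [← ENNReal.ofReal_mul (by positivity)] at hst
  have h6 := ENNReal.toReal_mono (ENNReal.add_ne_top.2 ⟨VV_ne _ _ _ _, ENNReal.ofReal_ne_top⟩) hst
  rw [ENNReal.toReal_add (VV_ne _ _ _ _) ENNReal.ofReal_ne_top, ENNReal.toReal_ofReal (by positivity)] at h6
  unfold PP
  rw [← ha, hh'e]
  have h7 := div_le_div_of_nonneg_right h6 hT.le
  rw [add_div] at h7
  refine h7.trans (add_le_add le_rfl ?_)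
  rw [div_le_iff₀ hT]
  have h8 : C * (2 * T * Real.log (2 * T)) ≤ 4 * C * T * Real.log T := by
    have h9 : 2 * T * Real.log (2 * T) ≤ 2 * T * (2 * Real.log T) := mul_le_mul_of_nonneg_left hlog2 (by linarith)
    calc C * (2 * T * Real.log (2 * T)) ≤ C * (2 * T * (2 * Real.log T)) := mul_le_mul_of_nonneg_left h9 hC.le
      _ = _ := by ring
  have h10 : 2 * δ * a / η = 2 * δ * s / e := by
    rw [ha, hη]
    field_simp
  have h11 : (2 * η + 2 * δ * a / η) * Real.log T ≤ 4 * Real.pi * e + 2 * κ * s / e := by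
    rw [h10, add_mul]
    have e1 : 2 * η * Real.log T = 4 * Real.pi * e := by
      rw [hη]
      field_simp
      ring
    have e2 : 2 * δ * s / e * Real.log T = (δ * Real.log T) * (2 * s / e) := by ring
    have e3 : 2 * κ * s / e = κ * (2 * s / e) := by ring
    rw [e1, e2, e3]
    have : 0 ≤ 2 * s / e := by positivity
    nlinarith
  have h12 : 4 * C * (4 * Real.pi * e + 2 * κ * s / e) ≤ ε := by
    have e1 : 4 * C * (4 * Real.pi * e) ≤ ε / 2 := by
      have := mul_le_mul_of_nonneg_left he1 (show 0 ≤ 16 * Real.pi * C by positivity)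
      have e4 : 16 * Real.pi * C * (ε / (16 * Real.pi * C) / 2) = ε / 2 := by field_simp
      rw [e4] at this
      linarith
    have e2 : 4 * C * (2 * κ * s / e) = ε / 2 := by
      rw [hκ]
      field_simp
      ring
    linarith
  calc (2 * η + 2 * δ * a / η) * (C * (2 * T * Real.log (2 * T)))
      ≤ (2 * η + 2 * δ * a / η) * (4 * C * T * Real.log T) := mul_le_mul_of_nonneg_left h8 (by positivity)
    _ = ((2 * η + 2 * δ * a / η) * Real.log T) * (4 * C * T) := by ring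
    _ ≤ (4 * Real.pi * e + 2 * κ * s / e) * (4 * C * T) := mul_le_mul_of_nonneg_right h11 (by positivity)
    _ = (4 * C * (4 * Real.pi * e + 2 * κ * s / e)) * T := by ring
    _ ≤ ε * T := mul_le_mul_of_nonneg_right h12 hT.le

lemma DD_fin (H : Zd γ N) {k a t : ℝ} (hk0 : 0 ≤ k) (hk2 : k ≤ 2) (ht : 0 < t) : DD (mz γ) k a t ≠ ⊤ := by
  obtain ⟨C, hC, hmass⟩ := mass H
  obtain ⟨X, h1, h2⟩ := (hmass.and (eventually_ge_atTop (t + a))).exists
  rw [DD_nu (mz γ) hk0]
  refine ne_top_of_le_ne_top ENNReal.ofReal_ne_top ((measure_mono ?_).trans (h1 k hk0 hk2))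
  exact Ioc_subset_Ioc ht.le h2

/-- strict decrease -/
theorem PP_sd (H : Zd γ N) {c e₀ : ℝ} (hc : 0 < c) (he₀ : 0 < e₀) : ∃ κ : ℝ, 0 < κ ∧ ∀ᶠ T in atTop, ∀ h h' : ℝ,
    0 ≤ h → h' ≤ 1 → c ≤ (h' - h) * Real.log T → e₀ ≤ PP γ h T 1 → PP γ h' T 1 ≤ PP γ h T 1 - κ := by
  obtain ⟨C, hC, hvar⟩ := H.var
  obtain ⟨R, hR1, hLT⟩ := lt_main H.pts hC H.int hvar (show 0 < e₀ / 2 by positivity)
  have hpi := Real.pi_pos
  have hR0 : 0 < R := by linarith
  obtain ⟨q, hq⟩ : ∃ q, q = 2 * c * R / (c ^ 2 + 4 * Real.pi ^ 2 * R ^ 2) := ⟨_, rfl⟩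
  have hq0 : 0 < q := by rw [hq]; positivity
  refine ⟨q * e₀ / 4, by positivity, ?_⟩
  have hsq : Tendsto (fun T : ℝ => 1 / Real.sqrt T) atTop (𝓝 0) := Real.tendsto_sqrt_atTop.const_div_atTop 1
  have hlog : Tendsto (fun T : ℝ => 2 * Real.pi * (1 + R) * (1 / Real.log T)) atTop (𝓝 0) := by
    have := (Real.tendsto_log_atTop.const_div_atTop 1).const_mul (2 * Real.pi * (1 + R))
    rwa [mul_zero] at this
  have hsm : ∀ᶠ T : ℝ in atTop, (6 + 3 * q) * (1 / Real.sqrt T) + q * (2 * Real.pi * (1 + R) * (1 / Real.log T)) < q * e₀ / 4 := by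
    have := (hsq.const_mul (6 + 3 * q)).add (hlog.const_mul q)
    rw [mul_zero, mul_zero, add_zero] at this
    exact this.eventually (gt_mem_nhds (by positivity))
  filter_upwards [hLT, hsm, eventually_ge_atTop 2, Real.tendsto_log_atTop.eventually_ge_atTop 1] with T h1 h2 h4 h5
  intro h h' hh hh1 hd he
  have hT : 0 < T := by linarith
  have hl : 0 < Real.log T := by linarith
  obtain ⟨l, hlT⟩ : ∃ l, l = Real.log T := ⟨_, rfl⟩
  rw [← hlT] at hd h5 hl
  obtain ⟨δ, hδ⟩ : ∃ δ, δ = c / l := ⟨_, rfl⟩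
  have hδ0 : 0 < δ := by rw [hδ]; positivity
  have hδ' : h + δ ≤ h' := by
    have : δ ≤ h' - h := by rw [hδ, div_le_iff₀ hl]; exact hd
    linarith
  have hδ1 : δ ≤ 1 := by linarith
  obtain ⟨a, ha⟩ : ∃ a, a = 2 * Real.pi * 1 / Real.log T := ⟨_, rfl⟩
  obtain ⟨ω, hω⟩ : ∃ ω, ω = 2 * Real.pi * R / Real.log T := ⟨_, rfl⟩
  have ha0 : 0 < a := by rw [ha, ← hlT]; positivity
  have hω0 : 0 < ω := by rw [hω, ← hlT]; positivity
  have hωa : ω = R * a := by rw [hω, ha]; ring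
  rw [← hω] at h1
  obtain ⟨p, hp⟩ : ∃ p, p = δ / (Real.pi * (δ ^ 2 + ω ^ 2)) := ⟨_, rfl⟩
  have hp0 : 0 < p := by rw [hp]; positivity
  have hpω : p * ω = q := by
    rw [hp, hq, hδ, hω, ← hlT]
    field_simp
    ring
  -- the chain of inequalities
  have s1 := SD (mz γ) (a := a) hh hδ0 hω0 hT (fun t ht => DD_fin H (by linarith) (by linarith) ht)
  rw [← hp, hpω] at s1
  have s2 := LTh (mz γ) (h := h) (a := a) (ω := ω) hh hT hω0.le
  have s3 := LT0 (mz γ) (T := T) (ω := ω) hωa hR0.le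
  have hsT : 0 < Real.sqrt T := Real.sqrt_pos.2 hT
  have s4 : ∫⁻ t in Ioc 0 T, (ENNReal.ofReal ω - dd (mz γ) h a ω t) ≤
      ENNReal.ofReal (a * (e₀ / 2 * R * T + ω) + ω * (Real.sqrt T * (1 + 2 * h))) := by
    refine s2.trans ?_
    rw [ENNReal.ofReal_add (by positivity) (by positivity)]
    refine add_le_add_left (s3.trans ?_) _
    rw [ENNReal.ofReal_mul ha0.le, ENNReal.ofReal_add (by positivity) hω0.le]
    exact mul_le_mul_right (add_le_add_left h1 _) _
  have s5 : VV (mz γ) (h + δ) a T + ENNReal.ofReal q * VV (mz γ) h a T ≤ VV (mz γ) h a T +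
      ENNReal.ofReal (Real.sqrt T * (1 + 2 * δ) + p * ((a * (e₀ / 2 * R * T + ω) + ω * (Real.sqrt T * (1 + 2 * h))) + ω ^ 2)) := by
    refine s1.trans ?_
    rw [add_assoc]
    refine add_le_add_right ?_ _
    rw [ENNReal.ofReal_add (by positivity) (by positivity), ENNReal.ofReal_mul hp0.le,
      ENNReal.ofReal_add (by positivity) (by positivity)]
    exact add_le_add_right (mul_le_mul_right (add_le_add_left s4 _) _) _
  have hqt : ENNReal.ofReal q * VV (mz γ) h a T ≠ ⊤ := ENNReal.mul_ne_top ENNReal.ofReal_ne_top (VV_ne _ _ _ _)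
  have s6 := ENNReal.toReal_mono (ENNReal.add_ne_top.2 ⟨VV_ne _ _ _ _, ENNReal.ofReal_ne_top⟩) s5
  rw [ENNReal.toReal_add (VV_ne _ _ _ _) hqt, ENNReal.toReal_add (VV_ne _ _ _ _) ENNReal.ofReal_ne_top,
    ENNReal.toReal_mul, ENNReal.toReal_ofReal hq0.le, ENNReal.toReal_ofReal (by positivity)] at s6
  -- division by T
  have e1 : (VV (mz γ) (h + δ) a T).toReal = PP γ (h + δ) T 1 * T := by
    unfold PP
    rw [← ha]
    field_simp
  have e2 : (VV (mz γ) h a T).toReal = PP γ h T 1 * T := by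
    unfold PP
    rw [← ha]
    field_simp
  rw [e1, e2] at s6
  have s7 := PP_mono (γ := γ) (s := 1) (show 0 ≤ h + δ by linarith) hδ' hh1 hT
  have hss : Real.sqrt T * Real.sqrt T = T := Real.mul_self_sqrt hT.le
  obtain ⟨r, hr⟩ : ∃ r, r = 1 / Real.sqrt T := ⟨_, rfl⟩
  have hr0 : 0 < r := by rw [hr]; positivity
  have hsr : Real.sqrt T = r * T := by
    rw [hr, one_div, inv_mul_eq_div, eq_div_iff hsT.ne', hss]
  rw [← hr] at s7 h2
  -- the error
  have e3 : p * (a * (e₀ / 2 * R * T + ω) + ω * (Real.sqrt T * (1 + 2 * h)) + ω ^ 2) =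
      q * (e₀ / 2 * T + (a + ω) + Real.sqrt T * (1 + 2 * h)) := by
    rw [← hpω, hωa]
    ring
  rw [e3, hsr] at s6
  have haω : a + ω = 2 * Real.pi * (1 + R) * (1 / Real.log T) := by
    rw [ha, hω]
    ring
  rw [haω] at s6
  obtain ⟨m, hm⟩ : ∃ m, m = 2 * Real.pi * (1 + R) * (1 / Real.log T) := ⟨_, rfl⟩
  rw [← hm] at s6 h2
  have hm0 : 0 < m := by rw [hm, ← hlT]; positivity
  -- PP(h+δ) T + q PP(h) T ≤ PP(h) T + (r T (1 + 2 δ) + q (e₀/2 T + m + r T (1 + 2h)))
  have s8 : PP γ (h + δ) T 1 + q * PP γ h T 1 ≤ PP γ h T 1 + (r * (1 + 2 * δ) + q * (e₀ / 2 + m + r * (1 + 2 * h))) := by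
    have h7 : q * m ≤ q * m * T := le_mul_of_one_le_right (mul_pos hq0 hm0).le (by linarith)
    have h8 : (PP γ (h + δ) T 1 + q * PP γ h T 1) * T ≤
        (PP γ h T 1 + (r * (1 + 2 * δ) + q * (e₀ / 2 + m + r * (1 + 2 * h)))) * T := by
      calc (PP γ (h + δ) T 1 + q * PP γ h T 1) * T = PP γ (h + δ) T 1 * T + q * (PP γ h T 1 * T) := by ring
        _ ≤ PP γ h T 1 * T + (r * T * (1 + 2 * δ) + q * (e₀ / 2 * T + m + r * T * (1 + 2 * h))) := s6
        _ = (PP γ h T 1 + (r * (1 + 2 * δ) + q * (e₀ / 2 + m + r * (1 + 2 * h)))) * T - (q * m * T - q * m) := by ring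
        _ ≤ _ := by linarith
    exact le_of_mul_le_mul_right h8 hT
  have h9 : r * (1 + 2 * δ) ≤ r * 3 := mul_le_mul_of_nonneg_left (by linarith) hr0.le
  have h10 : q * (e₀ / 2 + m + r * (1 + 2 * h)) ≤ q * (e₀ / 2 + m + r * 3) := by
    apply mul_le_mul_of_nonneg_left _ hq0.le
    have : r * (1 + 2 * h) ≤ r * 3 := mul_le_mul_of_nonneg_left (by linarith) hr0.le
    linarith
  have h11 : q * e₀ ≤ q * PP γ h T 1 := mul_le_mul_of_nonneg_left he hq0.le
  have h12 : q * (e₀ / 2 + m + r * 3) = q * e₀ / 2 + q * m + 3 * (q * r) := by ring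
  have h13 : (6 + 3 * q) * r = 6 * r + 3 * (q * r) := by ring
  rw [h12] at h10
  rw [h13] at h2
  linarith

/-- far from the line the void probability is that of equally spaced points -/
theorem PP_far (H : Zd γ N) {s : ℝ} (hs : 0 < s) {h : ℝ → ℝ} (b : ∀ T, 0 ≤ h T ∧ h T ≤ 1)
    (hlim : Tendsto (fun T => h T * Real.log T) atTop atTop) :
    Tendsto (fun T => PP γ (h T) T s) atTop (𝓝 (max (1 - s) 0)) := by
  have hpi := Real.pi_pos
  have hsq : Tendsto (fun T : ℝ => 1 / Real.sqrt T) atTop (𝓝 0) := Real.tendsto_sqrt_atTop.const_div_atTop 1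
  have hlog : Tendsto (fun T : ℝ => 1 / Real.log T) atTop (𝓝 0) := Real.tendsto_log_atTop.const_div_atTop 1
  have hup : ∀ ε : ℝ, 0 < ε → ∀ᶠ T in atTop, PP γ (h T) T s ≤ max (1 - s) 0 + ε := by
    intro ε hε
    obtain ⟨C, hC, hvar⟩ := H.var
    obtain ⟨R, hR1, hLT⟩ := lt_main H.pts hC H.int hvar (show 0 < ε / (4 * s) by positivity)
    have hR0 : 0 < R := by linarith
    obtain ⟨x, hx⟩ : ∃ x : ℝ → ℝ, x = fun T => 2 * Real.pi * R / (h T * Real.log T) := ⟨_, rfl⟩
    have hxl : Tendsto x atTop (𝓝 0) := by rw [hx]; exact hlim.const_div_atTop _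
    have hΘl : Tendsto (fun T => s * (1 - 1 / (1 + x T + x T ^ 2))) atTop (𝓝 (s * (1 - 1 / (1 + 0 + 0 ^ 2)))) := by
      apply Tendsto.const_mul
      apply Tendsto.const_sub
      apply tendsto_const_nhds.div
      · exact (hxl.const_add 1).add (hxl.pow 2)
      · norm_num
    have e0 : s * (1 - 1 / (1 + 0 + 0 ^ 2)) = (0 : ℝ) := by norm_num
    rw [e0] at hΘl
    have hsm := ((hΘl.add ((hlog.const_mul (2 * Real.pi * s * s)).add (hsq.const_mul (3 * s)))))
    rw [mul_zero, mul_zero, add_zero, add_zero] at hsm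
    filter_upwards [hLT, hsm.eventually (gt_mem_nhds (show 0 < ε / 2 by positivity)), eventually_ge_atTop 2,
      Real.tendsto_log_atTop.eventually_ge_atTop 1, hlim.eventually_gt_atTop 0] with T h1 h2 h3 h4 h5
    have hT : 0 < T := by linarith
    have hl : 0 < Real.log T := by linarith
    have hh : 0 < h T := (pos_iff_pos_of_mul_pos h5).2 hl
    have hh1 := (b T).2
    obtain ⟨a, ha⟩ : ∃ a, a = 2 * Real.pi * s / Real.log T := ⟨_, rfl⟩
    obtain ⟨ω, hω⟩ : ∃ ω, ω = 2 * Real.pi * R / Real.log T := ⟨_, rfl⟩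
    rw [← hω] at h1
    have ha0 : 0 < a := by rw [ha]; positivity
    have hω0 : 0 < ω := by rw [hω]; positivity
    have hsω : s * ω = R * a := by rw [ha, hω]; ring
    have hxω : ω / h T = x T := by
      rw [hω, hx]
      field_simp
    obtain ⟨Θ, hΘ⟩ : ∃ Θ, Θ = 1 + ω / h T + (ω / h T) ^ 2 := ⟨_, rfl⟩
    have s1 := VV_far (mz γ) (a := a) (T := T) hh hω0 hs.le hΘ
    have s2 := LTh (mz γ) (h := h T) (a := a) (ω := ω) hh.le hT (show 0 ≤ s * ω by positivity)
    have s3 := LT0 (mz γ) (T := T) (ω := ω) hsω hR0.le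
    have hsT : 0 < Real.sqrt T := Real.sqrt_pos.2 hT
    have s4 : ∫⁻ t in Ioc 0 T, (ENNReal.ofReal (s * ω) - dd (mz γ) (h T) a ω t) ≤
        ENNReal.ofReal (a * (ε / (4 * s) * R * T + s * ω) + s * ω * (Real.sqrt T * (1 + 2 * h T))) := by
      refine s2.trans ?_
      rw [ENNReal.ofReal_add (by positivity) (by positivity)]
      refine add_le_add_left (s3.trans ?_) _
      rw [ENNReal.ofReal_mul ha0.le, ENNReal.ofReal_add (by positivity) (by positivity)]
      exact mul_le_mul_right (add_le_add_left h1 _) _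
    have hΘ1 : 1 < Θ := by
      rw [hΘ]
      have : 0 < ω / h T := by positivity
      nlinarith
    have hΘi : 0 ≤ 1 - 1 / Θ := by
      rw [sub_nonneg, div_le_one (by linarith)]
      linarith
    have hm0 : 0 ≤ max (1 - s) 0 := le_max_right _ _
    have s5 : VV (mz γ) (h T) a T ≤ ENNReal.ofReal ((max (1 - s) 0 * T + s * (1 - 1 / Θ) * T) +
        1 / ω * (a * (ε / (4 * s) * R * T + s * ω) + s * ω * (Real.sqrt T * (1 + 2 * h T)))) := by
      refine s1.trans ?_
      have hX1 : 0 ≤ max (1 - s) 0 * T + s * (1 - 1 / Θ) * T := by positivity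
      have hY1 : 0 ≤ 1 / ω * (a * (ε / (4 * s) * R * T + s * ω) + s * ω * (Real.sqrt T * (1 + 2 * h T))) := by positivity
      rw [ENNReal.ofReal_add hX1 hY1, ENNReal.ofReal_mul (show 0 ≤ 1 / ω by positivity)]
      exact add_le_add_right (mul_le_mul_right s4 _) _
    have s6 := ENNReal.toReal_mono ENNReal.ofReal_ne_top s5
    rw [ENNReal.toReal_ofReal (by positivity)] at s6
    unfold PP
    rw [← ha, div_le_iff₀ hT]
    refine s6.trans ?_
    have hss : Real.sqrt T * Real.sqrt T = T := Real.mul_self_sqrt hT.le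
    have e1 : 1 / ω * (a * (ε / (4 * s) * R * T + s * ω) + s * ω * (Real.sqrt T * (1 + 2 * h T))) =
        ε / 4 * T + s * a + s * (Real.sqrt T * (1 + 2 * h T)) := by
      have e2 : a * R = s * ω := by rw [hsω]; ring
      have e3 : a * (ε / (4 * s) * R * T + s * ω) = ω * (ε / 4 * T + s * a) := by
        calc a * (ε / (4 * s) * R * T + s * ω) = (a * R) * (ε / (4 * s) * T) + a * (s * ω) := by ring
          _ = (s * ω) * (ε / (4 * s) * T) + a * (s * ω) := by rw [e2]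
          _ = _ := by field_simp
      rw [e3]
      field_simp
    rw [e1]
    have e4 : Real.sqrt T = 1 / Real.sqrt T * T := by rw [one_div, inv_mul_eq_div, eq_div_iff hsT.ne', hss]
    have e5 : s * (Real.sqrt T * (1 + 2 * h T)) ≤ 3 * s * (1 / Real.sqrt T) * T := by
      have : Real.sqrt T * (1 + 2 * h T) ≤ Real.sqrt T * 3 := mul_le_mul_of_nonneg_left (by linarith) hsT.le
      calc s * (Real.sqrt T * (1 + 2 * h T)) ≤ s * (Real.sqrt T * 3) := mul_le_mul_of_nonneg_left this hs.le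
        _ = 3 * s * Real.sqrt T := by ring
        _ = 3 * s * (1 / Real.sqrt T * T) := by rw [← e4]
        _ = _ := by ring
    have e6 : s * a ≤ 2 * Real.pi * s * s * (1 / Real.log T) * T := by
      have : s * a = 2 * Real.pi * s * s * (1 / Real.log T) := by rw [ha]; ring
      rw [this]
      exact le_mul_of_one_le_right (by positivity) (by linarith)
    have e7 : s * (1 - 1 / Θ) = s * (1 - 1 / (1 + x T + x T ^ 2)) := by rw [hΘ, hxω]
    have h6 : s * (1 - 1 / Θ) + (2 * Real.pi * s * s * (1 / Real.log T) + 3 * s * (1 / Real.sqrt T)) < ε / 2 := by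
      rw [e7]
      exact h2
    have h7 := mul_le_mul_of_nonneg_right h6.le hT.le
    have e8 : (s * (1 - 1 / Θ) + (2 * Real.pi * s * s * (1 / Real.log T) + 3 * s * (1 / Real.sqrt T))) * T =
        s * (1 - 1 / Θ) * T + 2 * Real.pi * s * s * (1 / Real.log T) * T + 3 * s * (1 / Real.sqrt T) * T := by ring
    rw [e8] at h7
    have e9 : (max (1 - s) 0 + ε) * T = max (1 - s) 0 * T + ε * T := by ring
    rw [e9]
    have : 0 < ε * T := by positivity
    linarith
  have hlow : ∀ ε : ℝ, 0 < ε → ∀ᶠ T in atTop, 1 - s - ε ≤ PP γ (h T) T s := by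
    intro ε hε
    -- choice of the small constant
    obtain ⟨e, he0, he1, he2⟩ : ∃ e : ℝ, 0 < e ∧ e ≤ 1 ∧ s * (1 + e) ^ 5 < s + ε / 2 := by
      have h1 : Tendsto (fun e : ℝ => s * (1 + e) ^ 5) (𝓝[>] 0) (𝓝 (s * (1 + 0) ^ 5)) := by
        apply tendsto_nhdsWithin_of_tendsto_nhds
        exact ((tendsto_id.const_add 1).pow 5).const_mul s
      have e0 : s * (1 + 0) ^ 5 = s := by ring
      rw [e0] at h1
      have h2 : ∀ᶠ e : ℝ in 𝓝[>] 0, e < 1 := eventually_nhdsWithin_of_eventually_nhds (gt_mem_nhds one_pos)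
      obtain ⟨e, a1, a2, a3⟩ := ((h1.eventually (gt_mem_nhds (show s < s + ε / 2 by linarith))).and
        (h2.and self_mem_nhdsWithin)).exists
      exact ⟨e, a3, a2.le, a1⟩
    obtain ⟨B0, hB0, hsharp⟩ := nu_sharp H.pts he0
    obtain ⟨B, hB⟩ : ∃ B : ℝ, B = (ENNReal.ofReal B0 * ∑' n, ENNReal.ofReal (2 / (1 + γ n ^ 2))).toReal := ⟨_, rfl⟩
    have hBt : ENNReal.ofReal B0 * ∑' n, ENNReal.ofReal (2 / (1 + γ n ^ 2)) ≠ ⊤ :=
      ENNReal.mul_ne_top ENNReal.ofReal_ne_top H.sq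
    have hBp : 0 ≤ B := by rw [hB]; exact ENNReal.toReal_nonneg
    have hBe : ENNReal.ofReal B0 * ∑' n, ENNReal.ofReal (2 / (1 + γ n ^ 2)) = ENNReal.ofReal B := by
      rw [hB, ENNReal.ofReal_toReal hBt]
    have hA : Tendsto (fun T : ℝ => (1 + e) * ((1 + e) * T)) atTop atTop :=
      (tendsto_id.const_mul_atTop (by positivity : 0 < 1 + e)).const_mul_atTop (by positivity : 0 < 1 + e)
    have hl2 : ∀ᶠ T : ℝ in atTop, 2 * Real.log (1 + e) ≤ e * Real.log T :=
      (Real.tendsto_log_atTop.const_mul_atTop he0).eventually_ge_atTop _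
    have hsm := hlog.const_mul (2 * Real.pi * s * 2 * B)
    rw [mul_zero] at hsm
    filter_upwards [hA.eventually (H.cnt e he0), hl2, hsm.eventually (gt_mem_nhds (show 0 < ε / 2 by positivity)),
      eventually_ge_atTop 2, Real.tendsto_log_atTop.eventually_ge_atTop (max 1 (2 * Real.pi * s)), hlim.eventually_gt_atTop 0,
      eventually_ge_atTop (1 / e)]
      with T h1 h2 h3 h4 h5 h6 h7
    have hT : 0 < T := by linarith
    have hl1 : 1 ≤ Real.log T := (le_max_left _ _).trans h5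
    have hls : 2 * Real.pi * s ≤ Real.log T := (le_max_right _ _).trans h5
    have hl : 0 < Real.log T := by linarith
    have hh : 0 < h T := (pos_iff_pos_of_mul_pos h6).2 hl
    obtain ⟨a, ha⟩ : ∃ a, a = 2 * Real.pi * s / Real.log T := ⟨_, rfl⟩
    have ha0 : 0 < a := by rw [ha]; positivity
    have ha1 : a ≤ 1 := by rw [ha, div_le_one hl]; exact hls
    have heT : 1 ≤ e * T := by
      rw [div_le_iff₀ he0] at h7
      linarith
    have hX : T + a ≤ (1 + e) * T := by linarith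
    have g1 := VV_low (mz γ) (h := h T) (a := a) (T := T) hh.le
    have g2 := hsharp (T + a) (by linarith) (h T) hh (b T).2
    rw [hBe, ← ENNReal.ofReal_natCast, ← ENNReal.ofReal_mul (by linarith), ← ENNReal.ofReal_add (by positivity) (by positivity)] at g2
    have g3 : ENNReal.ofReal T ≤ VV (mz γ) (h T) a T + ENNReal.ofReal (a * ((N ((1 + e) * (T + a)) : ℝ) + (T + a) * B)) := by
      refine g1.trans (add_le_add_right ?_ _)
      rw [ENNReal.ofReal_mul ha0.le]
      exact mul_le_mul_right g2 _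
    have g4 := ENNReal.toReal_mono (ENNReal.add_ne_top.2 ⟨VV_ne _ _ _ _, ENNReal.ofReal_ne_top⟩) g3
    rw [ENNReal.toReal_add (VV_ne _ _ _ _) ENNReal.ofReal_ne_top, ENNReal.toReal_ofReal hT.le,
      ENNReal.toReal_ofReal (by positivity)] at g4
    unfold PP
    rw [← ha, le_div_iff₀ hT]
    -- the main term
    have k1 : (N ((1 + e) * (T + a)) : ℝ) ≤ (1 + e) * ((1 + e) * ((1 + e) * T) * Real.log ((1 + e) * ((1 + e) * T)) / (2 * Real.pi)) := by
      refine le_trans ?_ h1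
      have : N ((1 + e) * (T + a)) ≤ N ((1 + e) * ((1 + e) * T)) :=
        H.pts.mono (mul_le_mul_of_nonneg_left hX (by linarith))
      exact_mod_cast this
    have k2 : Real.log ((1 + e) * ((1 + e) * T)) ≤ (1 + e) * Real.log T := by
      rw [Real.log_mul (by positivity) (by positivity), Real.log_mul (by positivity) (by positivity)]
      linarith
    have k3 : a * (N ((1 + e) * (T + a)) : ℝ) ≤ s * (1 + e) ^ 5 * T := by
      have k4 : (1 + e) * ((1 + e) * T) * Real.log ((1 + e) * ((1 + e) * T)) ≤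
          (1 + e) * ((1 + e) * T) * ((1 + e) * Real.log T) := mul_le_mul_of_nonneg_left k2 (by positivity)
      calc a * (N ((1 + e) * (T + a)) : ℝ) ≤ a * ((1 + e) * ((1 + e) * ((1 + e) * T) * ((1 + e) * Real.log T) / (2 * Real.pi))) := by
            apply mul_le_mul_of_nonneg_left _ ha0.le
            refine k1.trans ?_
            gcongr
        _ = s * (1 + e) ^ 4 * T := by
            rw [ha]
            field_simp
        _ ≤ s * (1 + e) ^ 5 * T := by
            have : (1 + e) ^ 4 ≤ (1 + e) ^ 5 := pow_le_pow_right₀ (by linarith) (by norm_num)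
            gcongr
    have k5 : a * ((T + a) * B) ≤ ε / 2 * T := by
      have k6 : (T + a) ≤ 2 * T := by linarith
      have k7 : 2 * Real.pi * s * 2 * B * (1 / Real.log T) * T ≤ ε / 2 * T := mul_le_mul_of_nonneg_right h3.le hT.le
      calc a * ((T + a) * B) ≤ a * ((2 * T) * B) := by gcongr
        _ = 2 * Real.pi * s * 2 * B * (1 / Real.log T) * T := by rw [ha]; ring
        _ ≤ _ := k7
    have k8 : s * (1 + e) ^ 5 * T ≤ (s + ε / 2) * T := mul_le_mul_of_nonneg_right he2.le hT.le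
    have e9 : (1 - s - ε) * T = T - ((s + ε / 2) * T + ε / 2 * T) := by ring
    rw [e9]
    rw [mul_add] at g4
    linarith
  rw [Metric.tendsto_nhds]
  intro ε hε
  filter_upwards [hup (ε / 2) (by positivity), hlow (ε / 2) (by positivity), eventually_ge_atTop 0] with T h1 h2 h3
  have h4 := PP_nonneg (γ := γ) (h := h T) (s := s) h3
  rw [Real.dist_eq, abs_lt]
  constructor
  · rcases le_total (1 - s) 0 with h5 | h5
    · rw [max_eq_right h5]; linarith
    · rw [max_eq_left h5]; linarith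
  · linarith

/-- the threshold -/
theorem PP_thr (H : Zd γ N) {E : ℝ → ℝ} (hE : 0 < E 1) {h₁ h₂ : ℝ → ℝ} (b1 : ∀ T, 0 ≤ h₁ T ∧ h₁ T ≤ 1)
    (b2 : ∀ T, 0 ≤ h₂ T ∧ h₂ T ≤ 1) (hL : ∀ s, 0 < s → Tendsto (fun T => PP γ (h₁ T) T s) atTop (𝓝 (E s))) :
    (∀ s, 0 < s → Tendsto (fun T => PP γ (h₂ T) T s) atTop (𝓝 (E s))) ↔
      Tendsto (fun T => (h₁ T - h₂ T) * Real.log T) atTop (𝓝 0) := by
  have hsq : Tendsto (fun T : ℝ => 3 * (1 / Real.sqrt T)) atTop (𝓝 0) := by
    have := (Real.tendsto_sqrt_atTop.const_div_atTop 1).const_mul 3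
    rwa [mul_zero] at this
  constructor
  · intro hL2
    rw [Metric.tendsto_nhds]
    by_contra hcon
    push Not at hcon
    obtain ⟨c, hc, hfr⟩ := hcon
    obtain ⟨κ, hκ, hsd⟩ := PP_sd H hc (show 0 < E 1 / 2 by positivity)
    have l1 := Metric.tendsto_nhds.1 (hL 1 one_pos) (min (κ / 4) (E 1 / 2)) (by positivity)
    have l2 := Metric.tendsto_nhds.1 (hL2 1 one_pos) (min (κ / 4) (E 1 / 2)) (by positivity)
    obtain ⟨T, h1, h2, h3, h4, h5⟩ := (hfr.and_eventually (hsd.and (l1.and (l2.and (eventually_ge_atTop 1))))).exists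
    rw [Real.dist_eq, abs_lt] at h3 h4
    have m1 := min_le_left (κ / 4) (E 1 / 2)
    have m2 := min_le_right (κ / 4) (E 1 / 2)
    rw [Real.dist_eq, sub_zero] at h1
    rcases le_total (h₁ T) (h₂ T) with h6 | h6
    · have hl : 0 ≤ Real.log T := Real.log_nonneg h5
      rw [abs_of_nonpos (mul_nonpos_of_nonpos_of_nonneg (by linarith) hl)] at h1
      have := h2 (h₁ T) (h₂ T) (b1 T).1 (b2 T).2 (by linarith) (by linarith)
      linarith
    · have hl : 0 ≤ Real.log T := Real.log_nonneg h5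
      rw [abs_of_nonneg (mul_nonneg (by linarith) hl)] at h1
      have := h2 (h₂ T) (h₁ T) (b2 T).1 (b1 T).2 (by linarith) (by linarith)
      linarith
  · intro hlim s hs
    rw [Metric.tendsto_nhds]
    intro ε hε
    obtain ⟨κ, hκ, hst⟩ := PP_stab H hs (show 0 < ε / 4 by positivity)
    filter_upwards [Metric.tendsto_nhds.1 (hL s hs) (ε / 4) (by positivity), hst,
      Metric.tendsto_nhds.1 hlim κ hκ, hsq.eventually (gt_mem_nhds (show 0 < ε / 4 by positivity)),
      eventually_ge_atTop 1] with T h1 h2 h3 h4 h5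
    rw [Real.dist_eq, abs_lt] at h1 ⊢
    rw [Real.dist_eq, sub_zero] at h3
    have hl : 0 ≤ Real.log T := Real.log_nonneg h5
    rcases le_total (h₁ T) (h₂ T) with h6 | h6
    · rw [abs_of_nonpos (mul_nonpos_of_nonpos_of_nonneg (by linarith) hl)] at h3
      have g1 := h2 (h₁ T) (h₂ T) (b1 T).1 h6 (b2 T).2 (by linarith)
      have g2 := PP_mono (γ := γ) (s := s) (b1 T).1 h6 (b2 T).2 (show 0 < T by linarith)
      constructor <;> linarith
    · rw [abs_of_nonneg (mul_nonneg (by linarith) hl)] at h3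
      have g1 := h2 (h₂ T) (h₁ T) (b2 T).1 h6 (b1 T).2 (by linarith)
      have g2 := PP_mono (γ := γ) (s := s) (b2 T).1 h6 (b1 T).2 (show 0 < T by linarith)
      constructor <;> linarith

end Pool.Agent.P8H69.OL
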