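import Pool.Agent.P8H69.OL.Ker

set_option autoImplicit false

/-!
# Smoothing with the Poisson kernel
-/

namespace Pool.Agent.P8H69.OL

open MeasureTheory Set Filter Topology
open scoped ENNReal

/-- smoothing with the Poisson kernel -/
noncomputable def Sm (h : ℝ) (g : ℝ → ℝ≥0∞) (t : ℝ) : ℝ≥0∞ := ∫⁻ r, pe h r * g (t - r)

lemma Sm_meas2 {h : ℝ} {g : ℝ → ℝ≥0∞} (hg : Measurable g) :
    Measurable (fun p : ℝ × ℝ => pe h p.2 * g (p.1 - p.2)) :=
  ((pe_meas h).comp measurable_snd).mul (hg.comp (measurable_fst.sub measurable_snd))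

lemma Sm_meas {h : ℝ} {g : ℝ → ℝ≥0∞} (hg : Measurable g) : Measurable (Sm h g) :=
  (Sm_meas2 hg).lintegral_prod_right'

lemma Sm_const {h : ℝ} (hh : 0 < h) (c : ℝ≥0∞) (t : ℝ) : Sm h (fun _ => c) t = c := by
  unfold Sm
  rw [lintegral_mul_const _ (pe_meas h), lint_pe hh, one_mul]

lemma Sm_mono {h : ℝ} {f g : ℝ → ℝ≥0∞} (hfg : ∀ t, f t ≤ g t) (t : ℝ) : Sm h f t ≤ Sm h g t :=
  lintegral_mono fun _ => mul_le_mul_right (hfg _) _

lemma Sm_add {h : ℝ} {f g : ℝ → ℝ≥0∞} (hf : Measurable f) (t : ℝ) :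
    Sm h (fun t => f t + g t) t = Sm h f t + Sm h g t := by
  unfold Sm
  rw [← lintegral_add_left]
  · refine lintegral_congr fun r => ?_
    rw [mul_add]
  · exact (pe_meas h).mul (hf.comp (measurable_const.sub measurable_id))

lemma Sm_Sm {a b : ℝ} (ha : 0 < a) (hb : 0 < b) {g : ℝ → ℝ≥0∞} (hg : Measurable g) (t : ℝ) :
    Sm a (Sm b g) t = Sm (a + b) g t := by
  unfold Sm
  have h1 : ∀ r, ∫⁻ u, pe b u * g (t - r - u) = ∫⁻ v, pe b (v - r) * g (t - v) := by
    intro r
    rw [← lintegral_add_right_eq_self (fun v => pe b (v - r) * g (t - v)) r]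
    refine lintegral_congr fun u => ?_
    rw [add_sub_cancel_right, show t - (u + r) = t - r - u by ring]
  have h2 : ∀ r, pe a r * ∫⁻ v, pe b (v - r) * g (t - v) = ∫⁻ v, pe a r * (pe b (v - r) * g (t - v)) := by
    intro r
    rw [lintegral_const_mul]
    exact ((pe_meas b).comp (measurable_id.sub_const r)).mul (hg.comp (measurable_const.sub measurable_id))
  simp only [h1, h2]
  rw [lintegral_lintegral_swap]
  · refine lintegral_congr fun v => ?_
    have hm : Measurable (fun r : ℝ => pe a r * pe b (v - r)) :=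
      (pe_meas a).mul ((pe_meas b).comp (measurable_const.sub measurable_id))
    rw [← pe_conv ha hb v, ← lintegral_mul_const _ hm]
    refine lintegral_congr fun r => ?_
    rw [mul_assoc]
  · apply Measurable.aemeasurable
    exact ((pe_meas a).comp measurable_fst).mul (((pe_meas b).comp (measurable_snd.sub measurable_fst)).mul
      (hg.comp (measurable_const.sub measurable_snd)))

/-- Jensen's inequality -/
lemma jens {h : ℝ} (hh : 0 < h) {g : ℝ → ℝ≥0∞} (hg : Measurable g) (c : ℝ≥0∞) (t : ℝ) :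
    c - Sm h g t ≤ Sm h (fun t => c - g t) t := by
  rw [tsub_le_iff_left, ← Sm_add hg]
  calc c = Sm h (fun _ => c) t := (Sm_const hh c t).symm
    _ ≤ _ := Sm_mono (fun t => le_add_tsub) t

lemma jens' {h : ℝ} (hh : 0 < h) {g : ℝ → ℝ≥0∞} (hg : Measurable g) (t : ℝ) :
    Sm h (fun t => 1 - g t) t + Sm h g t = 1 + Sm h (fun t => g t - 1) t := by
  have h1 : (1 : ℝ≥0∞) + Sm h (fun t => g t - 1) t = Sm h (fun t => 1 + (g t - 1)) t := by
    rw [Sm_add measurable_const, Sm_const hh]
  have hm : Measurable (fun t : ℝ => 1 - g t) := measurable_const.sub hg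
  rw [h1, ← Sm_add hm]
  unfold Sm
  refine lintegral_congr fun r => ?_
  congr 1
  show 1 - g (t - r) + g (t - r) = 1 + (g (t - r) - 1)
  rcases le_total (g (t - r)) 1 with h2 | h2
  · rw [tsub_add_cancel_of_le h2, tsub_eq_zero_of_le h2, add_zero]
  · rw [add_tsub_cancel_of_le h2, tsub_eq_zero_of_le h2, zero_add]

/-- Jensen's inequality with the exact error -/
lemma jens_eq {h : ℝ} (hh : 0 < h) {g : ℝ → ℝ≥0∞} (hg : Measurable g) {t : ℝ} (hfin : Sm h g t ≠ ⊤) :
    Sm h (fun t => 1 - g t) t = (1 - Sm h g t) +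
      min (Sm h (fun t => 1 - g t) t) (Sm h (fun t => g t - 1) t) := by
  have h1 := jens' hh hg t
  obtain ⟨A, hA⟩ : ∃ A, A = Sm h (fun t => 1 - g t) t := ⟨_, rfl⟩
  obtain ⟨B, hB⟩ : ∃ B, B = Sm h (fun t => g t - 1) t := ⟨_, rfl⟩
  obtain ⟨G, hG⟩ : ∃ G, G = Sm h g t := ⟨_, rfl⟩
  rw [← hA, ← hB, ← hG] at h1 ⊢
  rw [← hG] at hfin
  rcases le_total G 1 with h2 | h2
  · have h3 : A = B + (1 - G) := by
      have h4 : A + G = B + (1 - G) + G := by
        rw [h1, add_assoc, tsub_add_cancel_of_le h2, add_comm]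
      exact (ENNReal.add_left_inj hfin).1 h4
    have h5 : B ≤ A := by rw [h3]; exact le_self_add
    rw [min_eq_right h5, add_comm, ← h3]
  · rw [tsub_eq_zero_of_le h2, zero_add]
    have h3 : A ≤ B := by
      have h4 : A + G ≤ B + G := by
        rw [h1, add_comm]
        exact add_le_add le_rfl h2
      exact (ENNReal.add_le_add_iff_right hfin).1 h4
    exact (min_eq_left h3).symm

lemma pe_tail {δ η r : ℝ} (hδ : 0 ≤ δ) (hη : 0 < η) (hr : η ≤ |r|) :
    pe δ r ≤ ENNReal.ofReal (2 * δ / η) * pe η r := by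
  unfold pe
  rw [← ENNReal.ofReal_mul (by positivity)]
  exact ENNReal.ofReal_le_ofReal (pk_tail hδ hη hr)

/-- the boundary error -/
theorem bdry {g : ℝ → ℝ≥0∞} (hg : Measurable g) {B : ℝ≥0∞} (hB : ∀ t, g t ≤ B) {h T : ℝ} (hh : 0 < h) (hT : 0 < T) :
    ∫⁻ t in Ioc 0 T, Sm h g t ≤ (∫⁻ t in Ioc 0 T, g t) + B * ENNReal.ofReal (Real.sqrt T * (1 + 2 * h)) := by
  have hs : 0 < Real.sqrt T := Real.sqrt_pos.2 hT
  have hss : Real.sqrt T * Real.sqrt T = T := Real.mul_self_sqrt hT.le
  unfold Sm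
  rw [lintegral_lintegral_swap]
  swap
  · exact (Sm_meas2 hg).aemeasurable
  have h1 : ∀ r, ∫⁻ t in Ioc 0 T, pe h r * g (t - r) ≤ pe h r * (∫⁻ t in Ioc 0 T, g t) +
      B * (pe h r * ENNReal.ofReal (Real.sqrt T) + ENNReal.ofReal (2 * h * Real.sqrt T) * pe (Real.sqrt T) r) := by
    intro r
    have hm : Measurable (fun t : ℝ => g (t - r)) := hg.comp (measurable_id.sub_const r)
    rw [lintegral_const_mul _ hm]
    have h2 : ∫⁻ t in Ioc 0 T, g (t - r) = ∫⁻ t in Ioc (0 - r) (T - r), g t := by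
      rw [← lintegral_indicator measurableSet_Ioc, ← lintegral_indicator measurableSet_Ioc,
        ← lintegral_sub_right_eq_self ((Ioc (0 - r) (T - r)).indicator g) r]
      refine lintegral_congr fun t => ?_
      by_cases ht : t ∈ Ioc 0 T
      · have : t - r ∈ Ioc (0 - r) (T - r) := ⟨by linarith [ht.1], by linarith [ht.2]⟩
        rw [indicator_of_mem ht, indicator_of_mem this]
      · have : t - r ∉ Ioc (0 - r) (T - r) := fun h3 => ht ⟨by linarith [h3.1], by linarith [h3.2]⟩
        rw [indicator_of_notMem ht, indicator_of_notMem this]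
    have h3 : ∫⁻ t in Ioc (0 - r) (T - r), g t ≤ (∫⁻ t in Ioc 0 T, g t) + B * volume (Ioc (0 - r) (T - r) \ Ioc 0 T) := by
      have hsub : Ioc (0 - r) (T - r) ⊆ Ioc 0 T ∪ (Ioc (0 - r) (T - r) \ Ioc 0 T) := by
        intro x hx
        by_cases h4 : x ∈ Ioc 0 T
        · exact Or.inl h4
        · exact Or.inr ⟨hx, h4⟩
      refine (lintegral_mono_set hsub).trans ((lintegral_union_le _ _ _).trans (add_le_add le_rfl ?_))
      calc ∫⁻ t in Ioc (0 - r) (T - r) \ Ioc 0 T, g t ≤ ∫⁻ _t in Ioc (0 - r) (T - r) \ Ioc 0 T, B :=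
            lintegral_mono hB
        _ = B * volume (Ioc (0 - r) (T - r) \ Ioc 0 T) := setLIntegral_const _ _
    rw [h2]
    refine (mul_le_mul_right h3 _).trans ?_
    rw [mul_add]
    refine add_le_add le_rfl ?_
    rw [mul_left_comm]
    refine mul_le_mul_right ?_ _
    rcases le_total |r| (Real.sqrt T) with h4 | h4
    · refine le_trans ?_ le_self_add
      refine mul_le_mul_right ?_ _
      rcases le_total 0 r with h5 | h5
      · have : Ioc (0 - r) (T - r) \ Ioc 0 T ⊆ Ioc (0 - r) 0 := by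
          intro x hx
          refine ⟨hx.1.1, ?_⟩
          by_contra h6
          exact hx.2 ⟨by linarith, by linarith [hx.1.2]⟩
        refine (measure_mono this).trans ?_
        rw [Real.volume_Ioc]
        apply ENNReal.ofReal_le_ofReal
        rw [abs_of_nonneg h5] at h4
        linarith
      · have : Ioc (0 - r) (T - r) \ Ioc 0 T ⊆ Ioc T (T - r) := by
          intro x hx
          refine ⟨?_, hx.1.2⟩
          by_contra h6
          exact hx.2 ⟨by linarith [hx.1.1], by linarith⟩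
        refine (measure_mono this).trans ?_
        rw [Real.volume_Ioc]
        apply ENNReal.ofReal_le_ofReal
        rw [abs_of_nonpos h5] at h4
        linarith
    · refine le_trans ?_ le_add_self
      have h5 : volume (Ioc (0 - r) (T - r) \ Ioc 0 T) ≤ ENNReal.ofReal T := by
        refine (measure_mono sdiff_subset).trans ?_
        rw [Real.volume_Ioc]
        apply ENNReal.ofReal_le_ofReal
        linarith
      refine (mul_le_mul' (pe_tail hh.le hs h4) h5).trans (le_of_eq ?_)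
      rw [mul_right_comm, ← ENNReal.ofReal_mul (by positivity)]
      congr 2
      rw [div_mul_eq_mul_div, div_eq_iff hs.ne']
      rw [mul_assoc (2 * h), hss]
  refine (lintegral_mono h1).trans ?_
  have m1 : Measurable (pe h) := pe_meas h
  have m2 : Measurable (pe (Real.sqrt T)) := pe_meas _
  rw [lintegral_add_left (m1.mul_const _), lintegral_mul_const _ m1, lint_pe hh, one_mul]
  refine add_le_add le_rfl (le_of_eq ?_)
  have m3 : Measurable (fun r : ℝ => pe h r * ENNReal.ofReal (Real.sqrt T) +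
      ENNReal.ofReal (2 * h * Real.sqrt T) * pe (Real.sqrt T) r) := (m1.mul_const _).add (m2.const_mul _)
  rw [lintegral_const_mul _ m3, lintegral_add_left (m1.mul_const _),
    lintegral_mul_const _ m1, lint_pe hh, one_mul, lintegral_const_mul _ m2, lint_pe hs, mul_one,
    ← ENNReal.ofReal_add hs.le (by positivity)]
  congr 2
  ring

end Pool.Agent.P8H69.OL
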