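import Pool.Agent.P8H69.OL.Gp
import Pool.Agent.P8H69.OL.Hd
import Pool.Agent.P8H69.OL.Ph
import Pool.Agent.R305.SK.Z1
import Pool.Agent.H382R2.Final0
import Pool.Agent.H24R2.JP.Zeros

set_option autoImplicit false

/-!
# The zeros of zeta and the xi function off the critical line
-/

namespace Pool.Agent.P8H69.OL

open Complex MeasureTheory Set Filter Topology
open Pool.Agent.H24R2.JP (XX FF)
open scoped ENNReal

/-- the ordinates -/
noncomputable def gm (n : ℕ) : ℝ := SG.ord (n + 1)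

lemma gm_pts : Pts gm SG.NZ := by
  refine ⟨fun n => SG.ord_pos (by omega), fun n t => ?_⟩
  unfold gm
  rw [SG.ord_le_iff (by omega)]
  omega

lemma FFd : Differentiable ℂ FF := Pool.Agent.H24R2.JP.b1.1
lemma FFX (z : ℂ) : FF (z ^ 2) = XX z := Pool.Agent.H24R2.JP.b1.2.1 z
lemma FFc (x : ℂ) : FF ((starRingEnd ℂ) x) = (starRingEnd ℂ) (FF x) := Pool.Agent.H24R2.JP.b1.2.2.1 x
lemma XXd : Differentiable ℂ XX := by
  have : XX = fun z => FF (z ^ 2) := (funext FFX).symm
  rw [this]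
  exact FFd.comp (by fun_prop)

lemma zeta_eq {z : ℂ} (h0 : z ≠ 0) (h1 : z ≠ 1) :
    riemannZeta z = ((Gammaℝ z)⁻¹ * (4 * (z - 1 / 2) ^ 2 - 1)⁻¹) * XX (z - 1 / 2) := by
  have e1 : (1 / 2 + (z - 1 / 2) : ℂ) = z := by ring
  have h2 : (1 - (1 / 2 + (z - 1 / 2)) : ℂ) ≠ 0 := by
    rw [e1]; exact sub_ne_zero.2 h1.symm
  have h3 : (4 * (z - 1 / 2) ^ 2 - 1 : ℂ) ≠ 0 := by
    have : (4 * (z - 1 / 2) ^ 2 - 1 : ℂ) = 4 * (z * (z - 1)) := by ring
    rw [this]
    exact mul_ne_zero (by norm_num) (mul_ne_zero h0 (sub_ne_zero.2 h1))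
  rw [Pool.Agent.H24R2.JP.Zer.XX_eq (z - 1 / 2) (by rw [e1]; exact h0) h2, e1,
    riemannZeta_def_of_ne_zero h0]
  generalize (4 * (z - 1 / 2) ^ 2 - 1 : ℂ) = D at h3 ⊢
  field_simp

lemma order_eq {s : ℂ} (him : 0 < s.im) (hre : 0 < s.re) :
    analyticOrderNatAt riemannZeta s = analyticOrderNatAt XX (s - 1 / 2) := by
  have hne0 : s ≠ 0 := fun h => by rw [h] at him; simp at him
  have hne1 : s ≠ 1 := fun h => by rw [h] at him; simp at him
  have hopen : ∀ᶠ z : ℂ in 𝓝 s, 0 < z.im :=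
    Complex.continuous_im.continuousAt.eventually (lt_mem_nhds him)
  have e : riemannZeta =ᶠ[𝓝 s]
      (fun z => (Gammaℝ z)⁻¹ * (4 * (z - 1 / 2) ^ 2 - 1)⁻¹) * (XX ∘ fun z => z - 1 / 2) := by
    filter_upwards [hopen] with z hz
    have h0 : z ≠ 0 := fun h => by rw [h] at hz; simp at hz
    have h1 : z ≠ 1 := fun h => by rw [h] at hz; simp at hz
    exact zeta_eq h0 h1
  have h3 : (4 * (s - 1 / 2) ^ 2 - 1 : ℂ) ≠ 0 := by
    have : (4 * (s - 1 / 2) ^ 2 - 1 : ℂ) = 4 * (s * (s - 1)) := by ring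
    rw [this]
    exact mul_ne_zero (by norm_num) (mul_ne_zero hne0 (sub_ne_zero.2 hne1))
  have ha : AnalyticAt ℂ (fun z => (Gammaℝ z)⁻¹ * (4 * (z - 1 / 2) ^ 2 - 1)⁻¹) s := by
    refine (differentiable_Gammaℝ_inv.analyticAt s).mul ?_
    exact AnalyticAt.inv (by fun_prop) h3
  have h4 : analyticOrderAt (fun z => (Gammaℝ z)⁻¹ * (4 * (z - 1 / 2) ^ 2 - 1)⁻¹) s = 0 := by
    rw [ha.analyticOrderAt_eq_zero]
    exact mul_ne_zero (inv_ne_zero (Gammaℝ_ne_zero_of_re_pos hre)) (inv_ne_zero h3)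
  have hg : AnalyticAt ℂ (fun s : ℂ => s - 1 / 2) s := by fun_prop
  have hg' : deriv (fun s : ℂ => s - 1 / 2) s ≠ 0 := by simp
  have h2 : analyticOrderAt (XX ∘ fun s => s - 1 / 2) s = analyticOrderAt XX (s - 1 / 2) :=
    analyticOrderAt_comp_of_deriv_ne_zero hg hg'
  unfold analyticOrderNatAt
  rw [analyticOrderAt_congr e, analyticOrderAt_mul ha ((XXd.analyticAt _).comp hg), h4, h2,
    zero_add]

lemma re_half (RH : RiemannHypothesis) {s : ℂ} (h0 : riemannZeta s = 0) (him : 0 < s.im) : s.re = 1 / 2 := by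
  apply RH s h0
  · rintro ⟨n, hn⟩
    rw [hn] at him
    simp at him
  · intro h
    rw [h] at him
    simp at him

lemma order_FF {y : ℝ} (hy : 0 < y) : analyticOrderNatAt FF (-((y : ℂ)) ^ 2) = SG.zmult (1 / 2 + y * I) := by
  have h1 : analyticOrderAt (FF ∘ fun z => z ^ 2) (y * I) = analyticOrderAt FF ((y * I) ^ 2) := by
    apply analyticOrderAt_comp_of_deriv_ne_zero (by fun_prop)
    have : deriv (fun z : ℂ => z ^ 2) (y * I) = 2 * (y * I) := by simp
    rw [this]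
    have : (y : ℂ) ≠ 0 := by exact_mod_cast hy.ne'
    simp [this]
  have h2 : (FF ∘ fun z => z ^ 2) = XX := funext FFX
  have h3 : ((y : ℂ) * I) ^ 2 = -((y : ℂ)) ^ 2 := by rw [mul_pow, I_sq]; ring
  rw [h2, h3] at h1
  have h4 : analyticOrderNatAt FF (-((y : ℂ)) ^ 2) = analyticOrderNatAt XX (y * I) := by
    unfold analyticOrderNatAt
    rw [h1]
  rw [h4]
  have h5 := order_eq (s := 1 / 2 + y * I) (by simpa using hy) (by simp)
  have h6 : (1 / 2 + (y : ℂ) * I - 1 / 2) = y * I := by ring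
  rw [h6] at h5
  unfold SG.zmult
  exact h5.symm

lemma gm_count (RH : RiemannHypothesis) {y : ℝ} (hy : 0 < y) : {n : ℕ | gm n = y}.ncard = SG.zmult (1 / 2 + y * I) := by
  have h1 : {n : ℕ | gm n = y}.ncard = {n : ℕ | 1 ≤ n ∧ SG.ord n = y}.ncard := by
    apply Set.ncard_congr (fun n _ => n + 1)
    · intro n hn
      exact ⟨by omega, hn⟩
    · intro a b _ _ h
      omega
    · rintro b ⟨h1, h2⟩
      refine ⟨b - 1, ?_, by omega⟩
      show SG.ord (b - 1 + 1) = y
      rw [Nat.sub_add_cancel h1]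
      exact h2
  rw [h1, SG.ord_count y hy]
  by_cases h0 : riemannZeta (1 / 2 + y * I) = 0
  · have e1 : {s : ℂ | riemannZeta s = 0 ∧ 0 < s.re ∧ s.re < 1 ∧ s.im = y} = {1 / 2 + (y : ℂ) * I} := by
      ext z
      constructor
      · rintro ⟨a1, a2, a3, a4⟩
        have hz : z.re = 1 / 2 := re_half RH a1 (a4 ▸ hy)
        apply Complex.ext
        · rw [hz]; simp
        · rw [a4]; simp
      · rintro rfl
        exact ⟨h0, by simp, by simp; norm_num, by simp⟩
    rw [e1, finsum_mem_singleton]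
  · have e1 : {s : ℂ | riemannZeta s = 0 ∧ 0 < s.re ∧ s.re < 1 ∧ s.im = y} = ∅ := by
      ext z
      constructor
      · rintro ⟨a1, a2, a3, a4⟩
        have hz : z.re = 1 / 2 := re_half RH a1 (a4 ▸ hy)
        apply h0
        have : (1 / 2 + (y : ℂ) * I) = z := by
          apply Complex.ext
          · rw [hz]; simp
          · rw [a4]; simp
        rw [this]
        exact a1
      · intro h
        exact absurd h (Set.notMem_empty _)
    rw [e1, finsum_mem_empty]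
    unfold SG.zmult analyticOrderNatAt
    have hne : (1 / 2 + (y : ℂ) * I) ≠ 1 := by
      intro h
      have := congrArg Complex.im h
      simp at this
      linarith
    rw [(SG.zeta_an hne).analyticOrderAt_eq_zero.2 h0]
    rfl

lemma XX_zero_axis (RH : RiemannHypothesis) {z : ℂ} (hz : XX z = 0) : ∃ y : ℝ, 0 < y ∧ z ^ 2 = -((y : ℂ)) ^ 2 := by
  have h1 := Pool.Agent.W733.WM.xx_re (Pool.Agent.R305.SK.rhp RH) z hz
  have h2 : z = (z.im : ℂ) * I := by
    apply Complex.ext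
    · rw [h1]; simp
    · simp
  have h3 : z.im ≠ 0 := by
    intro h
    rw [h] at h2
    have : z = 0 := by rw [h2]; simp
    rw [this, ← FFX] at hz
    apply Pool.Agent.W120.WM.FF_zero
    simpa using hz
  refine ⟨|z.im|, abs_pos.2 h3, ?_⟩
  conv_lhs => rw [h2]
  rw [mul_pow, I_sq]
  have : ((|z.im| : ℝ) : ℂ) ^ 2 = (z.im : ℂ) ^ 2 := by
    rw [← Complex.ofReal_pow, sq_abs, Complex.ofReal_pow]
  rw [this]
  ring

lemma hcard (RH : RiemannHypothesis) (v : ℂ) : analyticOrderNatAt FF v = {n : ℕ | -((gm n : ℂ)) ^ 2 = v}.ncard := by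
  by_cases hv : ∃ y : ℝ, 0 < y ∧ v = -((y : ℂ)) ^ 2
  · obtain ⟨y, hy, rfl⟩ := hv
    rw [order_FF hy, ← gm_count RH hy]
    congr 1
    ext n
    constructor
    · intro h
      have h : gm n = y := h
      show -((gm n : ℂ)) ^ 2 = -((y : ℂ)) ^ 2
      rw [h]
    · intro h
      have h1 : -((gm n : ℂ)) ^ 2 = -((y : ℂ)) ^ 2 := h
      rw [neg_inj] at h1
      have h2 : gm n ^ 2 = y ^ 2 := by exact_mod_cast h1
      exact (pow_left_inj₀ (gm_pts.pos n).le hy.le two_ne_zero).1 h2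
  · have h1 : {n : ℕ | -((gm n : ℂ)) ^ 2 = v} = ∅ := by
      ext n
      constructor
      · intro h
        exact absurd ⟨gm n, gm_pts.pos n, (show -((gm n : ℂ)) ^ 2 = v from h).symm⟩ hv
      · intro h
        exact absurd h (Set.notMem_empty _)
    rw [h1, Set.ncard_empty]
    have h2 : FF v ≠ 0 := by
      intro h
      obtain ⟨z, hz⟩ := IsAlgClosed.exists_pow_nat_eq v (show 0 < 2 by norm_num)
      have h3 : XX z = 0 := by rw [← FFX, hz, h]
      obtain ⟨y, hy, he⟩ := XX_zero_axis RH h3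
      exact hv ⟨y, hy, by rw [← hz, he]⟩
    unfold analyticOrderNatAt
    rw [(FFd.analyticAt v).analyticOrderAt_eq_zero.2 h2]
    rfl

lemma gm_fin (x : ℝ) : {n | gm n ≤ x}.Finite := by
  refine (Set.finite_Iio (SG.NZ x)).subset fun n hn => ?_
  exact (gm_pts.le_iff n x).1 hn

/-- the derivative of the phase -/
noncomputable def wph (h y : ℝ) : ℝ := (deriv XX ((h : ℂ) + y * I) / XX ((h : ℂ) + y * I)).re

lemma XX_deriv (z : ℂ) : deriv XX z = deriv FF (z ^ 2) * (2 * z) := by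
  have h1 : HasDerivAt (fun z => FF (z ^ 2)) (deriv FF (z ^ 2) * (2 * z)) z := by
    have h2 : HasDerivAt (fun z : ℂ => z ^ 2) (2 * z) z := by simpa using hasDerivAt_pow 2 z
    exact (FFd (z ^ 2)).hasDerivAt.comp z h2
  have h2 : (fun z => FF (z ^ 2)) = XX := funext FFX
  rw [h2] at h1
  exact h1.deriv

theorem had_xi (RH : RiemannHypothesis) {z : ℂ} (hz : 0 < z.re) : XX z ≠ 0 ∧
    ∑' n, ENNReal.ofReal (tm z (-((gm n : ℂ)) ^ 2)) = ENNReal.ofReal (deriv XX z / XX z).re := by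
  obtain ⟨K, hK⟩ := Pool.Agent.H24R2.JP.grow Pool.Agent.H24R2.JP.b1
  have h := had_sum FFd Pool.Agent.W120.WM.FF_zero FFc hK gm_pts.pos gm_fin (hcard RH) hz
  rw [FFX] at h
  refine ⟨h.1, ?_⟩
  rw [h.2, XX_deriv]
  congr 2
  ring

lemma ww_xi (RH : RiemannHypothesis) {h : ℝ} (hh : 0 < h) (y : ℝ) :
    ENNReal.ofReal Real.pi * ww (mz gm) h y = ENNReal.ofReal (wph h y) := by
  have hz : 0 < ((h : ℂ) + y * I).re := by simpa using hh
  have h1 := (had_xi RH hz).2
  have hre : ((h : ℂ) + y * I).re = h := by simp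
  have him : ((h : ℂ) + y * I).im = y := by simp
  unfold wph
  rw [← h1, mz_ww, ← ENNReal.tsum_mul_left]
  refine tsum_congr fun n => ?_
  rw [tm_eq hz, hre, him]
  unfold pe
  rw [← ENNReal.ofReal_add (pk_nonneg hh.le _) (pk_nonneg hh.le _), ← ENNReal.ofReal_mul Real.pi_pos.le]

lemma XX_ne (RH : RiemannHypothesis) {h : ℝ} (hh : 0 < h) (y : ℝ) : XX ((h : ℂ) + y * I) ≠ 0 :=
  (had_xi RH (z := (h : ℂ) + y * I) (by simpa using hh)).1

lemma wph_pos (RH : RiemannHypothesis) {h : ℝ} (hh : 0 < h) (y : ℝ) : 0 < wph h y := by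
  have h1 := ww_xi RH hh y
  by_contra hcon
  rw [not_lt] at hcon
  rw [ENNReal.ofReal_of_nonpos hcon, mul_eq_zero] at h1
  rcases h1 with h1 | h1
  · rw [ENNReal.ofReal_eq_zero] at h1
    linarith [Real.pi_pos]
  · rw [mz_ww, ENNReal.tsum_eq_zero] at h1
    have h2 := h1 0
    rw [add_eq_zero] at h2
    have h3 := h2.1
    unfold pe at h3
    rw [ENNReal.ofReal_eq_zero] at h3
    have h4 : 0 < pk h (y - gm 0) := by
      unfold pk
      have := Real.pi_pos
      positivity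
    linarith

lemma wph_cont (RH : RiemannHypothesis) {h : ℝ} (hh : 0 < h) : Continuous (wph h) := by
  unfold wph
  have hd : Differentiable ℂ (deriv XX) := fun w => ((XXd.analyticAt w).deriv).differentiableAt
  have hc : Continuous fun y : ℝ => (h : ℂ) + y * I := by fun_prop
  exact Complex.continuous_re.comp ((hd.continuous.comp hc).div (XXd.continuous.comp hc) (XX_ne RH hh))

lemma DD_xi (RH : RiemannHypothesis) {h a t : ℝ} (hh : 0 < h) (ha : 0 ≤ a) :
    ENNReal.ofReal Real.pi * DD (mz gm) h a t = ENNReal.ofReal (∫ y in t..(t + a), wph h y) := by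
  rw [DD_pos (mz gm) hh, Sm_W0, ← lintegral_const_mul _ (ww_meas (mz gm) h)]
  simp only [ww_xi RH hh]
  rw [intervalIntegral.integral_of_le (by linarith), ofReal_integral_eq_lintegral_ofReal]
  · exact ((wph_cont RH hh).integrableOn_Icc (a := t) (b := t + a)).mono_set Ioc_subset_Icc_self
  · exact Eventually.of_forall fun y => (wph_pos RH hh y).le

/-- the directions off the line -/
theorem dir_off (RH : RiemannHypothesis) {h a : ℝ} (hh : 0 < h) (ha : 0 < a) (t : ℝ) :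
    volume {θ : ℝ | 0 < θ ∧ θ < Real.pi ∧ ∀ y, t < y → y < t + a → (cexp (I * θ) * (XX ((h : ℂ) + y * I) / 8)).re ≠ 0} =
      ENNReal.ofReal Real.pi * (1 - DD (mz gm) h a t) := by
  have hd : Differentiable ℂ (deriv XX) := fun w => ((XXd.analyticAt w).deriv).differentiableAt
  have hc : Continuous fun y : ℝ => (h : ℂ) + y * I := by fun_prop
  have h1 := dir_measure (f := fun y : ℝ => XX ((h : ℂ) + y * I) / 8) (f' := fun y : ℝ => deriv XX ((h : ℂ) + y * I) * I / 8)
    (fun y => by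
      have e1 : HasDerivAt (fun y : ℝ => (h : ℂ) + y * I) I y := by
        have := ((Complex.ofRealCLM.hasDerivAt (x := y)).mul_const I).const_add (h : ℂ)
        simpa using this
      have e2 : HasDerivAt (fun y : ℝ => XX ((h : ℂ) + y * I)) (deriv XX ((h : ℂ) + y * I) * I) y :=
        HasDerivAt.comp (h₂ := XX) (h := fun y : ℝ => (h : ℂ) + y * I) y (XXd ((h : ℂ) + y * I)).hasDerivAt e1
      exact e2.div_const 8) (((hd.continuous.comp hc).mul continuous_const).div_const 8)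
    (fun y => div_ne_zero (XX_ne RH hh y) (by norm_num)) (w := wph h) (fun y => by
      have h8 := XX_ne RH hh y
      have e3 : deriv XX ((h : ℂ) + y * I) * I / 8 / (XX ((h : ℂ) + y * I) / 8) =
          deriv XX ((h : ℂ) + y * I) / XX ((h : ℂ) + y * I) * I := by field_simp
      show wph h y = (deriv XX ((h : ℂ) + y * I) * I / 8 / (XX ((h : ℂ) + y * I) / 8)).im
      rw [e3, Complex.mul_I_im]
      rfl) (wph_pos RH hh) (show t < t + a by linarith)
  rw [h1, ENNReal.mul_sub (fun _ _ => ENNReal.ofReal_ne_top), mul_one, DD_xi RH hh ha.le,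
    ENNReal.ofReal_sub _ (intervalIntegral.integral_nonneg (by linarith) (fun y _ => (wph_pos RH hh y).le))]

/-- the function on the line is real -/
lemma XX_real (y : ℝ) : ∃ r : ℝ, XX ((y : ℂ) * I) = r := by
  have h1 : XX ((y : ℂ) * I) = FF (-((y : ℂ)) ^ 2) := by
    rw [← FFX]
    congr 1
    rw [mul_pow, I_sq]
    ring
  have h2 : (starRingEnd ℂ) (-((y : ℂ)) ^ 2) = -((y : ℂ)) ^ 2 := by
    simp
  refine ⟨(XX ((y : ℂ) * I)).re, ?_⟩
  have h3 := FFc (-((y : ℂ)) ^ 2)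
  rw [h2] at h3
  rw [h1]
  exact (Complex.conj_eq_iff_re.1 h3.symm).symm

lemma XX_zero_iff (RH : RiemannHypothesis) {y : ℝ} (hy : 0 < y) : XX ((y : ℂ) * I) = 0 ↔ ∃ n, gm n = y := by
  have h1 : XX ((y : ℂ) * I) = FF (-((y : ℂ)) ^ 2) := by
    rw [← FFX]
    congr 1
    rw [mul_pow, I_sq]
    ring
  rw [h1]
  have hc := hcard RH (-((y : ℂ)) ^ 2)
  constructor
  · intro h
    have h2 : analyticOrderNatAt FF (-((y : ℂ)) ^ 2) ≠ 0 := by
      intro h3
      unfold analyticOrderNatAt at h3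
      rw [ENat.toNat_eq_zero] at h3
      rcases h3 with h3 | h3
      · exact ((FFd.analyticAt _).analyticOrderAt_eq_zero.1 h3) h
      · exact order_ne_top FFd Pool.Agent.W120.WM.FF_zero _ h3
    rw [hc] at h2
    obtain ⟨n, hn⟩ := Set.nonempty_of_ncard_ne_zero h2
    have hn : -((gm n : ℂ)) ^ 2 = -((y : ℂ)) ^ 2 := hn
    rw [neg_inj] at hn
    have h4 : gm n ^ 2 = y ^ 2 := by exact_mod_cast hn
    exact ⟨n, (pow_left_inj₀ (gm_pts.pos n).le hy.le two_ne_zero).1 h4⟩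
  · rintro ⟨n, hn⟩
    by_contra h
    have h2 : analyticOrderNatAt FF (-((y : ℂ)) ^ 2) = 0 := by
      unfold analyticOrderNatAt
      rw [(FFd.analyticAt _).analyticOrderAt_eq_zero.2 h]
      rfl
    have hfin : {n : ℕ | -((gm n : ℂ)) ^ 2 = -((y : ℂ)) ^ 2}.Finite := by
      refine (gm_fin y).subset fun m hm => ?_
      have hm : -((gm m : ℂ)) ^ 2 = -((y : ℂ)) ^ 2 := hm
      rw [neg_inj] at hm
      have h4 : gm m ^ 2 = y ^ 2 := by exact_mod_cast hm
      exact ((pow_left_inj₀ (gm_pts.pos m).le hy.le two_ne_zero).1 h4).le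
    rw [hc, Set.ncard_eq_zero hfin] at h2
    have : n ∈ ({n : ℕ | -((gm n : ℂ)) ^ 2 = -((y : ℂ)) ^ 2} : Set ℕ) := by
      show -((gm n : ℂ)) ^ 2 = -((y : ℂ)) ^ 2
      rw [hn]
    rw [h2] at this
    exact this

lemma cos_vol : volume {θ : ℝ | 0 < θ ∧ θ < Real.pi ∧ Real.cos θ ≠ 0} = ENNReal.ofReal Real.pi := by
  have hpi := Real.pi_pos
  have e : {θ : ℝ | 0 < θ ∧ θ < Real.pi ∧ Real.cos θ ≠ 0} = Ioo 0 Real.pi \ {Real.pi / 2} := by
    ext θ
    constructor
    · rintro ⟨h1, h2, h3⟩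
      refine ⟨⟨h1, h2⟩, fun h4 => h3 ?_⟩
      rw [mem_singleton_iff] at h4
      rw [h4, Real.cos_pi_div_two]
    · rintro ⟨⟨h1, h2⟩, h3⟩
      refine ⟨h1, h2, fun h4 => h3 ?_⟩
      rw [mem_singleton_iff]
      rcases lt_trichotomy θ (Real.pi / 2) with h5 | h5 | h5
      · have := Real.cos_pos_of_mem_Ioo (x := θ) ⟨by linarith, h5⟩
        linarith
      · exact h5
      · have := Real.cos_neg_of_pi_div_two_lt_of_lt (x := θ) h5 (by linarith)
        linarith
  rw [e, measure_sdiff_null (Real.volume_singleton), Real.volume_Ioo, sub_zero]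

/-- the directions on the line -/
theorem dir_on (RH : RiemannHypothesis) {a : ℝ} (ha : 0 < a) {t : ℝ} (ht : 0 < t) (hta : ∀ n, gm n ≠ t + a) :
    volume {θ : ℝ | 0 < θ ∧ θ < Real.pi ∧ ∀ y, t < y → y < t + a → (cexp (I * θ) * (XX (((0 : ℝ) : ℂ) + y * I) / 8)).re ≠ 0} =
      ENNReal.ofReal Real.pi * (1 - DD (mz gm) 0 a t) := by
  have hre : ∀ θ y : ℝ, ∀ r : ℝ, XX ((y : ℂ) * I) = r → (cexp (I * θ) * (XX (((0 : ℝ) : ℂ) + y * I) / 8)).re = Real.cos θ * (r / 8) := by
    intro θ y r hr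
    have e1 : ((0 : ℝ) : ℂ) + y * I = y * I := by simp
    rw [e1, hr, mul_comm I]
    have e2 : (r : ℂ) / 8 = ((r / 8 : ℝ) : ℂ) := by push_cast; ring
    rw [e2, mul_comm, Complex.re_ofReal_mul, Complex.exp_ofReal_mul_I_re]
    ring
  rw [one_sub_win gm_pts ht.le ha.le]
  by_cases hN : SG.NZ (t + a) = SG.NZ t
  · rw [if_pos hN, mul_one, ← cos_vol]
    congr 1
    ext θ
    constructor
    · rintro ⟨h1, h2, h3⟩
      refine ⟨h1, h2, fun h4 => ?_⟩
      obtain ⟨r, hr⟩ := XX_real (t + a / 2)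
      apply h3 (t + a / 2) (by linarith) (by linarith)
      rw [hre θ (t + a / 2) r hr, h4, zero_mul]
    · rintro ⟨h1, h2, h3⟩
      refine ⟨h1, h2, fun y hy1 hy2 => ?_⟩
      obtain ⟨r, hr⟩ := XX_real y
      rw [hre θ y r hr]
      apply mul_ne_zero h3
      intro h4
      have h5 : r = 0 := by linarith
      rw [h5, Complex.ofReal_zero, XX_zero_iff RH (by linarith)] at hr
      obtain ⟨n, hn⟩ := hr
      have h6 := (gm_pts.le_iff n (t + a)).1 (by linarith)
      rw [hN] at h6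
      have h7 := (gm_pts.le_iff n t).2 h6
      linarith
  · rw [if_neg hN, mul_zero]
    have h1 : SG.NZ t < SG.NZ (t + a) := lt_of_le_of_ne (gm_pts.mono (by linarith)) (Ne.symm hN)
    have h2 := (gm_pts.le_iff (SG.NZ t) (t + a)).2 h1
    have h3 : t < gm (SG.NZ t) := by
      rw [← not_le, gm_pts.le_iff]
      exact lt_irrefl _
    have h4 : gm (SG.NZ t) < t + a := lt_of_le_of_ne h2 (hta _)
    have e : {θ : ℝ | 0 < θ ∧ θ < Real.pi ∧ ∀ y, t < y → y < t + a →
        (cexp (I * θ) * (XX (((0 : ℝ) : ℂ) + y * I) / 8)).re ≠ 0} = ∅ := by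
      ext θ
      constructor
      · rintro ⟨_, _, h5⟩
        exfalso
        apply h5 (gm (SG.NZ t)) h3 h4
        have h6 : XX ((gm (SG.NZ t) : ℂ) * I) = ((0 : ℝ) : ℂ) := by
          rw [Complex.ofReal_zero]
          exact (XX_zero_iff RH (gm_pts.pos _)).2 ⟨_, rfl⟩
        rw [hre θ _ 0 h6]
        ring
      · intro h
        exact absurd h (Set.notMem_empty _)
    rw [e, measure_empty]

/-- the void probability in terms of the xi function -/
theorem void_eq (RH : RiemannHypothesis) {h T s : ℝ} (hh : 0 ≤ h) (hT : 1 < T) (hs : 0 < s) :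
    1 / (Real.pi * T) * ∫ t in (0 : ℝ)..T, (volume {θ : ℝ | 0 < θ ∧ θ < Real.pi ∧ ∀ y, t < y →
      y < t + 2 * Real.pi * s / Real.log T → (cexp (I * θ) * (XX ((h : ℂ) + y * I) / 8)).re ≠ 0}).toReal = PP gm h T s := by
  have hpi := Real.pi_pos
  have hl : 0 < Real.log T := Real.log_pos hT
  obtain ⟨a, ha⟩ : ∃ a, a = 2 * Real.pi * s / Real.log T := ⟨_, rfl⟩
  have ha0 : 0 < a := by rw [ha]; positivity
  rw [← ha]
  have hae : ∀ᵐ t ∂(volume.restrict (Ioc 0 T)), volume {θ : ℝ | 0 < θ ∧ θ < Real.pi ∧ ∀ y, t < y →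
      y < t + a → (cexp (I * θ) * (XX ((h : ℂ) + y * I) / 8)).re ≠ 0} = ENNReal.ofReal Real.pi * (1 - DD (mz gm) h a t) := by
    rcases hh.eq_or_lt with rfl | h1
    · have hcount : (Set.range fun n => gm n - a).Countable := Set.countable_range _
      have h2 : ∀ᵐ t ∂(volume.restrict (Ioc 0 T)), t ∉ Set.range fun n => gm n - a :=
        ae_restrict_of_ae (hcount.ae_notMem volume)
      filter_upwards [h2, ae_restrict_mem measurableSet_Ioc] with t h3 h4
      exact dir_on RH ha0 h4.1 (fun n hn => h3 ⟨n, by simp only; linarith⟩)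
    · exact Eventually.of_forall fun t => dir_off RH h1 ha0 t
  rw [intervalIntegral.integral_of_le (by linarith)]
  have h3 : ∫ t in Ioc 0 T, (volume {θ : ℝ | 0 < θ ∧ θ < Real.pi ∧ ∀ y, t < y →
      y < t + a → (cexp (I * θ) * (XX ((h : ℂ) + y * I) / 8)).re ≠ 0}).toReal =
      ∫ t in Ioc 0 T, (ENNReal.ofReal Real.pi * (1 - DD (mz gm) h a t)).toReal := by
    apply integral_congr_ae
    filter_upwards [hae] with t ht
    rw [ht]
  have hm : Measurable (fun t => ENNReal.ofReal Real.pi * (1 - DD (mz gm) h a t)) :=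
    (measurable_const.sub (DD_meas (mz gm) hh a)).const_mul _
  rw [h3, integral_toReal hm.aemeasurable (Eventually.of_forall fun t =>
    ENNReal.mul_lt_top ENNReal.ofReal_lt_top (lt_of_le_of_lt tsub_le_self ENNReal.one_lt_top)),
    lintegral_const_mul' _ _ ENNReal.ofReal_ne_top, ENNReal.toReal_mul, ENNReal.toReal_ofReal hpi.le]
  unfold PP VV
  rw [← ha]
  field_simp

end Pool.Agent.P8H69.OL
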