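import Pool.Agent.P8H69.OL.Ab

set_option autoImplicit false

/-!
# The counting measure of a symmetric sequence
-/

namespace Pool.Agent.P8H69.OL

open MeasureTheory Set Filter Topology
open scoped ENNReal

/-- a sequence of positive points with its counting function -/
structure Pts (γ : ℕ → ℝ) (N : ℝ → ℕ) : Prop where
  pos : ∀ n, 0 < γ n
  le_iff : ∀ n t, γ n ≤ t ↔ n < N t

variable {γ : ℕ → ℝ} {N : ℝ → ℕ}

lemma Pts.mono (h : Pts γ N) : Monotone N := by
  intro s t hst
  by_contra hcon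
  rw [not_le] at hcon
  have h1 := (h.le_iff (N t) s).2 hcon
  have h2 := (h.le_iff (N t) t).1 (h1.trans hst)
  omega

lemma Pts.gmono (h : Pts γ N) : Monotone γ := by
  intro n m hnm
  have h1 := (h.le_iff m (γ m)).1 le_rfl
  exact (h.le_iff n (γ m)).2 (by omega)

/-- the counting measure of the points and their negatives -/
noncomputable def mz (γ : ℕ → ℝ) : Measure ℝ := Measure.sum fun n => Measure.dirac (γ n) + Measure.dirac (-γ n)

instance mz_sfinite : SFinite (mz γ) := by unfold mz; infer_instance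

lemma mz_win (h : Pts γ N) {t a : ℝ} (ht : 0 ≤ t) : mz γ (Ioc t (t + a)) = ((N (t + a) - N t : ℕ) : ℝ≥0∞) := by
  unfold mz
  rw [Measure.sum_apply _ measurableSet_Ioc]
  have h1 : ∀ n, (Measure.dirac (γ n) + Measure.dirac (-γ n)) (Ioc t (t + a)) =
      if n ∈ Finset.Ico (N t) (N (t + a)) then 1 else 0 := by
    intro n
    have hp := h.pos n
    rw [Measure.add_apply, Measure.dirac_apply' _ measurableSet_Ioc, Measure.dirac_apply' _ measurableSet_Ioc]
    have h2 : (-γ n) ∉ Ioc t (t + a) := fun h3 => by linarith [h3.1]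
    rw [indicator_of_notMem h2, add_zero]
    by_cases h3 : n ∈ Finset.Ico (N t) (N (t + a))
    · rw [if_pos h3]
      rw [Finset.mem_Ico] at h3
      have : γ n ∈ Ioc t (t + a) := by
        refine ⟨?_, (h.le_iff n _).2 h3.2⟩
        rw [← not_le, h.le_iff]
        omega
      rw [indicator_of_mem this]
      rfl
    · rw [if_neg h3]
      rw [Finset.mem_Ico] at h3
      apply indicator_of_notMem
      rintro ⟨h4, h5⟩
      rw [← not_le, h.le_iff] at h4
      rw [h.le_iff] at h5
      omega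
  simp only [h1]
  rw [tsum_eq_sum (s := Finset.Ico (N t) (N (t + a))) (fun n hn => if_neg hn), Finset.sum_ite_mem,
    Finset.inter_self, Finset.sum_const, Nat.card_Ico, nsmul_eq_mul, mul_one]

lemma mz_ww (γ : ℕ → ℝ) (h y : ℝ) : ww (mz γ) h y = ∑' n, (pe h (y - γ n) + pe h (y + γ n)) := by
  unfold ww mz
  rw [lintegral_sum_measure]
  refine tsum_congr fun n => ?_
  have hm : Measurable (fun x : ℝ => pe h (y - x)) := (pe_meas h).comp (measurable_const.sub measurable_id)
  rw [lintegral_add_measure, lintegral_dirac' _ hm, lintegral_dirac' _ hm, sub_neg_eq_add]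

/-- points below one -/
lemma mz_small (h : Pts γ N) {X : ℝ} : mz γ (Ioc (-1) (X + 1)) ≤ ((N 1 + N (X + 1) : ℕ) : ℝ≥0∞) := by
  unfold mz
  rw [Measure.sum_apply _ measurableSet_Ioc]
  have h1 : ∀ n, (Measure.dirac (γ n) + Measure.dirac (-γ n)) (Ioc (-1) (X + 1)) ≤
      (if n ∈ Finset.range (N (X + 1)) then 1 else 0) + (if n ∈ Finset.range (N 1) then 1 else 0) := by
    intro n
    rw [Measure.add_apply, Measure.dirac_apply' _ measurableSet_Ioc, Measure.dirac_apply' _ measurableSet_Ioc]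
    refine add_le_add ?_ ?_
    · by_cases h3 : γ n ∈ Ioc (-1) (X + 1)
      · rw [indicator_of_mem h3, if_pos]
        · rfl
        · rw [Finset.mem_range, ← h.le_iff]
          exact h3.2
      · rw [indicator_of_notMem h3]
        exact zero_le
    · by_cases h3 : -γ n ∈ Ioc (-1) (X + 1)
      · rw [indicator_of_mem h3, if_pos]
        · rfl
        · rw [Finset.mem_range, ← h.le_iff]
          linarith [h3.1]
      · rw [indicator_of_notMem h3]
        exact zero_le
  refine (ENNReal.tsum_le_tsum h1).trans ?_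
  rw [ENNReal.tsum_add, tsum_eq_sum (s := Finset.range (N (X + 1))) (fun n hn => if_neg hn),
    tsum_eq_sum (s := Finset.range (N 1)) (fun n hn => if_neg hn), Finset.sum_ite_mem, Finset.sum_ite_mem,
    Finset.inter_self, Finset.inter_self, Finset.sum_const, Finset.sum_const, Finset.card_range, Finset.card_range,
    nsmul_eq_mul, nsmul_eq_mul, mul_one, mul_one, add_comm]
  push_cast
  exact le_rfl

lemma pe_far {γ y : ℝ} (h : γ / 2 ≤ |y|) (h1 : 1 ≤ γ) :
    pe 2 y ≤ ENNReal.ofReal (8 / Real.pi) * ENNReal.ofReal (2 / (1 + γ ^ 2)) := by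
  unfold pe pk
  have hpi := Real.pi_pos
  rw [← ENNReal.ofReal_mul (by positivity)]
  apply ENNReal.ofReal_le_ofReal
  have h2 : (γ / 2) ^ 2 ≤ y ^ 2 := by
    rw [← sq_abs y]
    exact pow_le_pow_left₀ (by positivity) h 2
  rw [div_mul_div_comm, div_le_div_iff₀ (by positivity) (by positivity)]
  nlinarith [mul_le_mul_of_nonneg_left h2 hpi.le, sq_nonneg γ]

/-- the mass of the smoothed measure at height two -/
lemma nu_two (h : Pts γ N) {X : ℝ} (hX : 1 ≤ X) : nu (mz γ) 2 (Ioc 0 X) ≤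
    2 * (N (2 * X) : ℝ≥0∞) + ENNReal.ofReal X * (ENNReal.ofReal (16 / Real.pi) * ∑' n, ENNReal.ofReal (2 / (1 + γ n ^ 2))) := by
  unfold nu
  rw [if_neg two_ne_zero, withDensity_apply _ measurableSet_Ioc]
  have e : ∀ y, ww (mz γ) 2 y = ∑' n, (pe 2 (y - γ n) + pe 2 (y + γ n)) := mz_ww γ 2
  simp only [e]
  have m1 : ∀ n, Measurable (fun y => pe 2 (y - γ n)) := fun n => (pe_meas 2).comp (measurable_id.sub_const _)
  have m2 : ∀ n, Measurable (fun y => pe 2 (y + γ n)) := fun n => (pe_meas 2).comp (measurable_id.add_const _)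
  have m12 : ∀ n, Measurable (fun y => pe 2 (y - γ n) + pe 2 (y + γ n)) := fun n => (m1 n).add (m2 n)
  rw [lintegral_tsum (fun n => (m12 n).aemeasurable)]
  have hb : ∀ n, ∫⁻ y in Ioc 0 X, (pe 2 (y - γ n) + pe 2 (y + γ n)) ≤
      (if n ∈ Finset.range (N (2 * X)) then 2 else 0) +
        ENNReal.ofReal X * (ENNReal.ofReal (16 / Real.pi) * ENNReal.ofReal (2 / (1 + γ n ^ 2))) := by
    intro n
    by_cases hn : n ∈ Finset.range (N (2 * X))
    · rw [if_pos hn]
      refine le_trans ?_ le_self_add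
      calc ∫⁻ y in Ioc 0 X, (pe 2 (y - γ n) + pe 2 (y + γ n)) ≤ ∫⁻ y, (pe 2 (y - γ n) + pe 2 (y + γ n)) :=
            setLIntegral_le_lintegral _ _
        _ = (∫⁻ y, pe 2 y) + ∫⁻ y, pe 2 y := by
            rw [lintegral_add_left (m1 n), lintegral_sub_right_eq_self (fun y => pe 2 y) (γ n),
              lintegral_add_right_eq_self (fun y => pe 2 y) (γ n)]
        _ = 2 := by rw [lint_pe two_pos]; norm_num
    · rw [if_neg hn, zero_add]
      rw [Finset.mem_range, ← h.le_iff, not_le] at hn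
      have hpt : ∀ y ∈ Ioc 0 X, pe 2 (y - γ n) + pe 2 (y + γ n) ≤
          ENNReal.ofReal (16 / Real.pi) * ENNReal.ofReal (2 / (1 + γ n ^ 2)) := by
        intro y hy
        have h1 : γ n / 2 ≤ |y - γ n| := by
          rw [abs_of_neg (by linarith [hy.2])]
          linarith [hy.2]
        have h2 : γ n / 2 ≤ |y + γ n| := by
          rw [abs_of_pos (by linarith [hy.1, h.pos n])]
          linarith [hy.1, h.pos n]
        refine (add_le_add (pe_far h1 (by linarith)) (pe_far h2 (by linarith))).trans (le_of_eq ?_)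
        rw [← add_mul, ← ENNReal.ofReal_add (by have := Real.pi_pos; positivity) (by have := Real.pi_pos; positivity)]
        congr 2
        ring
      refine (setLIntegral_mono' measurableSet_Ioc hpt).trans (le_of_eq ?_)
      rw [setLIntegral_const, Real.volume_Ioc, sub_zero, mul_comm]
  refine (ENNReal.tsum_le_tsum hb).trans (le_of_eq ?_)
  rw [ENNReal.tsum_add, tsum_eq_sum (s := Finset.range (N (2 * X))) (fun n hn => if_neg hn), Finset.sum_ite_mem,
    Finset.inter_self, Finset.sum_const, Finset.card_range, nsmul_eq_mul, ENNReal.tsum_mul_left, ENNReal.tsum_mul_left,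
    mul_comm (2 : ℝ≥0∞)]

lemma pk_quad {k x b : ℝ} (hk : 0 < k) (hk1 : k ≤ 1) (hb : 0 < b) (hx : b ≤ |x|) : pk k x ≤ 1 / (Real.pi * b ^ 2) := by
  unfold pk
  have hpi := Real.pi_pos
  have h2 : b ^ 2 ≤ x ^ 2 := by
    rw [← sq_abs x]
    exact pow_le_pow_left₀ hb.le hx 2
  rw [div_le_div_iff₀ (by positivity) (by positivity)]
  have h3 : 0 ≤ b ^ 2 := by positivity
  have h4 : k * b ^ 2 ≤ k ^ 2 + x ^ 2 := by nlinarith [sq_nonneg k]
  nlinarith [mul_le_mul_of_nonneg_left h4 hpi.le]

/-- the sharp bound for the mass -/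
lemma nu_sharp (h : Pts γ N) {ε : ℝ} (hε : 0 < ε) : ∃ B : ℝ, 0 ≤ B ∧ ∀ X : ℝ, 0 < X → ∀ k : ℝ, 0 < k → k ≤ 1 →
    nu (mz γ) k (Ioc 0 X) ≤ (N ((1 + ε) * X) : ℝ≥0∞) + ENNReal.ofReal X * (ENNReal.ofReal B *
      ∑' n, ENNReal.ofReal (2 / (1 + γ n ^ 2))) := by
  have hpi := Real.pi_pos
  have hγ0 := h.pos 0
  obtain ⟨c0, hc0⟩ : ∃ c0, c0 = (1 + γ 0 ^ 2) / (2 * γ 0 ^ 2) := ⟨_, rfl⟩
  have hc00 : 0 < c0 := by rw [hc0]; positivity
  have hc : ∀ n, 1 / γ n ^ 2 ≤ c0 * (2 / (1 + γ n ^ 2)) := by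
    intro n
    have h1 := h.gmono (Nat.zero_le n)
    have h2 := h.pos n
    rw [hc0, div_mul_div_comm, div_le_div_iff₀ (by positivity) (by positivity)]
    have h3 : γ 0 ^ 2 ≤ γ n ^ 2 := pow_le_pow_left₀ hγ0.le h1 2
    nlinarith [sq_nonneg (γ 0), sq_nonneg (γ n)]
  obtain ⟨q, hq⟩ : ∃ q, q = ε / (1 + ε) := ⟨_, rfl⟩
  have hq0 : 0 < q := by rw [hq]; positivity
  have hq1 : q < 1 := by rw [hq, div_lt_one (by positivity)]; linarith
  refine ⟨2 / (Real.pi * q ^ 2) * c0, by positivity, ?_⟩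
  intro X hX k hk hk1
  unfold nu
  rw [if_neg hk.ne', withDensity_apply _ measurableSet_Ioc]
  have e : ∀ y, ww (mz γ) k y = ∑' n, (pe k (y - γ n) + pe k (y + γ n)) := mz_ww γ k
  simp only [e]
  have m1 : ∀ n, Measurable (fun y => pe k (y - γ n)) := fun n => (pe_meas k).comp (measurable_id.sub_const _)
  have m2 : ∀ n, Measurable (fun y => pe k (y + γ n)) := fun n => (pe_meas k).comp (measurable_id.add_const _)
  have m12 : ∀ n, Measurable (fun y => pe k (y - γ n) + pe k (y + γ n)) := fun n => (m1 n).add (m2 n)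
  rw [lintegral_tsum (fun n => (m12 n).aemeasurable)]
  -- pointwise bounds
  have hplus : ∀ n, ∀ y ∈ Ioc 0 X, pe k (y + γ n) ≤ ENNReal.ofReal (1 / (Real.pi * q ^ 2) * (1 / γ n ^ 2)) := by
    intro n y hy
    have hp := h.pos n
    unfold pe
    apply ENNReal.ofReal_le_ofReal
    have h1 : q * γ n ≤ |y + γ n| := by
      rw [abs_of_pos (by linarith [hy.1])]
      nlinarith [hy.1]
    refine (pk_quad hk hk1 (by positivity) h1).trans (le_of_eq ?_)
    field_simp
  have hminus : ∀ n, (1 + ε) * X < γ n → ∀ y ∈ Ioc 0 X, pe k (y - γ n) ≤ ENNReal.ofReal (1 / (Real.pi * q ^ 2) * (1 / γ n ^ 2)) := by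
    intro n hn y hy
    have hp := h.pos n
    unfold pe
    apply ENNReal.ofReal_le_ofReal
    have hX2 : X ≤ γ n * (1 / (1 + ε)) := by
      rw [mul_one_div, le_div_iff₀ (by positivity)]
      linarith
    have hq2 : q = 1 - 1 / (1 + ε) := by rw [hq]; field_simp; ring
    have h1 : q * γ n ≤ |y - γ n| := by
      rw [abs_of_neg (by nlinarith [hy.2]), hq2]
      nlinarith [hy.2]
    refine (pk_quad hk hk1 (by positivity) h1).trans (le_of_eq ?_)
    field_simp
  have hc2 : ∀ n, ENNReal.ofReal (1 / (Real.pi * q ^ 2) * (1 / γ n ^ 2)) + ENNReal.ofReal (1 / (Real.pi * q ^ 2) * (1 / γ n ^ 2)) ≤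
      ENNReal.ofReal (2 / (Real.pi * q ^ 2) * c0) * ENNReal.ofReal (2 / (1 + γ n ^ 2)) := by
    intro n
    have hp := h.pos n
    rw [← ENNReal.ofReal_mul (by positivity), ← ENNReal.ofReal_add (by positivity) (by positivity)]
    apply ENNReal.ofReal_le_ofReal
    have := mul_le_mul_of_nonneg_left (hc n) (show 0 ≤ 2 / (Real.pi * q ^ 2) by positivity)
    calc _ = 2 / (Real.pi * q ^ 2) * (1 / γ n ^ 2) := by ring
      _ ≤ _ := this
      _ = _ := by ring
  have hb : ∀ n, ∫⁻ y in Ioc 0 X, (pe k (y - γ n) + pe k (y + γ n)) ≤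
      (if n ∈ Finset.range (N ((1 + ε) * X)) then 1 else 0) +
        ENNReal.ofReal X * (ENNReal.ofReal (2 / (Real.pi * q ^ 2) * c0) * ENNReal.ofReal (2 / (1 + γ n ^ 2))) := by
    intro n
    have hX3 : ENNReal.ofReal X * ENNReal.ofReal (1 / (Real.pi * q ^ 2) * (1 / γ n ^ 2)) ≤
        ENNReal.ofReal X * (ENNReal.ofReal (2 / (Real.pi * q ^ 2) * c0) * ENNReal.ofReal (2 / (1 + γ n ^ 2))) :=
      mul_le_mul_right (le_self_add.trans (hc2 n)) _
    by_cases hn : n ∈ Finset.range (N ((1 + ε) * X))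
    · rw [if_pos hn, lintegral_add_left (m1 n)]
      refine add_le_add ?_ ?_
      · calc ∫⁻ y in Ioc 0 X, pe k (y - γ n) ≤ ∫⁻ y, pe k (y - γ n) := setLIntegral_le_lintegral _ _
          _ = ∫⁻ y, pe k y := lintegral_sub_right_eq_self (fun y => pe k y) (γ n)
          _ = 1 := lint_pe hk
      · refine le_trans ?_ hX3
        refine (setLIntegral_mono' measurableSet_Ioc (hplus n)).trans (le_of_eq ?_)
        rw [setLIntegral_const, Real.volume_Ioc, sub_zero, mul_comm]
    · rw [if_neg hn, zero_add]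
      rw [Finset.mem_range, ← h.le_iff, not_le] at hn
      have hpt : ∀ y ∈ Ioc 0 X, pe k (y - γ n) + pe k (y + γ n) ≤
          ENNReal.ofReal (2 / (Real.pi * q ^ 2) * c0) * ENNReal.ofReal (2 / (1 + γ n ^ 2)) :=
        fun y hy => (add_le_add (hminus n hn y hy) (hplus n y hy)).trans (hc2 n)
      refine (setLIntegral_mono' measurableSet_Ioc hpt).trans (le_of_eq ?_)
      rw [setLIntegral_const, Real.volume_Ioc, sub_zero, mul_comm]
  refine (ENNReal.tsum_le_tsum hb).trans (le_of_eq ?_)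
  rw [ENNReal.tsum_add, tsum_eq_sum (s := Finset.range (N ((1 + ε) * X))) (fun n hn => if_neg hn), Finset.sum_ite_mem,
    Finset.inter_self, Finset.sum_const, Finset.card_range, nsmul_eq_mul, ENNReal.tsum_mul_left, ENNReal.tsum_mul_left,
    mul_one]

/-- one block of the lower tail -/
lemma lt_block (h : Pts γ N) {U R a lm S : ℝ} {T : ℝ} (hU : 0 < U) (hlm : 0 < lm) (haR : a ≤ R)
    (hω : 2 * Real.pi * R / Real.log T = 2 * Real.pi * a / Real.log U) (hT : 0 ≤ Real.log T) (hR : 0 ≤ R)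
    (hI : IntegrableOn (fun t => ((N (t + 2 * Real.pi * a / Real.log U) : ℝ) - N t - a) ^ 2) (Icc U (2 * U)))
    (hm : ∫ t in Icc U (2 * U), ((N (t + 2 * Real.pi * a / Real.log U) : ℝ) - N t - a) ^ 2 ≤ S * U) (hS : S ≤ lm ^ 2) :
    ∫⁻ t in Ioc U (2 * U), (ENNReal.ofReal R - mz γ (Ioc t (t + 2 * Real.pi * R / Real.log T))) ≤
      ENNReal.ofReal (U * (R - a + lm)) := by
  obtain ⟨ω, hωd⟩ : ∃ ω, ω = 2 * Real.pi * R / Real.log T := ⟨_, rfl⟩
  rw [← hωd] at hω ⊢
  rw [← hω] at hI hm
  have hω0 : 0 ≤ ω := by rw [hωd]; have := Real.pi_pos; positivity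
  have hpt : ∀ t ∈ Ioc U (2 * U), ENNReal.ofReal R - mz γ (Ioc t (t + ω)) ≤
      ENNReal.ofReal ((R - a + lm / 2) + ((N (t + ω) : ℝ) - N t - a) ^ 2 / (2 * lm)) := by
    intro t ht
    rw [mz_win h (by linarith [ht.1]), ← ENNReal.ofReal_natCast, ← ENNReal.ofReal_sub _ (Nat.cast_nonneg _)]
    apply ENNReal.ofReal_le_ofReal
    have hle : N t ≤ N (t + ω) := h.mono (by linarith)
    rw [Nat.cast_sub hle]
    obtain ⟨x, hx⟩ : ∃ x, x = (N (t + ω) : ℝ) - N t - a := ⟨_, rfl⟩
    rw [← hx]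
    have h1 : R - ((N (t + ω) : ℝ) - N t) = R - a - x := by rw [hx]; ring
    rw [h1]
    have h2 : -x ≤ lm / 2 + x ^ 2 / (2 * lm) := by
      rw [div_add_div _ _ two_ne_zero (by positivity), le_div_iff₀ (by positivity)]
      nlinarith [sq_nonneg (x + lm), sq_nonneg x]
    linarith
  refine (setLIntegral_mono' measurableSet_Ioc hpt).trans ?_
  have hint : IntegrableOn (fun t => (R - a + lm / 2) + ((N (t + ω) : ℝ) - N t - a) ^ 2 / (2 * lm)) (Icc U (2 * U)) := by
    apply Integrable.add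
    · exact integrableOn_const (by simp)
    · exact hI.div_const _
  have hnn : ∀ t, 0 ≤ (R - a + lm / 2) + ((N (t + ω) : ℝ) - N t - a) ^ 2 / (2 * lm) := by
    intro t
    have : 0 ≤ R - a := by linarith
    positivity
  calc ∫⁻ t in Ioc U (2 * U), ENNReal.ofReal ((R - a + lm / 2) + ((N (t + ω) : ℝ) - N t - a) ^ 2 / (2 * lm))
      ≤ ∫⁻ t in Icc U (2 * U), ENNReal.ofReal ((R - a + lm / 2) + ((N (t + ω) : ℝ) - N t - a) ^ 2 / (2 * lm)) :=
        lintegral_mono_set Ioc_subset_Icc_self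
    _ = ENNReal.ofReal (∫ t in Icc U (2 * U), ((R - a + lm / 2) + ((N (t + ω) : ℝ) - N t - a) ^ 2 / (2 * lm))) := by
        rw [ofReal_integral_eq_lintegral_ofReal hint (Eventually.of_forall hnn)]
    _ ≤ _ := by
        apply ENNReal.ofReal_le_ofReal
        have hci : Integrable (fun _ : ℝ => R - a + lm / 2) (volume.restrict (Icc U (2 * U))) :=
          integrableOn_const (by simp)
        have hdi : Integrable (fun t => ((N (t + ω) : ℝ) - N t - a) ^ 2 / (2 * lm)) (volume.restrict (Icc U (2 * U))) :=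
          hI.div_const _
        rw [integral_add hci hdi, integral_div, setIntegral_const]
        have hv : volume.real (Icc U (2 * U)) = U := by
          rw [Real.volume_real_Icc_of_le (by linarith)]
          ring
        rw [hv, smul_eq_mul]
        have h3 : (∫ t in Icc U (2 * U), ((N (t + ω) : ℝ) - N t - a) ^ 2) / (2 * lm) ≤ U * (lm / 2) := by
          rw [div_le_iff₀ (by positivity)]
          calc _ ≤ S * U := hm
            _ ≤ lm ^ 2 * U := mul_le_mul_of_nonneg_right hS hU.le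
            _ = _ := by ring
        linarith

/-- the lower tail -/
theorem lt_main (h : Pts γ N) {C : ℝ} (hC : 0 < C)
    (hI : ∀ a ω A B : ℝ, IntegrableOn (fun t => ((N (t + ω) : ℝ) - N t - a) ^ 2) (Icc A B))
    (hm : ∀ᶠ U in atTop, ∀ a : ℝ, 0 < a → a * Real.log a ≤ Real.log U →
      ∫ t in Icc U (2 * U), ((N (t + 2 * Real.pi * a / Real.log U) : ℝ) - N t - a) ^ 2 ≤
        C * (1 + Real.log (1 + a)) * U) {ε : ℝ} (hε : 0 < ε) :
    ∃ R : ℝ, 1 ≤ R ∧ ∀ᶠ T in atTop,
      ∫⁻ t in Ioc 0 T, (ENNReal.ofReal R - mz γ (Ioc t (t + 2 * Real.pi * R / Real.log T))) ≤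
        ENNReal.ofReal (ε * R * T) := by
  -- choice of R
  obtain ⟨R, hR1, hRC⟩ : ∃ R : ℝ, 1 ≤ R ∧ C * (1 + Real.log (1 + R)) ≤ (ε * R / 4) ^ 2 := by
    have h1 : Tendsto (fun R : ℝ => Real.log (1 + R) / (1 + R)) atTop (𝓝 0) := by
      have := (Real.isLittleO_log_id_atTop.tendsto_div_nhds_zero).comp (tendsto_atTop_add_const_left atTop 1 tendsto_id)
      exact this
    have h2 : Tendsto (fun R : ℝ => C * (1 / (1 + R) + Real.log (1 + R) / (1 + R))) atTop (𝓝 (C * (0 + 0))) := by
      apply Tendsto.const_mul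
      apply Tendsto.add _ h1
      exact (tendsto_atTop_add_const_left atTop 1 tendsto_id).const_div_atTop 1
    rw [add_zero, mul_zero] at h2
    obtain ⟨R, a1, a2, a3⟩ := ((eventually_ge_atTop (1 : ℝ)).and ((h2.eventually (gt_mem_nhds one_pos)).and
      (eventually_ge_atTop (32 / ε ^ 2)))).exists
    refine ⟨R, a1, ?_⟩
    have h3 : C * (1 + Real.log (1 + R)) ≤ 1 + R := by
      have h4 : C * (1 / (1 + R) + Real.log (1 + R) / (1 + R)) * (1 + R) = C * (1 + Real.log (1 + R)) := by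
        field_simp
      rw [← h4]
      have : 0 < 1 + R := by linarith
      nlinarith
    have h5 : 32 ≤ R * ε ^ 2 := by
      rwa [div_le_iff₀ (by positivity)] at a3
    refine h3.trans ?_
    have h6 : R * 32 ≤ R * (R * ε ^ 2) := mul_le_mul_of_nonneg_left h5 (by linarith)
    nlinarith
  obtain ⟨lm, hlm⟩ : ∃ lm, lm = ε * R / 4 := ⟨_, rfl⟩
  have hlm0 : 0 < lm := by rw [hlm]; positivity
  obtain ⟨K, hK⟩ : ∃ K : ℕ, (1 / 2 : ℝ) ^ K < ε / 2 := exists_pow_lt_of_lt_one (by positivity) (by norm_num)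
  refine ⟨R, hR1, ?_⟩
  obtain ⟨U0, hU0⟩ := eventually_atTop.1 hm
  obtain ⟨U1, hU1⟩ : ∃ U1, U1 = max (max U0 2) (Real.exp (R * Real.log R)) := ⟨_, rfl⟩
  have hlog : ∀ᶠ T : ℝ in atTop, R * (K * Real.log 2) ≤ lm * Real.log T :=
    (Real.tendsto_log_atTop.const_mul_atTop hlm0).eventually_ge_atTop _
  filter_upwards [hlog, eventually_ge_atTop (U1 * 2 ^ K), eventually_gt_atTop 1] with T hT1 hT2 hT3
  have hLT : 0 < Real.log T := Real.log_pos hT3
  have hT0 : 0 < T := by linarith
  -- the induction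
  have key : ∀ k : ℕ, k ≤ K →
      ∫⁻ t in Ioc 0 T, (ENNReal.ofReal R - mz γ (Ioc t (t + 2 * Real.pi * R / Real.log T))) ≤
      (∫⁻ t in Ioc 0 (T / 2 ^ k), (ENNReal.ofReal R - mz γ (Ioc t (t + 2 * Real.pi * R / Real.log T)))) +
        ENNReal.ofReal ((1 - (1 / 2) ^ k) * T * (2 * lm)) := by
    intro k
    induction k with
    | zero =>
      intro _
      simp
    | succ k ih =>
      intro hk
      refine (ih (by omega)).trans ?_
      obtain ⟨U, hU⟩ : ∃ U, U = T / 2 ^ (k + 1) := ⟨_, rfl⟩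
      have hU2 : T / 2 ^ k = 2 * U := by rw [hU, pow_succ]; field_simp
      have hUU : U1 ≤ U := by
        rw [hU, le_div_iff₀ (by positivity)]
        refine le_trans ?_ hT2
        have h1 : (2 : ℝ) ^ (k + 1) ≤ 2 ^ K := pow_le_pow_right₀ (by norm_num) hk
        have h2 : 0 ≤ U1 := by rw [hU1]; positivity
        exact mul_le_mul_of_nonneg_left h1 h2
      have hUa : U0 ≤ U := le_trans (le_trans (le_max_left _ _) (le_max_left _ _)) (by rw [hU1] at hUU; exact hUU)
      have hUb : 2 ≤ U := le_trans (le_trans (le_max_right _ _) (le_max_left _ _)) (by rw [hU1] at hUU; exact hUU)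
      have hUc : Real.exp (R * Real.log R) ≤ U := le_trans (le_max_right _ _) (by rw [hU1] at hUU; exact hUU)
      have hUpos : 0 < U := by linarith
      have hLU : 0 < Real.log U := Real.log_pos (by linarith)
      have hRl : R * Real.log R ≤ Real.log U := (Real.le_log_iff_exp_le hUpos).2 hUc
      have hUT : U ≤ T := by
        rw [hU]
        exact div_le_self hT0.le (one_le_pow₀ (by norm_num))
      have hLUT : Real.log U ≤ Real.log T := Real.log_le_log hUpos hUT
      obtain ⟨a, ha⟩ : ∃ a, a = R * Real.log U / Real.log T := ⟨_, rfl⟩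
      have ha0 : 0 < a := by rw [ha]; positivity
      have haR : a ≤ R := by
        rw [ha, div_le_iff₀ hLT]
        exact mul_le_mul_of_nonneg_left hLUT (by linarith)
      have hal : a * Real.log a ≤ Real.log U := by
        refine le_trans ?_ hRl
        rcases le_total (Real.log a) 0 with h1 | h1
        · have h2 : a * Real.log a ≤ 0 := mul_nonpos_of_nonneg_of_nonpos ha0.le h1
          have h3 : 0 ≤ R * Real.log R := mul_nonneg (by linarith) (Real.log_nonneg hR1)
          linarith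
        · exact mul_le_mul haR (Real.log_le_log ha0 haR) h1 (by linarith)
      have hω : 2 * Real.pi * R / Real.log T = 2 * Real.pi * a / Real.log U := by
        rw [ha]
        field_simp
      have hlogU : Real.log T ≤ Real.log U + K * Real.log 2 := by
        have h1 : Real.log U = Real.log T - (k + 1 : ℕ) * Real.log 2 := by
          rw [hU, Real.log_div hT0.ne' (by positivity), Real.log_pow]
        rw [h1]
        have h2 : ((k + 1 : ℕ) : ℝ) * Real.log 2 ≤ K * Real.log 2 := by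
          apply mul_le_mul_of_nonneg_right _ (Real.log_nonneg (by norm_num))
          exact_mod_cast hk
        linarith
      have hRa : R - a ≤ lm := by
        have h1 : R - a = R * (Real.log T - Real.log U) / Real.log T := by
          rw [ha]
          field_simp
        rw [h1, div_le_iff₀ hLT]
        refine le_trans ?_ hT1
        exact mul_le_mul_of_nonneg_left (by linarith) (by linarith)
      have hS : C * (1 + Real.log (1 + a)) ≤ lm ^ 2 := by
        rw [hlm]
        refine le_trans ?_ hRC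
        have h1 : Real.log (1 + a) ≤ Real.log (1 + R) := Real.log_le_log (by linarith) (by linarith)
        gcongr
      have hb := lt_block h (T := T) hUpos hlm0 haR hω hLT.le (by linarith) (hI a _ U (2 * U))
        (hU0 U hUa a ha0 hal) hS
      have hsub : Ioc 0 (T / 2 ^ k) ⊆ Ioc 0 U ∪ Ioc U (2 * U) := by
        rw [hU2, Ioc_union_Ioc_eq_Ioc hUpos.le (by linarith)]
      have h3 : ∫⁻ t in Ioc 0 (T / 2 ^ k), (ENNReal.ofReal R - mz γ (Ioc t (t + 2 * Real.pi * R / Real.log T))) ≤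
          (∫⁻ t in Ioc 0 U, (ENNReal.ofReal R - mz γ (Ioc t (t + 2 * Real.pi * R / Real.log T)))) +
          ENNReal.ofReal (U * (2 * lm)) := by
        refine (lintegral_mono_set hsub).trans ((lintegral_union_le _ _ _).trans (add_le_add le_rfl (hb.trans ?_)))
        apply ENNReal.ofReal_le_ofReal
        apply mul_le_mul_of_nonneg_left _ hUpos.le
        linarith
      refine (add_le_add_left h3 _).trans (le_of_eq ?_)
      have h12 : (0 : ℝ) ≤ 1 - (1 / 2) ^ k := by
        have : (1 / 2 : ℝ) ^ k ≤ 1 := pow_le_one₀ (by norm_num) (by norm_num)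
        linarith
      rw [add_assoc, ← ENNReal.ofReal_add (by positivity) (by positivity), ← hU]
      congr 2
      have h4 : U = T * (1 / 2) ^ (k + 1) := by
        rw [hU, one_div, inv_pow]
        rfl
      rw [h4]
      ring
  refine (key K le_rfl).trans ?_
  have h5 : ∫⁻ t in Ioc 0 (T / 2 ^ K), (ENNReal.ofReal R - mz γ (Ioc t (t + 2 * Real.pi * R / Real.log T))) ≤
      ENNReal.ofReal (R * (T * (1 / 2) ^ K)) := by
    calc _ ≤ ∫⁻ _t in Ioc 0 (T / 2 ^ K), ENNReal.ofReal R := lintegral_mono fun _ => tsub_le_self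
      _ = _ := by
        rw [setLIntegral_const, Real.volume_Ioc, sub_zero, ← ENNReal.ofReal_mul (by linarith)]
        congr 1
        rw [one_div, inv_pow]
        rfl
  refine (add_le_add_left h5 _).trans ?_
  have h12 : (0 : ℝ) ≤ 1 - (1 / 2) ^ K := by
    have : (1 / 2 : ℝ) ^ K ≤ 1 := pow_le_one₀ (by norm_num) (by norm_num)
    linarith
  rw [← ENNReal.ofReal_add (by positivity) (by positivity)]
  apply ENNReal.ofReal_le_ofReal
  have h6 : R * (T * (1 / 2) ^ K) ≤ R * (T * (ε / 2)) := by gcongr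
  have h7 : (1 - (1 / 2 : ℝ) ^ K) * T * (2 * lm) ≤ 1 * T * (2 * lm) := by
    have : (0 : ℝ) < (1 / 2) ^ K := by positivity
    gcongr
    linarith
  rw [hlm] at h7
  rw [hlm]
  calc R * (T * (1 / 2) ^ K) + (1 - (1 / 2) ^ K) * T * (2 * (ε * R / 4)) ≤ R * (T * (ε / 2)) + 1 * T * (2 * (ε * R / 4)) :=
        add_le_add h6 h7
    _ = ε * R * T := by ring

end Pool.Agent.P8H69.OL
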